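import Pool.Agent.V8H85.OM.H
import Pool.Agent.V8H85.OM.M

/-!
# Fourier coefficients of an odd Maass form
-/

set_option autoImplicit false

open MeasureTheory Set
open scoped MatrixGroups Topology ComplexConjugate ContDiff

namespace Pool.Agent.V8H27.OM.Fou

noncomputable section

/-- the upper half plane as a set of complex numbers -/
def HH : Set ℂ := {z : ℂ | 0 < z.im}

lemma isOpen_HH : IsOpen HH := isOpen_lt continuous_const Complex.continuous_im

/-- the point `x + i y` -/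
def pt (x y : ℝ) : ℂ := (x : ℂ) + (y : ℂ) * Complex.I

lemma pt_re (x y : ℝ) : (pt x y).re = x := by simp [pt]

lemma pt_im (x y : ℝ) : (pt x y).im = y := by simp [pt]

lemma pt_mem {x y : ℝ} (hy : 0 < y) : pt x y ∈ HH := by
  show 0 < (pt x y).im
  rw [pt_im]; exact hy

lemma pt_eq (z : ℂ) : pt z.re z.im = z := Complex.re_add_im z

lemma continuous_pt : Continuous (fun p : ℝ × ℝ => pt p.1 p.2) := by
  unfold pt
  fun_prop

lemma continuous_pt_left (y : ℝ) : Continuous (fun x : ℝ => pt x y) := by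
  unfold pt
  fun_prop

/-- exponentials -/
def ee (n : ℤ) (x : ℝ) : ℂ := Complex.exp (2 * Real.pi * Complex.I * n * x)

lemma continuous_ee (n : ℤ) : Continuous (ee n) := by
  unfold ee
  fun_prop

lemma norm_ee (n : ℤ) (x : ℝ) : ‖ee n x‖ = 1 := by
  unfold ee
  rw [show (2 * Real.pi * Complex.I * n * x : ℂ) = ((2 * Real.pi * n * x : ℝ) : ℂ) * Complex.I by
    push_cast; ring]
  exact Complex.norm_exp_ofReal_mul_I _

lemma ee_add (n : ℤ) (x y : ℝ) : ee n (x + y) = ee n x * ee n y := by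
  unfold ee
  rw [← Complex.exp_add]
  congr 1
  push_cast
  ring

lemma ee_int (n k : ℤ) : ee n k = 1 := by
  unfold ee
  rw [Complex.exp_eq_one_iff]
  exact ⟨n * k, by push_cast; ring⟩

lemma ee_one (n : ℤ) : ee n 1 = 1 := by
  have := ee_int n 1
  simpa using this

lemma ee_zero (n : ℤ) : ee n 0 = 1 := by simp [ee]

lemma ee_neg (n : ℤ) (x : ℝ) : ee n (-x) = ee (-n) x := by
  unfold ee
  congr 1
  push_cast
  ring

lemma ee_per (n : ℤ) : Function.Periodic (ee n) 1 := fun x => by rw [ee_add, ee_one, mul_one]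

lemma hasDerivAt_ee (n : ℤ) (x : ℝ) : HasDerivAt (ee n) (2 * Real.pi * Complex.I * n * ee n x) x := by
  have h1 : HasDerivAt (fun x : ℝ => (2 * Real.pi * Complex.I * n * x : ℂ)) (2 * Real.pi * Complex.I * n) x := by
    have := (Complex.ofRealCLM.hasDerivAt (x := x)).const_mul (2 * Real.pi * Complex.I * n : ℂ)
    refine this.congr_deriv ?_
    simp
  have h2 := h1.cexp
  refine h2.congr_deriv ?_
  unfold ee
  ring

/-- smooth functions on the upper half plane which have period one -/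
structure PS (G : ℂ → ℂ) : Prop where
  smooth : ContDiffOn ℝ ∞ G HH
  per : ∀ z ∈ HH, G (z + 1) = G z

/-- directional derivatives -/
def DD (v : ℂ) (G : ℂ → ℂ) (z : ℂ) : ℂ := fderiv ℝ G z v

lemma PS.cont {G : ℂ → ℂ} (h : PS G) : ContinuousOn G HH := h.smooth.continuousOn

lemma PS.diffAt {G : ℂ → ℂ} (h : PS G) {z : ℂ} (hz : z ∈ HH) : DifferentiableAt ℝ G z :=
  (h.smooth.contDiffAt (isOpen_HH.mem_nhds hz)).differentiableAt (by simp)

lemma add_one_mem {z : ℂ} (hz : z ∈ HH) : z + 1 ∈ HH := by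
  have h : 0 < z.im := hz
  show 0 < (z + 1).im
  simpa using h

lemma PS.DD {G : ℂ → ℂ} (h : PS G) (v : ℂ) : PS (DD v G) := by
  refine ⟨?_, fun z hz => ?_⟩
  · have h1 := ((contDiffOn_infty_iff_fderiv_of_isOpen isOpen_HH).mp h.smooth).2
    exact h1.clm_apply contDiffOn_const
  · have h1 : (fun w => G (w + 1)) =ᶠ[𝓝 z] G := by
      filter_upwards [isOpen_HH.mem_nhds hz] with w hw using h.per w hw
    have h2 := h1.fderiv_eq (𝕜 := ℝ)
    rw [fderiv_comp_add_right] at h2
    unfold Fou.DD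
    rw [h2]

lemma PS.per_pt {G : ℂ → ℂ} (h : PS G) {y : ℝ} (hy : 0 < y) : Function.Periodic (fun x => G (pt x y)) 1 := by
  intro x
  have := h.per (pt x y) (pt_mem hy)
  simp only
  rw [← this]
  congr 1
  unfold pt
  push_cast
  ring

lemma PS.cont_x {G : ℂ → ℂ} (h : PS G) {y : ℝ} (hy : 0 < y) : Continuous (fun x => G (pt x y)) := by
  rw [← continuousOn_univ]
  exact h.cont.comp (continuous_pt_left y).continuousOn fun x _ => pt_mem hy

lemma PS.deriv_x {G : ℂ → ℂ} (h : PS G) (x : ℝ) {y : ℝ} (hy : 0 < y) :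
    HasDerivAt (fun x => G (pt x y)) (Fou.DD 1 G (pt x y)) x := by
  have h1 : HasDerivAt (fun x : ℝ => pt x y) 1 x := by
    unfold pt
    exact (Complex.ofRealCLM.hasDerivAt (x := x)).add_const _
  exact (h.diffAt (pt_mem hy)).hasFDerivAt.comp_hasDerivAt x h1

lemma PS.deriv_y {G : ℂ → ℂ} (h : PS G) (x : ℝ) {y : ℝ} (hy : 0 < y) :
    HasDerivAt (fun y => G (pt x y)) (Fou.DD Complex.I G (pt x y)) y := by
  have h1 : HasDerivAt (fun y : ℝ => pt x y) (1 * Complex.I) y := by
    unfold pt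
    exact ((Complex.ofRealCLM.hasDerivAt (x := y)).mul_const _).const_add _
  rw [one_mul] at h1
  exact (h.diffAt (pt_mem hy)).hasFDerivAt.comp_hasDerivAt y h1

/-- Fourier coefficients -/
def co (G : ℂ → ℂ) (n : ℤ) (y : ℝ) : ℂ := ∫ x in (0 : ℝ)..1, G (pt x y) * ee (-n) x

/-- differentiation under the integral sign -/
lemma PS.co_deriv {G : ℂ → ℂ} (h : PS G) (n : ℤ) {y : ℝ} (hy : 0 < y) :
    HasDerivAt (co G n) (co (Fou.DD Complex.I G) n y) y := by
  have hD := h.DD Complex.I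
  set s : Set ℝ := Icc (y / 2) (2 * y) with hs
  have hsm : ∀ y' ∈ s, 0 < y' := fun y' hy' => lt_of_lt_of_le (by linarith) hy'.1
  have hK : IsCompact (Icc (0 : ℝ) 1 ×ˢ s) := isCompact_Icc.prod isCompact_Icc
  have hc : ContinuousOn (fun p : ℝ × ℝ => Fou.DD Complex.I G (pt p.1 p.2)) (Icc (0 : ℝ) 1 ×ˢ s) :=
    hD.cont.comp continuous_pt.continuousOn fun p hp => pt_mem (hsm _ hp.2)
  obtain ⟨C, hC⟩ := hK.exists_bound_of_continuousOn hc
  refine (intervalIntegral.hasDerivAt_integral_of_dominated_loc_of_deriv_le (s := s)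
    (F := fun y x => G (pt x y) * ee (-n) x) (F' := fun y x => Fou.DD Complex.I G (pt x y) * ee (-n) x)
    (bound := fun _ => C) (Icc_mem_nhds (by linarith) (by linarith)) ?_ ?_ ?_ ?_ ?_ ?_).2
  · filter_upwards [lt_mem_nhds hy] with y' hy'
    exact ((h.cont_x hy').mul (continuous_ee _)).aestronglyMeasurable
  · exact ((h.cont_x hy).mul (continuous_ee _)).intervalIntegrable _ _
  · exact ((hD.cont_x hy).mul (continuous_ee _)).aestronglyMeasurable
  · refine ae_of_all _ fun x hx y' hy' => ?_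
    rw [norm_mul, norm_ee, mul_one]
    rw [uIoc_of_le zero_le_one] at hx
    exact hC (x, y') ⟨⟨hx.1.le, hx.2⟩, hy'⟩
  · exact intervalIntegrable_const
  · refine ae_of_all _ fun x _ y' hy' => ?_
    exact (h.deriv_y x (hsm _ hy')).mul_const _

/-- integration by parts -/
lemma PS.co_x {G : ℂ → ℂ} (h : PS G) (n : ℤ) {y : ℝ} (hy : 0 < y) :
    co (Fou.DD 1 G) n y = 2 * Real.pi * Complex.I * n * co G n y := by
  have h1 := intervalIntegral.integral_deriv_mul_eq_sub (a := 0) (b := 1)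
    (u := fun x => G (pt x y)) (v := ee (-n)) (u' := fun x => Fou.DD 1 G (pt x y))
    (v' := fun x => 2 * Real.pi * Complex.I * (-n : ℤ) * ee (-n) x)
    (fun x _ => h.deriv_x x hy) (fun x _ => hasDerivAt_ee (-n) x)
    (((h.DD 1).cont_x hy).intervalIntegrable _ _)
    ((continuous_const.mul (continuous_ee _)).intervalIntegrable _ _)
  have e1 : G (pt 1 y) = G (pt 0 y) := by
    have := h.per_pt hy 0
    simpa using this
  rw [ee_one, ee_zero, e1, sub_self, intervalIntegral.integral_add] at h1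
  · have h2 : ∫ x in (0 : ℝ)..1, G (pt x y) * (2 * Real.pi * Complex.I * (-n : ℤ) * ee (-n) x) =
        -(2 * Real.pi * Complex.I * n) * co G n y := by
      unfold co
      rw [← intervalIntegral.integral_const_mul]
      congr 1
      ext x
      push_cast
      ring
    rw [h2] at h1
    unfold co at *
    linear_combination h1
  · exact (((h.DD 1).cont_x hy).mul (continuous_ee _)).intervalIntegrable _ _
  · exact ((h.cont_x hy).mul (continuous_const.mul (continuous_ee _))).intervalIntegrable _ _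

lemma co_bound {G : ℂ → ℂ} {B : ℝ} (hB : ∀ z ∈ HH, ‖G z‖ ≤ B) (n : ℤ) {y : ℝ} (hy : 0 < y) :
    ‖co G n y‖ ≤ B := by
  have := intervalIntegral.norm_integral_le_of_norm_le_const (a := (0 : ℝ)) (b := 1)
    (f := fun x => G (pt x y) * ee (-n) x) (C := B) (fun x _ => by
      rw [norm_mul, norm_ee, mul_one]
      exact hB _ (pt_mem hy))
  simpa [co] using this

lemma co_congr {F G : ℂ → ℂ} (h : ∀ z ∈ HH, F z = G z) (n : ℤ) {y : ℝ} (hy : 0 < y) :
    co F n y = co G n y := by
  unfold co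
  congr 1
  ext x
  rw [h _ (pt_mem hy)]

/-- pointwise Fourier expansion -/
lemma PS.hasSum {G : ℂ → ℂ} (h : PS G) {y : ℝ} (hy : 0 < y) (hs : Summable (fun n : ℤ => co G n y))
    (x : ℝ) : HasSum (fun n : ℤ => co G n y * ee n x) (G (pt x y)) := by
  have : Fact (0 < (1 : ℝ)) := ⟨one_pos⟩
  set g : ℝ → ℂ := fun x => G (pt x y) with hg
  have hper := h.per_pt hy
  have hcont : Continuous g := h.cont_x hy
  let F : C(AddCircle (1 : ℝ), ℂ) := ⟨hper.lift, by
    have : Continuous (hper.lift ∘ ((↑) : ℝ → AddCircle (1 : ℝ))) := hcont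
    exact continuous_coinduced_dom.mpr this⟩
  have hF : ∀ x : ℝ, F (x : AddCircle (1 : ℝ)) = g x := fun x => rfl
  have hco : ∀ n : ℤ, fourierCoeff F n = co G n y := by
    intro n
    rw [fourierCoeff_eq_intervalIntegral _ n 0]
    simp only [div_one, one_smul, zero_add]
    unfold co
    congr 1
    ext x
    rw [hF, fourier_coe_apply, smul_eq_mul, mul_comm, hg]
    simp only [ee]
    congr 2
    push_cast
    ring
  have hsum : Summable (fourierCoeff F) := hs.congr fun n => (hco n).symm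
  have h2 := has_pointwise_sum_fourier_series_of_summable hsum (x : AddCircle (1 : ℝ))
  rw [hF] at h2
  have e : (fun n : ℤ => fourierCoeff F n • (fourier n (x : AddCircle (1 : ℝ)) : ℂ)) =
      fun n : ℤ => co G n y * ee n x := by
    ext n
    rw [hco, fourier_coe_apply, smul_eq_mul]
    simp only [ee]
    congr 2
    push_cast
    ring
  rw [← e]
  exact h2

/-! ### Maass forms -/

/-- an odd Hecke-Maass form for the modular group; `t n` is the eigenvalue of the unnormalised Hecke operator -/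
structure MF (U : ℂ → ℂ) (lam : ℂ) (t : ℕ → ℂ) : Prop where
  smooth : ContDiffOn ℝ ∞ U HH
  inv : ∀ γ : SL(2, ℤ), ∀ z : ℂ, 0 < z.im →
    U (((γ 0 0 : ℂ) * z + (γ 0 1 : ℂ)) / ((γ 1 0 : ℂ) * z + (γ 1 1 : ℂ))) = U z
  odd : ∀ z : ℂ, 0 < z.im → U (-conj z) = - U z
  bdd : ∃ B : ℝ, ∀ z : ℂ, 0 < z.im → ‖U z‖ ≤ B
  lap : ∀ z : ℂ, 0 < z.im → -((z.im : ℂ)) ^ 2 * (deriv (deriv (fun t : ℝ => U (z + (t : ℂ)))) 0 +
      deriv (deriv (fun t : ℝ => U (z + (t : ℂ) * Complex.I))) 0) = lam * U z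
  hecke : ∀ n : ℕ, 0 < n → ∀ z : ℂ, 0 < z.im → ∑ d ∈ n.divisors, ∑ b ∈ Finset.range d,
      U ((((n / d : ℕ) : ℂ) * z + (b : ℂ)) / (d : ℂ)) = t n * U z
  ne : ∃ z : ℂ, 0 < z.im ∧ U z ≠ 0

variable {U : ℂ → ℂ} {lam : ℂ} {t : ℕ → ℂ}

lemma MF.PS (h : MF U lam t) : PS U := by
  refine ⟨h.smooth, fun z hz => ?_⟩
  have := h.inv ModularGroup.T z hz
  simpa [ModularGroup.T] using this

lemma MF.odd_pt (h : MF U lam t) (x : ℝ) {y : ℝ} (hy : 0 < y) : U (pt (-x) y) = - U (pt x y) := by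
  rw [← h.odd (pt x y) (pt_mem hy)]
  congr 1
  unfold pt
  apply Complex.ext <;> simp

lemma MF.co_neg (h : MF U lam t) (n : ℤ) {y : ℝ} (hy : 0 < y) : co U (-n) y = - co U n y := by
  have h1 : co U (-n) y = ∫ x in (-1 : ℝ)..0, U (pt (-x) y) * ee (-(-n)) (-x) := by
    unfold co
    rw [intervalIntegral.integral_comp_neg (f := fun x => U (pt x y) * ee (-(-n)) x)]
    simp
  rw [h1]
  have hp : Function.Periodic (fun x => U (pt x y) * ee (-n) x) 1 := fun x => by
    have h2 := h.PS.per_pt hy x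
    have h3 := ee_per (-n) x
    simp only at h2 ⊢
    rw [h2, h3]
  have h4 := hp.intervalIntegral_add_eq (-1) 0
  rw [neg_add_cancel, zero_add] at h4
  unfold co
  rw [← h4, ← intervalIntegral.integral_neg]
  congr 1
  ext x
  rw [h.odd_pt x hy, ee_neg, neg_neg, neg_mul]

lemma MF.co_zero (h : MF U lam t) {y : ℝ} (hy : 0 < y) : co U 0 y = 0 := by
  have := h.co_neg 0 hy
  rw [neg_zero] at this
  exact self_eq_neg.mp this

/-- the Laplace equation in terms of iterated directional derivatives -/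
lemma MF.lap' (h : MF U lam t) {z : ℂ} (hz : z ∈ HH) :
    -((z.im : ℂ)) ^ 2 * (DD 1 (DD 1 U) z + DD Complex.I (DD Complex.I U) z) = lam * U z := by
  have hP := h.PS
  rw [← h.lap z hz]
  congr 2
  · have e1 : ∀ s : ℝ, deriv (fun t : ℝ => U (z + (t : ℂ))) s = DD 1 U (z + s) := by
      intro s
      have h1 : HasDerivAt (fun t : ℝ => z + (t : ℂ)) 1 s :=
        (Complex.ofRealCLM.hasDerivAt (x := s)).const_add z
      have h2 : z + (s : ℂ) ∈ HH := by
        have : 0 < z.im := hz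
        show 0 < (z + (s : ℂ)).im
        simpa using this
      exact ((hP.diffAt h2).hasFDerivAt.comp_hasDerivAt s h1).deriv
    have e2 : deriv (fun t : ℝ => U (z + (t : ℂ))) = fun s : ℝ => DD 1 U (z + s) := by
      ext s; exact e1 s
    rw [e2]
    have h1 : HasDerivAt (fun t : ℝ => z + (t : ℂ)) 1 0 :=
      (Complex.ofRealCLM.hasDerivAt (x := 0)).const_add z
    have h2 : z + ((0 : ℝ) : ℂ) ∈ HH := by simpa using hz
    have h3 := (((hP.DD 1).diffAt h2).hasFDerivAt.comp_hasDerivAt (0 : ℝ) h1).deriv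
    rw [Complex.ofReal_zero, add_zero] at h3
    exact h3.symm
  · have e1 : deriv (fun t : ℝ => U (z + (t : ℂ) * Complex.I)) =ᶠ[𝓝 0]
        fun s : ℝ => DD Complex.I U (z + s * Complex.I) := by
      have hz' : 0 < z.im := hz
      filter_upwards [lt_mem_nhds (show -z.im < 0 by linarith)] with s hs
      have h1 : HasDerivAt (fun t : ℝ => z + (t : ℂ) * Complex.I) (1 * Complex.I) s :=
        ((Complex.ofRealCLM.hasDerivAt (x := s)).mul_const _).const_add z
      rw [one_mul] at h1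
      have h2 : z + (s : ℂ) * Complex.I ∈ HH := by
        show 0 < (z + (s : ℂ) * Complex.I).im
        simp
        linarith
      exact ((hP.diffAt h2).hasFDerivAt.comp_hasDerivAt s h1).deriv
    rw [e1.deriv_eq]
    have h1 : HasDerivAt (fun t : ℝ => z + (t : ℂ) * Complex.I) (1 * Complex.I) 0 :=
      ((Complex.ofRealCLM.hasDerivAt (x := 0)).mul_const _).const_add z
    rw [one_mul] at h1
    have h2 : z + ((0 : ℝ) : ℂ) * Complex.I ∈ HH := by simpa using hz
    have h3 := (((hP.DD Complex.I).diffAt h2).hasFDerivAt.comp_hasDerivAt (0 : ℝ) h1).deriv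
    rw [Complex.ofReal_zero, zero_mul, add_zero] at h3
    exact h3.symm

/-- the differential equation of the Fourier coefficients -/
lemma MF.ode (h : MF U lam t) {y : ℝ} (hy : 0 < y) : HasDerivAt (co (DD Complex.I U) 1)
    ((4 * (Real.pi : ℂ) ^ 2 - lam / (y : ℂ) ^ 2) * co U 1 y) y := by
  have hP := h.PS
  have h1 := (hP.DD Complex.I).co_deriv 1 hy
  refine h1.congr_deriv ?_
  have hyc : (y : ℂ) ≠ 0 := by exact_mod_cast hy.ne'
  have h2 : co (DD Complex.I (DD Complex.I U)) 1 y =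
      co (fun z => -(lam / ((z.im : ℂ)) ^ 2) * U z - DD 1 (DD 1 U) z) 1 y := by
    refine co_congr (fun z hz => ?_) 1 hy
    have hz' : 0 < z.im := hz
    have hzc : (z.im : ℂ) ≠ 0 := by exact_mod_cast hz'.ne'
    have h3 := h.lap' hz
    field_simp
    linear_combination -h3
  rw [h2]
  have h4 : co (fun z => -(lam / ((z.im : ℂ)) ^ 2) * U z - DD 1 (DD 1 U) z) 1 y =
      -(lam / (y : ℂ) ^ 2) * co U 1 y - co (DD 1 (DD 1 U)) 1 y := by
    unfold co
    rw [← intervalIntegral.integral_const_mul, ← intervalIntegral.integral_sub]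
    · congr 1
      ext x
      simp only [pt_im]
      ring
    · exact (continuous_const.mul ((hP.cont_x hy).mul (continuous_ee _))).intervalIntegrable _ _
    · exact ((((hP.DD 1).DD 1).cont_x hy).mul (continuous_ee _)).intervalIntegrable _ _
  rw [h4, (hP.DD 1).co_x 1 hy, hP.co_x 1 hy]
  have hI : Complex.I ^ 2 = -1 := Complex.I_sq
  push_cast
  linear_combination (-(4 * (Real.pi : ℂ) ^ 2) * co U 1 y) * hI

/-! ### Hecke relations -/

lemma MF.Per (h : MF U lam t) : Pool.Agent.V8H85.OMH.Per U := fun τ hτ => h.PS.per τ hτ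

lemma sum_pt (a b d : ℝ) (hd : 0 < d) (x y : ℝ) :
    ((a : ℂ) * pt x y + (b : ℂ)) / (d : ℂ) = pt ((a * x + b) / d) (a * y / d) := by
  unfold pt
  have : (d : ℂ) ≠ 0 := by exact_mod_cast hd.ne'
  push_cast
  field_simp
  ring

/-- the contribution of the divisors different from `n` -/
lemma MF.part_zero (h : MF U lam t) {a d : ℕ} (ha : 1 < a) (hd : 0 < d) {y : ℝ} (hy : 0 < y) :
    ∫ x in (0 : ℝ)..1, (∑ b ∈ Finset.range d, U (((a : ℂ) * pt x y + (b : ℂ)) / (d : ℂ))) * ee (-1) x = 0 := by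
  set g : ℝ → ℂ := fun x => ∑ b ∈ Finset.range d, U (((a : ℂ) * pt x y + (b : ℂ)) / (d : ℂ)) with hg
  have ha0 : (0 : ℝ) < a := by exact_mod_cast (by omega : 0 < a)
  have haC : (a : ℂ) ≠ 0 := by exact_mod_cast (by omega : a ≠ 0)
  have hgS : ∀ x, g x = Pool.Agent.V8H85.OMH.S U d ((a : ℂ) * pt x y) := fun x => rfl
  have hp : Function.Periodic g (1 / a) := by
    intro x
    rw [hgS, hgS, ← Pool.Agent.V8H85.OMH.S_shift h.Per hd
      (Pool.Agent.V8H85.OMH.im_mul_nat (τ := pt x y) (pt_mem hy) (by omega)) 1]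
    congr 1
    unfold pt
    push_cast
    field_simp
    ring
  have hp1 : Function.Periodic g 1 := by
    have := hp.nat_mul a
    rwa [mul_one_div_cancel ha0.ne'] at this
  have hq : Function.Periodic (fun x => g x * ee (-1) x) 1 := hp1.mul (ee_per (-1))
  have h1 := hq.intervalIntegral_add_eq (1 / a) 0
  rw [zero_add] at h1
  have h2 : ∫ x in (1 / (a : ℝ))..(1 / a + 1), g x * ee (-1) x =
      ∫ x in (0 : ℝ)..1, g (x + 1 / a) * ee (-1) (x + 1 / a) := by
    rw [intervalIntegral.integral_comp_add_right (f := fun x => g x * ee (-1) x), zero_add, add_comm]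
  rw [h2] at h1
  have h3 : ∫ x in (0 : ℝ)..1, g (x + 1 / a) * ee (-1) (x + 1 / a) =
      ee (-1) (1 / a) * ∫ x in (0 : ℝ)..1, g x * ee (-1) x := by
    rw [← intervalIntegral.integral_const_mul]
    congr 1
    ext x
    rw [hp x, ee_add]
    ring
  rw [h3] at h1
  have h4 : ee (-1) (1 / a) ≠ 1 := by
    unfold ee
    rw [Ne, Complex.exp_eq_one_iff]
    rintro ⟨k, hk⟩
    have h5 : (2 * Real.pi * Complex.I : ℂ) ≠ 0 := Complex.two_pi_I_ne_zero
    have h6 : (k : ℂ) * a = -1 := by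
      have h7 : (2 * Real.pi * Complex.I : ℂ) * (k * a) = (2 * Real.pi * Complex.I) * (-1) := by
        push_cast at hk
        field_simp at hk
        linear_combination (2 * Real.pi * Complex.I) * (-hk)
      exact mul_left_cancel₀ h5 h7
    have h8 : k * (a : ℤ) = -1 := by exact_mod_cast h6
    have h9 : (a : ℤ) ∣ 1 := ⟨-k, by linarith⟩
    have h10 := Int.le_of_dvd one_pos h9
    omega
  have h5 : (ee (-1) (1 / a) - 1) * ∫ x in (0 : ℝ)..1, g x * ee (-1) x = 0 := by
    linear_combination h1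
  rcases mul_eq_zero.mp h5 with h6 | h6
  · exact absurd (sub_eq_zero.mp h6) h4
  · exact h6

/-- the contribution of the divisor `n` -/
lemma MF.part_n (h : MF U lam t) {n : ℕ} (hn : 0 < n) {y : ℝ} (hy : 0 < y) :
    ∫ x in (0 : ℝ)..1, (∑ b ∈ Finset.range n, U (((1 : ℕ) * pt x y + (b : ℂ)) / (n : ℂ))) * ee (-1) x =
      n * co U n (y / n) := by
  have hn0 : (0 : ℝ) < n := by exact_mod_cast hn
  have hyn : 0 < y / n := by positivity
  set g : ℝ → ℂ := fun x => U (pt (x / n) (y / n)) * ee (-1) x with hg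
  have hgc : Continuous g := ((h.PS.cont_x hyn).comp (continuous_id.div_const _)).mul (continuous_ee _)
  have e1 : ∀ x, (∑ b ∈ Finset.range n, U (((1 : ℕ) * pt x y + (b : ℂ)) / (n : ℂ))) * ee (-1) x =
      ∑ b ∈ Finset.range n, g (x + b) := by
    intro x
    rw [Finset.sum_mul]
    refine Finset.sum_congr rfl fun b _ => ?_
    have h1 := sum_pt 1 b n hn0 x y
    simp only [one_mul, Complex.ofReal_one, Complex.ofReal_natCast] at h1
    rw [hg]
    simp only [Nat.cast_one, one_mul]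
    rw [h1]
    congr 1
    rw [ee_add]
    have := ee_int (-1) b
    rw [Int.cast_natCast] at this
    rw [this, mul_one]
  simp only [e1]
  have e0 : ∀ b ∈ Finset.range n, IntervalIntegrable (fun x : ℝ => g (x + b)) volume 0 1 := fun b _ =>
    (hgc.comp (continuous_id.add continuous_const)).intervalIntegrable _ _
  rw [intervalIntegral.integral_finsetSum e0]
  have e2 : ∀ b : ℕ, ∫ x in (0 : ℝ)..1, g (x + b) = ∫ x in (b : ℝ)..((b + 1 : ℕ) : ℝ), g x := by
    intro b
    rw [intervalIntegral.integral_comp_add_right (f := g), zero_add]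
    push_cast
    rw [add_comm]
  simp only [e2]
  rw [intervalIntegral.sum_integral_adjacent_intervals (a := fun k : ℕ => (k : ℝ))
    fun k _ => hgc.intervalIntegrable _ _]
  have e3 : ∀ x, g x = (fun u => U (pt u (y / n)) * ee (-(n : ℤ)) u) (x / n) := by
    intro x
    rw [hg]
    simp only
    congr 1
    unfold ee
    congr 1
    have : (n : ℂ) ≠ 0 := by exact_mod_cast hn.ne'
    push_cast
    field_simp
  simp only [e3]
  rw [intervalIntegral.integral_comp_div (f := fun u => U (pt u (y / n)) * ee (-(n : ℤ)) u) hn0.ne']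
  unfold co
  rw [Nat.cast_zero, zero_div, div_self hn0.ne', Complex.real_smul]
  push_cast
  rfl

theorem MF.hecke_co (h : MF U lam t) {n : ℕ} (hn : 0 < n) {y : ℝ} (hy : 0 < y) :
    (n : ℂ) * co U n y = t n * co U 1 (n * y) := by
  have hn0 : (0 : ℝ) < n := by exact_mod_cast hn
  have hny : 0 < n * y := by positivity
  have hcont : ∀ d ∈ n.divisors, Continuous (fun x : ℝ =>
      (∑ b ∈ Finset.range d, U ((((n / d : ℕ) : ℂ) * pt x (n * y) + (b : ℂ)) / (d : ℂ))) * ee (-1) x) := by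
    intro d hd
    have hd0 : 0 < d := Nat.pos_of_mem_divisors hd
    have hd1 : (0 : ℝ) < d := by exact_mod_cast hd0
    have ha0 : 0 < n / d := Nat.div_pos (Nat.le_of_dvd hn (Nat.dvd_of_mem_divisors hd)) hd0
    have ha1 : (0 : ℝ) < (n / d : ℕ) := by exact_mod_cast ha0
    refine Continuous.mul (continuous_finsetSum _ fun b _ => ?_) (continuous_ee _)
    have e1 : ∀ x : ℝ, U ((((n / d : ℕ) : ℂ) * pt x (n * y) + (b : ℂ)) / (d : ℂ)) =
        (fun u => U (pt u (((n / d : ℕ) : ℝ) * (n * y) / d))) ((((n / d : ℕ) : ℝ) * x + b) / d) := by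
      intro x
      have := sum_pt (n / d : ℕ) b d hd1 x (n * y)
      simp only [Complex.ofReal_natCast] at this
      simp only
      rw [this]
    simp only [e1]
    refine (h.PS.cont_x (y := ((n / d : ℕ) : ℝ) * (n * y) / d) (by positivity)).comp ?_
    fun_prop
  have h1 : ∫ x in (0 : ℝ)..1, (∑ d ∈ n.divisors, ∑ b ∈ Finset.range d,
      U ((((n / d : ℕ) : ℂ) * pt x (n * y) + (b : ℂ)) / (d : ℂ))) * ee (-1) x = t n * co U 1 (n * y) := by
    unfold co
    rw [← intervalIntegral.integral_const_mul]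
    congr 1
    ext x
    rw [h.hecke n hn _ (pt_mem hny)]
    ring
  rw [← h1]
  simp only [Finset.sum_mul (s := n.divisors)]
  rw [intervalIntegral.integral_finsetSum fun d hd => (hcont d hd).intervalIntegrable _ _]
  rw [Finset.sum_eq_single n]
  · have h2 := h.part_n hn hny
    rw [Nat.div_self hn, h2, mul_div_cancel_left₀ _ hn0.ne']
  · intro d hd hdn
    have hd0 : 0 < d := Nat.pos_of_mem_divisors hd
    have hdvd := Nat.dvd_of_mem_divisors hd
    have ha0 : 0 < n / d := Nat.div_pos (Nat.le_of_dvd hn hdvd) hd0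
    refine h.part_zero ?_ hd0 hny
    by_contra hle
    have h3 : n / d = 1 := by omega
    have h4 := Nat.div_mul_cancel hdvd
    rw [h3, one_mul] at h4
    exact hdn h4
  · intro hnn
    exact absurd (Nat.mem_divisors_self n hn.ne') hnn

/-! ### Consequences -/

lemma MF.bound (h : MF U lam t) : ∃ B : ℝ, 0 ≤ B ∧ ∀ (n : ℤ) (y : ℝ), 0 < y → ‖co U n y‖ ≤ B := by
  obtain ⟨B, hB⟩ := h.bdd
  refine ⟨|B|, abs_nonneg _, fun n y hy => (co_bound (fun z hz => hB z hz) n hy).trans (le_abs_self _)⟩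

lemma MF.co_nat (h : MF U lam t) {n : ℕ} (hn : 0 < n) {y : ℝ} (hy : 0 < y) :
    co U n y = t n / n * co U 1 (n * y) := by
  have h1 := h.hecke_co hn hy
  have hn0 : (n : ℂ) ≠ 0 := by exact_mod_cast hn.ne'
  field_simp
  linear_combination h1

lemma MF.co_ne (h : MF U lam t) : ∃ y : ℝ, 0 < y ∧ co U 1 y ≠ 0 := by
  by_contra hcon
  push Not at hcon
  obtain ⟨z, hz, hne⟩ := h.ne
  have h0 : ∀ n : ℤ, co U n z.im = 0 := by
    intro n
    rcases lt_trichotomy n 0 with hn | hn | hn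
    · obtain ⟨k, hk⟩ := Int.eq_ofNat_of_zero_le (show 0 ≤ -n by omega)
      have hk0 : 0 < k := by omega
      have h1 := h.co_neg n hz
      rw [hk, h.co_nat hk0 hz, hcon _ (by positivity), mul_zero] at h1
      exact neg_eq_zero.mp h1.symm
    · rw [hn]; exact h.co_zero hz
    · obtain ⟨k, hk⟩ := Int.eq_ofNat_of_zero_le hn.le
      have hk0 : 0 < k := by omega
      rw [hk, h.co_nat hk0 hz, hcon _ (by positivity), mul_zero]
  have h1 := h.PS.hasSum hz (by simp only [h0]; exact summable_zero) z.re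
  simp only [h0, zero_mul] at h1
  rw [pt_eq] at h1
  exact hne (h1.unique hasSum_zero)

lemma MF.t_bound (h : MF U lam t) : ∃ C : ℝ, 0 ≤ C ∧ ∀ n : ℕ, 0 < n → ‖t n‖ ≤ C * n := by
  obtain ⟨B, hB0, hB⟩ := h.bound
  obtain ⟨y, hy, hne⟩ := h.co_ne
  have hpos : 0 < ‖co U 1 y‖ := norm_pos_iff.mpr hne
  refine ⟨B / ‖co U 1 y‖, by positivity, fun n hn => ?_⟩
  have hn0 : (0 : ℝ) < n := by exact_mod_cast hn
  have h1 := h.hecke_co hn (show 0 < y / n by positivity)
  rw [mul_div_cancel₀ _ hn0.ne'] at h1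
  have h2 := congrArg norm h1
  rw [norm_mul, norm_mul, Complex.norm_natCast] at h2
  have h3 := hB n (y / n) (by positivity)
  rw [div_mul_eq_mul_div, le_div_iff₀ hpos, ← h2, mul_comm]
  exact mul_le_mul_of_nonneg_right h3 hn0.le

lemma MF.decay (h : MF U lam t) : ∃ C : ℝ, ∀ y : ℝ, 1 ≤ y → ‖co U 1 y‖ ≤ C * Real.exp (-Real.pi * y) := by
  obtain ⟨B, -, hB⟩ := h.bound
  exact Pool.Agent.V8H85.OMM.decay (fun y hy => h.PS.co_deriv 1 hy) (fun y hy => h.ode hy)
    (fun y hy => hB 1 y hy)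

lemma MF.recip (h : MF U lam t) : ∃ R : ℂ → ℂ, Differentiable ℂ R ∧
    ∀ w : ℂ, 0 < w.re → R w * Pool.Agent.V8H85.OMM.Mel (co U 1) w = 1 := by
  obtain ⟨B, -, hB⟩ := h.bound
  exact Pool.Agent.V8H85.OMM.main (fun y hy => h.PS.co_deriv 1 hy) (fun y hy => h.ode hy)
    (fun y hy => hB 1 y hy) h.co_ne

lemma summable_exp {c : ℝ} (hc : 0 < c) (k : ℕ) : Summable (fun n : ℕ => (n : ℝ) ^ k * Real.exp (-(c * n))) := by
  have h1 := Real.summable_pow_mul_exp_neg_nat_mul k hc
  refine h1.congr fun n => ?_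
  rw [neg_mul]

/-- the terms of the Fourier series are summable, also with a power of `n` -/
lemma MF.summable_nat (h : MF U lam t) {y : ℝ} (hy : 0 < y) (k : ℕ) :
    Summable (fun n : ℕ => (n : ℝ) ^ k * ‖co U n y‖) := by
  obtain ⟨C, hC⟩ := h.decay
  obtain ⟨D, hD0, hD⟩ := h.t_bound
  obtain ⟨N, hN⟩ := exists_nat_gt (1 / y)
  have h1 := ((summable_exp (show 0 < Real.pi * y by positivity) k).mul_left (D * |C|))
  refine Summable.of_norm_bounded_eventually_nat h1 ?_
  filter_upwards [Filter.eventually_ge_atTop (max N 1)] with n hn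
  have hn1 : 0 < n := by
    have := le_trans (le_max_right N 1) hn
    omega
  have hn0 : (0 : ℝ) < n := by exact_mod_cast hn1
  have hnN : (N : ℝ) ≤ n := by exact_mod_cast le_trans (le_max_left N 1) hn
  have hny : 1 ≤ n * y := by
    have : 1 / y < n := lt_of_lt_of_le hN hnN
    rw [div_lt_iff₀ hy] at this
    exact this.le
  rw [Real.norm_of_nonneg (by positivity), h.co_nat hn1 hy, norm_mul, norm_div, Complex.norm_natCast]
  have h2 : ‖t n‖ / n ≤ D := by
    rw [div_le_iff₀ hn0]; exact hD n hn1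
  have h3 : ‖co U 1 (n * y)‖ ≤ |C| * Real.exp (-(Real.pi * y * n)) := by
    refine (hC _ hny).trans ?_
    rw [show -Real.pi * (n * y) = -(Real.pi * y * n) by ring]
    exact mul_le_mul_of_nonneg_right (le_abs_self _) (Real.exp_pos _).le
  have h4 : ‖t n‖ / n * ‖co U 1 (n * y)‖ ≤ D * (|C| * Real.exp (-(Real.pi * y * n))) :=
    mul_le_mul h2 h3 (norm_nonneg _) hD0
  calc (n : ℝ) ^ k * (‖t n‖ / n * ‖co U 1 (n * y)‖) ≤ (n : ℝ) ^ k * (D * (|C| * Real.exp (-(Real.pi * y * n)))) :=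
        mul_le_mul_of_nonneg_left h4 (by positivity)
    _ = _ := by ring

lemma MF.summable_int (h : MF U lam t) {y : ℝ} (hy : 0 < y) : Summable (fun n : ℤ => co U n y) := by
  have h1 : Summable (fun n : ℕ => co U n y) := by
    have h2 := h.summable_nat hy 0
    simp only [pow_zero, one_mul] at h2
    exact h2.of_norm
  have h3 : Summable (fun n : ℕ => co U (-(n : ℤ)) y) := by
    refine h1.neg.congr fun n => ?_
    rw [h.co_neg _ hy]
  exact Summable.of_nat_of_neg h1 h3

lemma MF.summable_int' (h : MF U lam t) {y : ℝ} (hy : 0 < y) : Summable (fun n : ℤ => co (DD 1 U) n y) := by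
  have e : ∀ n : ℤ, co (DD 1 U) n y = 2 * Real.pi * Complex.I * n * co U n y := fun n => h.PS.co_x n hy
  have h1 : Summable (fun n : ℕ => co (DD 1 U) n y) := by
    have h2 := (h.summable_nat hy 1).mul_left (2 * Real.pi)
    refine Summable.of_norm_bounded h2 fun n => ?_
    rw [e, norm_mul, norm_mul, norm_mul, norm_mul]
    simp only [Complex.norm_ofNat, Complex.norm_real, Complex.norm_I, mul_one, Int.cast_natCast,
      Complex.norm_natCast, pow_one, Real.norm_of_nonneg Real.pi_pos.le]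
    exact le_of_eq (by ring)
  have h3 : Summable (fun n : ℕ => co (DD 1 U) (-(n : ℤ)) y) := by
    refine h1.congr fun n => ?_
    rw [e, e, h.co_neg _ hy]
    push_cast
    ring
  exact Summable.of_nat_of_neg h1 h3

lemma ee_sub (n : ℕ) (x : ℝ) : ee n x - ee (-(n : ℤ)) x = 2 * Complex.I * (Real.sin (2 * Real.pi * n * x) : ℂ) := by
  unfold ee
  rw [Complex.ofReal_sin, Complex.sin]
  push_cast
  have e1 : (2 * Real.pi * Complex.I * n * x : ℂ) = 2 * Real.pi * n * x * Complex.I := by ring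
  have e2 : (2 * Real.pi * Complex.I * -n * x : ℂ) = -(2 * Real.pi * n * x) * Complex.I := by ring
  rw [e1, e2]
  have hI : Complex.I ^ 2 = -1 := Complex.I_sq
  linear_combination (Complex.exp (2 * Real.pi * n * x * Complex.I) -
    Complex.exp (-(2 * Real.pi * n * x) * Complex.I)) * hI

lemma ee_add' (n : ℕ) (x : ℝ) : ee n x + ee (-(n : ℤ)) x = 2 * (Real.cos (2 * Real.pi * n * x) : ℂ) := by
  unfold ee
  rw [Complex.ofReal_cos, Complex.cos]
  push_cast
  have e1 : (2 * Real.pi * Complex.I * n * x : ℂ) = 2 * Real.pi * n * x * Complex.I := by ring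
  have e2 : (2 * Real.pi * Complex.I * -n * x : ℂ) = -(2 * Real.pi * n * x) * Complex.I := by ring
  rw [e1, e2]
  ring

/-- normalised Hecke eigenvalues -/
def cc (t : ℕ → ℂ) (n : ℕ) : ℂ := t n / (Real.sqrt n : ℂ)

lemma MF.co_cc (h : MF U lam t) (n : ℕ) {y : ℝ} (hy : 0 < y) :
    co U n y = cc t n / (Real.sqrt n : ℂ) * co U 1 (n * y) := by
  rcases Nat.eq_zero_or_pos n with hn | hn
  · subst hn
    rw [Nat.cast_zero, h.co_zero hy]
    simp [cc]
  · rw [h.co_nat hn hy, cc, div_div, ← Complex.ofReal_mul, Real.mul_self_sqrt (Nat.cast_nonneg n),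
      Complex.ofReal_natCast]

theorem MF.fourier (h : MF U lam t) (x : ℝ) {y : ℝ} (hy : 0 < y) :
    HasSum (fun n : ℕ => cc t n / (Real.sqrt n : ℂ) * co U 1 (n * y) *
      (2 * Complex.I * (Real.sin (2 * Real.pi * n * x) : ℂ))) (U (pt x y)) := by
  have h1 := (h.PS.hasSum hy (h.summable_int hy) x).nat_add_neg
  rw [h.co_zero hy, zero_mul, add_zero] at h1
  have e : (fun n : ℕ => co U n y * ee n x + co U (-(n : ℤ)) y * ee (-(n : ℤ)) x) =
      fun n : ℕ => cc t n / (Real.sqrt n : ℂ) * co U 1 (n * y) *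
      (2 * Complex.I * (Real.sin (2 * Real.pi * n * x) : ℂ)) := by
    ext n
    rw [h.co_neg _ hy, ← ee_sub, ← h.co_cc n hy]
    ring
  rw [← e]
  exact h1

theorem MF.fourier' (h : MF U lam t) (x : ℝ) {y : ℝ} (hy : 0 < y) :
    HasSum (fun n : ℕ => cc t n / (Real.sqrt n : ℂ) * co U 1 (n * y) *
      (4 * Real.pi * n * Complex.I * (Real.cos (2 * Real.pi * n * x) : ℂ))) (DD 1 U (pt x y)) := by
  have h1 := ((h.PS.DD 1).hasSum hy (h.summable_int' hy) x).nat_add_neg
  have h0 : co (DD 1 U) 0 y = 0 := by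
    rw [h.PS.co_x 0 hy]
    simp
  rw [h0, zero_mul, add_zero] at h1
  have e : (fun n : ℕ => co (DD 1 U) n y * ee n x + co (DD 1 U) (-(n : ℤ)) y * ee (-(n : ℤ)) x) =
      fun n : ℕ => cc t n / (Real.sqrt n : ℂ) * co U 1 (n * y) *
      (4 * Real.pi * n * Complex.I * (Real.cos (2 * Real.pi * n * x) : ℂ)) := by
    ext n
    rw [h.PS.co_x _ hy, h.PS.co_x _ hy, h.co_neg _ hy, ← h.co_cc n hy]
    have h2 := ee_add' n x
    push_cast at h2 ⊢
    linear_combination (2 * Real.pi * Complex.I * n * co U n y) * h2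
  rw [← e]
  exact h1

lemma MF.cc_bound (h : MF U lam t) : ∃ C : ℝ, ∀ n : ℕ, ‖cc t n‖ ≤ C * Real.sqrt n := by
  obtain ⟨C, hC0, hC⟩ := h.t_bound
  refine ⟨C, fun n => ?_⟩
  rcases Nat.eq_zero_or_pos n with hn | hn
  · subst hn
    simp [cc]
  · have hn0 : (0 : ℝ) < n := by exact_mod_cast hn
    have hs : 0 < Real.sqrt n := Real.sqrt_pos.mpr hn0
    rw [cc, norm_div, Complex.norm_real, Real.norm_of_nonneg hs.le, div_le_iff₀ hs, mul_assoc,
      Real.mul_self_sqrt hn0.le]
    exact hC n hn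

lemma MF.co_cont (h : MF U lam t) : ContinuousOn (co U 1) (Ioi 0) := fun _ hy =>
  (h.PS.co_deriv 1 hy).continuousAt.continuousWithinAt

end

end Pool.Agent.V8H27.OM.Fou
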