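import Pool.Agent.V8H27.OM.Hec
import Pool.Agent.V8H27.OM.Fou

/-!
# Assembly: the odd Maass form
-/

set_option autoImplicit false

open UpperHalfPlane MeasureTheory
open ModularGroup hiding T S
open Matrix hiding J
open scoped MatrixGroups ENNReal Modular Topology ComplexConjugate ContDiff

namespace Pool.Agent.V8H27.OM

open Pool.Agent.V8H85.OMH (T)

noncomputable section

/-- eigenvalues of symmetric operators are real -/
lemma real_eig {φ : ℝ → ℝ} (hφ : ProfS φ) {f : ℍ → ℂ} (hf : OI f) (h0 : f ≠ 0) {m : ℂ}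
    (hm : opA φ f = m • f) : conj m = m := by
  by_cases hm0 : m = 0
  · rw [hm0, map_zero]
  obtain ⟨C, hC0, hC, A, hA, hAc, hAs⟩ := exists_op hφ
  set F : Lp ℂ 2 nu := hf.memLp.toLp f with hF
  have hFA : A F = (4 * m) • F := by
    refine Lp.ext ?_
    refine (opA_eq_of_op hφ.prof hA hf).trans ?_
    refine Filter.EventuallyEq.trans ?_ (Lp.coeFn_smul _ _).symm
    filter_upwards [hf.memLp.coeFn_toLp] with z hz
    rw [Pi.smul_apply, hz, hm, Pi.smul_apply, smul_eq_mul, smul_eq_mul]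
    ring
  have hF0 : F ≠ 0 := by
    intro h1
    have h2 : f =ᵐ[nu] 0 := by
      have h := hf.memLp.coeFn_toLp
      rw [← hF, h1] at h
      exact h.symm.trans (Lp.coeFn_zero ℂ 2 nu)
    apply h0
    ext z
    have h3 := int_Kk hφ.prof hf z
    rw [hm] at h3
    have h4 : ∫ w in 𝒟ᵒ, (Kk φ z w : ℂ) * f w = 0 := by
      have : (fun w => (Kk φ z w : ℂ) * f w) =ᵐ[nu] 0 := by
        filter_upwards [h2] with w hw
        rw [hw]; simp
      rw [← nu, integral_congr_ae this]
      simp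
    rw [h4, Pi.smul_apply, smul_eq_mul] at h3
    rcases mul_eq_zero.mp h3.symm with h5 | h5
    · norm_num at h5
    · rcases mul_eq_zero.mp h5 with h6 | h6
      · exact absurd h6 hm0
      · exact h6
  have hev : Module.End.HasEigenvalue (A : Lp ℂ 2 nu →ₗ[ℂ] Lp ℂ 2 nu) (4 * m) := by
    refine Module.End.hasEigenvalue_of_hasEigenvector (x := F) ⟨?_, hF0⟩
    rw [Module.End.mem_eigenspace_iff]
    exact hFA
  have h1 := LinearMap.IsSymmetric.conj_eigenvalue_eq_self hAs hev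
  rw [map_mul, map_ofNat] at h1
  exact mul_left_cancel₀ (by norm_num) h1

/-- a function on the upper half plane as a function of a complex number -/
def ext (f : ℍ → ℂ) (z : ℂ) : ℂ := f (ofComplex z)

lemma ext_coe (f : ℍ → ℂ) (z : ℍ) : ext f z = f z := by
  rw [ext, ofComplex_apply]

lemma ext_mk (f : ℍ → ℂ) {z : ℂ} (hz : 0 < z.im) : ext f z = f ⟨z, hz⟩ := by
  rw [ext, ofComplex_apply_of_im_pos hz]

lemma ext_eq_S {f : ℍ → ℂ} {φ : ℝ → ℝ} {m : ℂ} (hm : m ≠ 0) (h : opA φ f = m • f) {z : ℂ}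
    (hz : 0 < z.im) : ext f z = m⁻¹ * S φ f z := by
  rw [ext_mk f hz]
  have h1 := S_coe φ f ⟨z, hz⟩
  rw [h, Pi.smul_apply, smul_eq_mul] at h1
  have h2 : S φ f z = m * f ⟨z, hz⟩ := h1
  rw [h2, ← mul_assoc, inv_mul_cancel₀ hm, one_mul]

theorem exists_MF : ∃ (U : ℂ → ℂ) (lam : ℝ) (t : ℕ → ℂ), Fou.MF U lam t := by
  obtain ⟨f, m, k, t, hf, hf0, hm, hfm, hfk, ht⟩ := exists_form
  have hmr := real_eig ph_profS hf hf0 hfm
  have hkr := real_eig (lap_profS ph_profS) hf hf0 hfk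
  have hreal : conj (-(k / m)) = -(k / m) := by
    rw [map_neg, map_div₀, hmr, hkr]
  obtain ⟨lam, hlam⟩ := Complex.conj_eq_iff_real.mp hreal
  refine ⟨ext f, lam, t, ?_⟩
  have hS : ∀ z : ℂ, 0 < z.im → ext f z = m⁻¹ * S ph f z := fun z hz => ext_eq_S hm hfm hz
  refine ⟨?_, ?_, ?_, ?_, ?_, ?_, ?_⟩
  · have h1 : ContDiffOn ℝ ∞ (fun z => m⁻¹ * S ph f z) {z : ℂ | 0 < z.im} := by
      refine contDiffOn_const.mul ?_
      rw [contDiffOn_infty]
      exact fun n => contDiffOn_S n ph_profS hf.1.lb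
    exact h1.congr fun z hz => hS z hz
  · intro γ z hz
    have h1 := hf.2.1 γ ⟨z, hz⟩
    rw [ext_mk f hz, ← h1, ← ext_coe f (γ • ⟨z, hz⟩), sl_coe]
  · intro z hz
    have h0 : 0 < (-conj z).im := by simpa using hz
    exact odd_ofC hf.2.2 hz
  · obtain ⟨B, hB⟩ := hf.1.2
    exact ⟨B, fun z _ => hB _⟩
  · intro z hz
    have h1 : deriv (deriv (fun t : ℝ => ext f (z + (t : ℂ)))) 0 =
        m⁻¹ * deriv (deriv (fun t : ℝ => S ph f (z + (t : ℂ)))) 0 := by
      have e1 : (fun t : ℝ => ext f (z + (t : ℂ))) = fun t : ℝ => m⁻¹ * S ph f (z + (t : ℂ)) := by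
        ext t
        exact hS _ (by simpa using hz)
      rw [e1]
      simp only [deriv_const_mul_field']
    have h2 : deriv (deriv (fun t : ℝ => ext f (z + (t : ℂ) * Complex.I))) 0 =
        m⁻¹ * deriv (deriv (fun t : ℝ => S ph f (z + (t : ℂ) * Complex.I))) 0 := by
      have e1 : (fun t : ℝ => ext f (z + (t : ℂ) * Complex.I)) =ᶠ[𝓝 0]
          fun t : ℝ => m⁻¹ * S ph f (z + (t : ℂ) * Complex.I) := by
        filter_upwards [lt_mem_nhds (show -z.im < 0 by linarith)] with t ht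
        refine hS _ ?_
        simp
        linarith
      rw [e1.deriv.deriv_eq]
      simp only [deriv_const_mul_field']
    rw [h1, h2]
    have h3 := laplace_S ph_profS hf.1.lb hz
    have h4 : S (lap ph) f z = k * ext f z := by
      have h5 := S_coe (lap ph) f ⟨z, hz⟩
      rw [hfk, Pi.smul_apply, smul_eq_mul] at h5
      rw [ext_mk f hz]
      exact h5
    rw [h4] at h3
    have h6 : (lam : ℂ) = -(k / m) := hlam.symm
    rw [h6]
    field_simp
    linear_combination -h3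
  · intro n hn z hz
    have h1 := ht n hn ⟨z, hz⟩
    rw [ext_mk f hz, ← h1]
    rfl
  · by_contra hcon
    push Not at hcon
    apply hf0
    ext z
    have := hcon z z.im_pos
    rw [ext_coe] at this
    exact this

end

end Pool.Agent.V8H27.OM
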