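import Pool.Agent.H369R2.S3a

/-!
# The invariant `rho = cosh (hyperbolic distance)` on the upper half plane
-/

set_option autoImplicit false

open UpperHalfPlane MeasureTheory ModularGroup
open Matrix hiding J
open scoped MatrixGroups ENNReal Modular Topology ComplexConjugate

namespace Pool.Agent.V8H27.OM

noncomputable section

/-- the hyperbolic cosine of the hyperbolic distance of `z` and `w` -/
def rho (z w : ℍ) : ℝ := 1 + ((z.re - w.re) ^ 2 + (z.im - w.im) ^ 2) / (2 * z.im * w.im)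

lemma sq_dist (z w : ℍ) : dist (z : ℂ) (w : ℂ) ^ 2 = (z.re - w.re) ^ 2 + (z.im - w.im) ^ 2 := by
  rw [dist_eq_norm, Complex.sq_norm, Complex.normSq_apply]
  simp
  ring

lemma rho_eq (z w : ℍ) : rho z w = Real.cosh (dist z w) := by
  rw [UpperHalfPlane.cosh_dist, sq_dist, rho]

lemma rho_symm (z w : ℍ) : rho z w = rho w z := by
  rw [rho_eq, rho_eq, dist_comm]

lemma one_le_rho (z w : ℍ) : 1 ≤ rho z w := by
  rw [rho_eq]; exact Real.one_le_cosh _

lemma rho_self (z : ℍ) : rho z z = 1 := by simp [rho]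

lemma continuous_rho : Continuous (fun p : ℍ × ℍ => rho p.1 p.2) := by
  have : (fun p : ℍ × ℍ => rho p.1 p.2) = fun p : ℍ × ℍ => Real.cosh (dist p.1 p.2) := by
    ext p; exact rho_eq _ _
  rw [this]
  exact Real.continuous_cosh.comp continuous_dist

lemma continuous_rho_right (z : ℍ) : Continuous (rho z) :=
  continuous_rho.comp (Continuous.prodMk_right z)

lemma sq_norm_sub_smul (g : GL (Fin 2) ℝ) (z w : ℍ) :
    Complex.normSq (((g • z : ℍ) : ℂ) - ((g • w : ℍ) : ℂ)) =
      g.det.val ^ 2 * Complex.normSq ((z : ℂ) - (w : ℂ)) /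
        (Complex.normSq (denom g z) * Complex.normSq (denom g w)) := by
  rw [coe_smul, coe_smul, ← map_sub, Complex.normSq_eq_norm_sq, norm_σ, ← Complex.normSq_eq_norm_sq]
  have h1 : denom g z ≠ 0 := denom_ne_zero g z
  have h2 : denom g w ≠ 0 := denom_ne_zero g w
  have h3 : num g z / denom g z - num g w / denom g w =
      ((g.det.val : ℝ) : ℂ) * ((z : ℂ) - (w : ℂ)) / (denom g z * denom g w) := by
    rw [div_sub_div _ _ h1 h2]
    congr 1
    simp only [num, denom, GeneralLinearGroup.val_det_apply, g.1.det_fin_two]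
    push_cast
    ring
  rw [h3, map_div₀, map_mul, map_mul, Complex.normSq_ofReal]
  ring

lemma rho_smul (g : GL (Fin 2) ℝ) (z w : ℍ) : rho (g • z) (g • w) = rho z w := by
  have key : ∀ a b : ℍ, rho a b = 1 + Complex.normSq ((a : ℂ) - (b : ℂ)) / (2 * a.im * b.im) := by
    intro a b
    rw [rho, Complex.normSq_apply]
    simp
    ring_nf
  rw [key, key, sq_norm_sub_smul, UpperHalfPlane.im_smul_eq_div_normSq,
    UpperHalfPlane.im_smul_eq_div_normSq]
  have h1 : Complex.normSq (denom g z) ≠ 0 := normSq_denom_ne_zero g z.im_ne_zero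
  have h2 : Complex.normSq (denom g w) ≠ 0 := normSq_denom_ne_zero g w.im_ne_zero
  have h3 : g.det.val ≠ 0 := g.det.ne_zero
  have h4 := z.im_ne_zero
  have h5 := w.im_ne_zero
  have h6 : |g.det.val| ≠ 0 := abs_ne_zero.mpr h3
  congr 1
  rw [← sq_abs g.det.val]
  field_simp

lemma dist_gl_smul (g : GL (Fin 2) ℝ) (z w : ℍ) : dist (g • z) (g • w) = dist z w := by
  have h := rho_smul g z w
  rw [rho_eq, rho_eq] at h
  exact Real.cosh_injOn (Set.mem_Ici.mpr dist_nonneg) (Set.mem_Ici.mpr dist_nonneg) h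

lemma isometry_gl (g : GL (Fin 2) ℝ) : Isometry (fun z : ℍ => g • z) :=
  Isometry.of_dist_eq (dist_gl_smul g)

lemma continuous_gl (g : GL (Fin 2) ℝ) : Continuous (fun z : ℍ => g • z) := (isometry_gl g).continuous

lemma mp_gl (g : GL (Fin 2) ℝ) : MeasurePreserving (fun z : ℍ => g • z) volume volume :=
  measurePreserving_smul g (volume : Measure ℍ)

lemma me_gl (g : GL (Fin 2) ℝ) : MeasurableEmbedding (fun z : ℍ => g • z) :=
  (isometry_gl g).isClosedEmbedding.measurableEmbedding

/-- integrals are invariant -/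
lemma integral_gl {E : Type*} [NormedAddCommGroup E] [NormedSpace ℝ E] (g : GL (Fin 2) ℝ)
    (F : ℍ → E) : ∫ w, F (g • w) = ∫ w, F w :=
  (mp_gl g).integral_comp (me_gl g) F

/-- an isometry swapping two points -/
lemma exists_swap (z w : ℍ) : ∃ g : GL (Fin 2) ℝ, g • z = w ∧ g • w = z := by
  set a : ℝ := z.re * w.im + z.im * w.re with ha
  set c : ℝ := z.im + w.im with hc
  set b : ℝ := c * (z.re * w.re - z.im * w.im) - a * (z.re + w.re) with hb
  have hz := z.im_pos
  have hw := w.im_pos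
  have hdet : (!![a, b; c, -a] : Matrix (Fin 2) (Fin 2) ℝ).det =
      z.im * w.im * ((z.re - w.re) ^ 2 + (z.im + w.im) ^ 2) := by
    rw [Matrix.det_fin_two_of, hb, ha, hc]; ring
  have hpos : 0 < z.im * w.im * ((z.re - w.re) ^ 2 + (z.im + w.im) ^ 2) := by positivity
  have hne : (!![a, b; c, -a] : Matrix (Fin 2) (Fin 2) ℝ).det ≠ 0 := by rw [hdet]; exact hpos.ne'
  set g : GL (Fin 2) ℝ := GeneralLinearGroup.mkOfDetNeZero !![a, b; c, -a] hne with hg
  have hgd : 0 < g.det.val := by
    have : g.det.val = (!![a, b; c, -a] : Matrix (Fin 2) (Fin 2) ℝ).det := rfl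
    rw [this, hdet]; exact hpos
  have h00 : g 0 0 = a := rfl
  have h01 : g 0 1 = b := rfl
  have h10 : g 1 0 = c := rfl
  have h11 : g 1 1 = -a := rfl
  refine ⟨g, ?_, ?_⟩
  · apply UpperHalfPlane.ext
    rw [coe_smul_of_det_pos hgd, div_eq_iff (denom_ne_zero g z)]
    simp only [num, denom, h00, h01, h10, h11]
    apply Complex.ext
    · simp [hb, ha, hc]; ring
    · simp [hb, ha, hc]; ring
  · apply UpperHalfPlane.ext
    rw [coe_smul_of_det_pos hgd, div_eq_iff (denom_ne_zero g w)]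
    simp only [num, denom, h00, h01, h10, h11]
    apply Complex.ext
    · simp [hb, ha, hc]; ring
    · simp [hb, ha, hc]; ring

/-! ### The reflection `J` -/

lemma J_re (z : ℍ) : (J • z).re = -z.re := by
  have := congrArg Complex.re (coe_J_smul z)
  simpa using this

lemma J_im (z : ℍ) : (J • z).im = z.im := by
  have := congrArg Complex.im (coe_J_smul z)
  simpa using this

lemma J_J (z : ℍ) : J • J • z = z := by
  apply UpperHalfPlane.ext_re_im
  · rw [J_re, J_re, neg_neg]
  · rw [J_im, J_im]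

/-- conjugation by `J` on the modular group -/
def cj (g : SL(2, ℤ)) : SL(2, ℤ) :=
  ⟨!![g 0 0, -g 0 1; -g 1 0, g 1 1], by
    rw [Matrix.det_fin_two_of]
    have := g.det_coe
    rw [Matrix.det_fin_two] at this
    linarith⟩

lemma cj_cj (g : SL(2, ℤ)) : cj (cj g) = g := by
  ext i j
  fin_cases i <;> fin_cases j <;> simp [cj]

/-- conjugation by `J` as a permutation of the modular group -/
def cjE : SL(2, ℤ) ≃ SL(2, ℤ) := ⟨cj, cj, cj_cj, cj_cj⟩

lemma sl_coe (g : SL(2, ℤ)) (z : ℍ) : ((g • z : ℍ) : ℂ) =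
    ((g 0 0 : ℂ) * z + g 0 1) / ((g 1 0 : ℂ) * z + g 1 1) := by
  rw [UpperHalfPlane.coe_specialLinearGroup_apply]
  simp

lemma J_smul (g : SL(2, ℤ)) (z : ℍ) : J • g • z = cj g • J • z := by
  apply UpperHalfPlane.ext
  rw [coe_J_smul, sl_coe, sl_coe, coe_J_smul]
  simp only [cj, map_div₀, map_add, map_mul, map_intCast]
  simp only [of_apply, cons_val', cons_val_zero, cons_val_one,
    cons_val_fin_one, Int.cast_neg]
  rw [← neg_div]
  congr 1
  · ring
  · ring

end

end Pool.Agent.V8H27.OM
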