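import Pool.Agent.H269.R5.J01
import Pool.Agent.H269.R5.J15
import Pool.Agent.H269.R5.J17

/-!
# Bounded hermitian kernels on finite measure spaces
-/

set_option autoImplicit false

open MeasureTheory Filter Topology Complex Module
open scoped InnerProductSpace ENNReal NNReal ComplexConjugate

namespace Pool.Agent.V8H27.OM

open Pool.Agent.H269

theorem hs_op {E : Type} [MeasurableSpace E] (μ : Measure E) [IsFiniteMeasure μ]
    (k : E → E → ℂ) (hk : Measurable (Function.uncurry k)) (C : ℝ) (hC : 0 ≤ C)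
    (hb : ∀ x y, ‖k x y‖ ≤ C) (hs : ∀ x y, k y x = conj (k x y)) :
    ∃ A : Lp ℂ 2 μ →L[ℂ] Lp ℂ 2 μ, IsKer μ k A ∧ IsCompactOperator A ∧ A.IsSymmetric := by
  classical
  have hCe : ∀ x y, ‖k x y‖ₑ ≤ ENNReal.ofReal C := fun x y => by
    rw [← ofReal_norm]; exact ENNReal.ofReal_le_ofReal (hb x y)
  have h1 : ∀ x, ∫⁻ y, ‖k x y‖ₑ ∂μ ≤ ENNReal.ofReal (C * μ.real Set.univ) := fun x => by
    refine (lintegral_mono (hCe x)).trans (le_of_eq ?_)
    rw [lintegral_const, ENNReal.ofReal_mul hC, Measure.real, ENNReal.ofReal_toReal (measure_ne_top μ _)]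
  have h2 : ∀ y, ∫⁻ x, ‖k x y‖ₑ ∂μ ≤ ENNReal.ofReal (C * μ.real Set.univ) := fun y => by
    refine (lintegral_mono (fun x => hCe x y)).trans (le_of_eq ?_)
    rw [lintegral_const, ENNReal.ofReal_mul hC, Measure.real, ENNReal.ofReal_toReal (measure_ne_top μ _)]
  obtain ⟨A, hA, -⟩ := exists_isKer (μ := μ) k hk (C * μ.real Set.univ) (mul_nonneg hC measureReal_nonneg)
    (ae_of_all _ h1) (ae_of_all _ h2)
  refine ⟨A, hA, ?_, ?_⟩
  · obtain ⟨w, b, -⟩ := exists_hilbertBasis ℂ (Lp ℂ 2 μ)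
    refine HSle.isCompact (IsKer.HSle b hk hA (C * μ.real Set.univ)
      (mul_nonneg hC measureReal_nonneg) ?_)
    calc ∫⁻ x, ∫⁻ y, ‖k x y‖ₑ ^ 2 ∂μ ∂μ ≤ ∫⁻ _, ∫⁻ _, ENNReal.ofReal C ^ 2 ∂μ ∂μ :=
          lintegral_mono fun x => lintegral_mono fun y => pow_le_pow_left₀ zero_le (hCe x y) 2
      _ = ENNReal.ofReal ((C * μ.real Set.univ) ^ 2) := by
          rw [lintegral_const, lintegral_const, ENNReal.ofReal_pow (mul_nonneg hC measureReal_nonneg),
            ENNReal.ofReal_mul hC, Measure.real, ENNReal.ofReal_toReal (measure_ne_top μ _)]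
          ring
  · intro f g
    have hfi : Integrable (f : E → ℂ) μ := (Lp.memLp f).integrable (by norm_num)
    have hgi : Integrable (g : E → ℂ) μ := (Lp.memLp g).integrable (by norm_num)
    have hcf : Integrable (fun x => conj ((f : E → ℂ) x)) μ :=
      (Complex.conjCLE.integrable_comp_iff).mpr hfi
    have e1 : ⟪A f, g⟫_ℂ = ∫ x, ∫ y, conj (k x y) * (conj ((f : E → ℂ) y) * (g : E → ℂ) x) ∂μ ∂μ := by
      rw [L2.inner_def]
      refine integral_congr_ae ?_
      filter_upwards [(hA f).2] with x hx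
      rw [hx, RCLike.inner_apply, ← integral_conj, mul_comm, ← integral_mul_const]
      refine integral_congr_ae (ae_of_all _ fun y => ?_)
      simp only [map_mul]
      ring
    have e2 : ⟪f, A g⟫_ℂ = ∫ y, ∫ x, conj (k x y) * (conj ((f : E → ℂ) y) * (g : E → ℂ) x) ∂μ ∂μ := by
      rw [L2.inner_def]
      refine integral_congr_ae ?_
      filter_upwards [(hA g).2] with y hy
      rw [hy, RCLike.inner_apply, ← integral_mul_const]
      refine integral_congr_ae (ae_of_all _ fun x => ?_)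
      simp only [hs x y]
      ring
    show ⟪A f, g⟫_ℂ = ⟪f, A g⟫_ℂ
    rw [e1, e2, integral_integral_swap]
    have hp : Integrable (fun p : E × E => (g : E → ℂ) p.1 * conj ((f : E → ℂ) p.2)) (μ.prod μ) :=
      hgi.mul_prod hcf
    have hkm : AEStronglyMeasurable (fun p : E × E => conj (k p.1 p.2)) (μ.prod μ) :=
      (Complex.continuous_conj.measurable.comp hk).aestronglyMeasurable
    have h3 := hp.bdd_mul (c := C) hkm (ae_of_all _ fun p => by
      rw [RCLike.norm_conj]; exact hb _ _)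
    refine h3.congr (ae_of_all _ fun p => ?_)
    simp only [Function.uncurry]
    ring

end Pool.Agent.V8H27.OM
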