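import Mathlib

/-!
# Common eigenvectors
-/

set_option autoImplicit false

open Module

namespace Pool.Agent.V8H27.OM

/-- commuting maps which are linear on a finite dimensional subspace have a common eigenvector there -/
theorem common_eig {M ι : Type*} [AddCommGroup M] [Module ℂ M] (W0 : Submodule ℂ M)
    [FiniteDimensional ℂ W0] (h0 : W0 ≠ ⊥) (F : ι → M → M)
    (hst : ∀ i, ∀ v ∈ W0, F i v ∈ W0) (hadd : ∀ i, ∀ v ∈ W0, ∀ w ∈ W0, F i (v + w) = F i v + F i w)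
    (hsm : ∀ i, ∀ c : ℂ, ∀ v ∈ W0, F i (c • v) = c • F i v)
    (hc : ∀ i j, ∀ v ∈ W0, F i (F j v) = F j (F i v)) :
    ∃ v ∈ W0, v ≠ 0 ∧ ∀ i, ∃ c : ℂ, F i v = c • v := by
  classical
  let P : ℕ → Prop := fun n => ∃ W : Submodule ℂ M, W ≤ W0 ∧ W ≠ ⊥ ∧ (∀ i, ∀ v ∈ W, F i v ∈ W) ∧
    finrank ℂ W = n
  have hP : ∃ n, P n := ⟨_, W0, le_rfl, h0, hst, rfl⟩
  obtain ⟨W, hW, hne, hWst, hfr⟩ := Nat.find_spec hP
  have hmin : ∀ W' : Submodule ℂ M, W' ≤ W0 → W' ≠ ⊥ → (∀ i, ∀ v ∈ W', F i v ∈ W') →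
      finrank ℂ W ≤ finrank ℂ W' := fun W' h1 h2 h3 => by
    rw [hfr]; exact Nat.find_min' hP ⟨W', h1, h2, h3, rfl⟩
  have : FiniteDimensional ℂ W := Submodule.finiteDimensional_of_le hW
  have : Nontrivial W := Submodule.nontrivial_iff_ne_bot.mpr hne
  have key : ∀ i, ∃ c : ℂ, ∀ v ∈ W, F i v = c • v := by
    intro i
    let T : W →ₗ[ℂ] W :=
      { toFun := fun v => ⟨F i v, hWst i v v.2⟩
        map_add' := fun v w => Subtype.ext (hadd i v (hW v.2) w (hW w.2))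
        map_smul' := fun c v => Subtype.ext (hsm i c v (hW v.2)) }
    obtain ⟨c, hcT⟩ := Module.End.exists_eigenvalue T
    refine ⟨c, ?_⟩
    have hsub : ∀ v : M, v ∈ W0 → F i v = c • v → ∀ j, F i (F j v) = c • F j v := by
      intro v hv hv2 j
      rw [hc i j v hv, hv2, hsm j c v hv]
    let E : Submodule ℂ M :=
      { carrier := {v | v ∈ W ∧ F i v = c • v}
        add_mem' := fun {v w} hv hw => ⟨W.add_mem hv.1 hw.1, by
          rw [hadd i v (hW hv.1) w (hW hw.1), hv.2, hw.2, smul_add]⟩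
        zero_mem' := ⟨W.zero_mem, by
          have := hsm i 0 0 (W0.zero_mem)
          rw [zero_smul, zero_smul] at this
          rw [this, smul_zero]⟩
        smul_mem' := fun a v hv => ⟨W.smul_mem a hv.1, by
          rw [hsm i a v (hW hv.1), hv.2, smul_comm]⟩ }
    have hEW : E ≤ W := fun v hv => hv.1
    have hE : E ≠ ⊥ := by
      obtain ⟨v, hv⟩ := hcT.exists_hasEigenvector
      intro hbot
      have h1 : (v : M) ∈ E := ⟨v.2, by
        have := congrArg Subtype.val hv.apply_eq_smul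
        exact this⟩
      rw [hbot, Submodule.mem_bot] at h1
      exact hv.2 (Subtype.ext h1)
    have h2 := hmin E (hEW.trans hW) hE (fun j v hv => ⟨hWst j v hv.1, hsub v (hW hv.1) hv.2 j⟩)
    have h3 : E = W := Submodule.eq_of_le_of_finrank_le hEW h2
    intro v hv
    rw [← h3] at hv
    exact hv.2
  obtain ⟨v, hv, hv0⟩ := Submodule.exists_mem_ne_zero_of_ne_bot hne
  refine ⟨v, hW hv, hv0, fun i => ?_⟩
  obtain ⟨c, hcc⟩ := key i
  exact ⟨c, hcc v hv⟩

end Pool.Agent.V8H27.OM
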