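import Pool.Agent.V8H27.OM.Smo
import Pool.Agent.V8H27.OM.Lin
import Pool.Agent.V8H85.OM.H

/-!
# Hecke operators and the common eigenfunction
-/

set_option autoImplicit false

open UpperHalfPlane MeasureTheory
open ModularGroup hiding T S
open Matrix hiding J
open scoped MatrixGroups ENNReal Modular Topology ComplexConjugate ContDiff

namespace Pool.Agent.V8H27.OM

open Pool.Agent.V8H85.OMH (T)

noncomputable section

/-- upper triangular matrices -/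
def gT (a b d : ℕ) (h : 0 < a ∧ 0 < d) : GL (Fin 2) ℝ :=
  GeneralLinearGroup.mkOfDetNeZero !![(a : ℝ), b; 0, d] (by
    rw [Matrix.det_fin_two_of]
    have h1 : (0 : ℝ) < a := by exact_mod_cast h.1
    have h2 : (0 : ℝ) < d := by exact_mod_cast h.2
    have := mul_pos h1 h2
    simpa using this.ne')

lemma gT_smul (a b d : ℕ) (h : 0 < a ∧ 0 < d) (z : ℍ) :
    ((gT a b d h • z : ℍ) : ℂ) = ((a : ℂ) * z + b) / d := by
  have h1 : (0 : ℝ) < a := by exact_mod_cast h.1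
  have h2 : (0 : ℝ) < d := by exact_mod_cast h.2
  have hdet : 0 < (gT a b d h).det.val := by
    have : (gT a b d h).det.val = (!![(a : ℝ), b; 0, d] : Matrix (Fin 2) (Fin 2) ℝ).det := rfl
    rw [this, Matrix.det_fin_two_of]
    have := mul_pos h1 h2
    simpa using this
  rw [coe_smul_of_det_pos hdet]
  have h00 : gT a b d h 0 0 = a := rfl
  have h01 : gT a b d h 0 1 = b := rfl
  have h10 : gT a b d h 1 0 = 0 := rfl
  have h11 : gT a b d h 1 1 = d := rfl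
  simp only [num, denom, h00, h01, h10, h11]
  simp

lemma ofC_gT (a b d : ℕ) (h : 0 < a ∧ 0 < d) (z : ℍ) :
    ofComplex (((a : ℂ) * z + b) / d) = gT a b d h • z := by
  rw [← gT_smul a b d h z, ofComplex_apply]

lemma dvd_pos {n d : ℕ} (hd : d ∈ n.divisors) : 0 < n / d ∧ 0 < d := by
  have h := Nat.mem_divisors.mp hd
  have hd0 : 0 < d := Nat.pos_of_mem_divisors hd
  exact ⟨Nat.div_pos (Nat.le_of_dvd (Nat.pos_of_ne_zero h.2) h.1) hd0, hd0⟩

/-- the Hecke operator as a sum over matrices -/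
lemma T_apply (n : ℕ) (f : ℍ → ℂ) (z : ℍ) : T n f z =
    ∑ d ∈ n.divisors.attach, ∑ b ∈ Finset.range d, f (gT (n / d) b d (dvd_pos d.2) • z) := by
  unfold T
  rw [← Finset.sum_attach]
  refine Finset.sum_congr rfl fun d _ => Finset.sum_congr rfl fun b _ => ?_
  rw [ofC_gT _ _ _ (dvd_pos d.2)]

lemma BM.add {f g : ℍ → ℂ} (hf : BM f) (hg : BM g) : BM (f + g) := by
  obtain ⟨h1, C, hC⟩ := hf
  obtain ⟨k1, D, hD⟩ := hg
  exact ⟨h1.add k1, C + D, fun w => (norm_add_le _ _).trans (add_le_add (hC w) (hD w))⟩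

lemma BM.zero : BM 0 := ⟨measurable_zero, 0, fun w => by simp⟩

lemma BM.sum {ι : Type*} {s : Finset ι} {F : ι → ℍ → ℂ} (h : ∀ i ∈ s, BM (F i)) : BM (∑ i ∈ s, F i) :=
  Finset.sum_induction F BM (fun _ _ => BM.add) BM.zero h

lemma opA_sum {φ : ℝ → ℝ} (hφ : Prof φ) {ι : Type*} {s : Finset ι} {F : ι → ℍ → ℂ}
    (h : ∀ i ∈ s, BM (F i)) : opA φ (∑ i ∈ s, F i) = ∑ i ∈ s, opA φ (F i) := by
  classical
  induction s using Finset.induction_on with
  | empty => simp [opA_zero]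
  | insert a s ha ih =>
    rw [Finset.sum_insert ha, Finset.sum_insert ha, ← ih fun i hi => h i (Finset.mem_insert_of_mem hi)]
    exact opA_add hφ (h a (Finset.mem_insert_self a s)).lb
      (BM.sum fun i hi => h i (Finset.mem_insert_of_mem hi)).lb

lemma T_eq_sum (n : ℕ) (f : ℍ → ℂ) : T n f =
    ∑ d ∈ n.divisors.attach, ∑ b ∈ Finset.range d, fun z => f (gT (n / d) b d (dvd_pos d.2) • z) := by
  ext z
  rw [T_apply]
  simp only [Finset.sum_apply]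

lemma BM.T {f : ℍ → ℂ} (hf : BM f) (n : ℕ) : BM (T n f) := by
  rw [T_eq_sum]
  exact BM.sum fun d _ => BM.sum fun b _ => hf.comp_gl _

lemma opA_T {φ : ℝ → ℝ} (hφ : Prof φ) {f : ℍ → ℂ} (hf : BM f) (n : ℕ) :
    opA φ (T n f) = T n (opA φ f) := by
  rw [T_eq_sum, T_eq_sum, opA_sum hφ fun d _ => BM.sum fun b _ => hf.comp_gl _]
  refine Finset.sum_congr rfl fun d _ => ?_
  rw [opA_sum hφ fun b _ => hf.comp_gl _]
  refine Finset.sum_congr rfl fun b _ => ?_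
  ext z
  rw [opA_gl]

lemma T_add (n : ℕ) (f g : ℍ → ℂ) : T n (f + g) = T n f + T n g := by
  ext z
  simp only [T, Pi.add_apply, Finset.sum_add_distrib]

lemma T_smul (n : ℕ) (c : ℂ) (f : ℍ → ℂ) : T n (c • f) = c • T n f := by
  ext z
  simp only [T, Pi.smul_apply, smul_eq_mul, Finset.mul_sum]

lemma per_of_inv {f : ℍ → ℂ} (hf : ∀ γ : SL(2, ℤ), ∀ z, f (γ • z) = f z) (z : ℍ) :
    f ((1 : ℝ) +ᵥ z) = f z := by
  rw [← UpperHalfPlane.modular_T_smul]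
  exact hf _ z

lemma odd_ofC {f : ℍ → ℂ} (hf : ∀ z, f (J • z) = - f z) {τ : ℂ} (hτ : 0 < τ.im) :
    (f ∘ ofComplex) (-conj τ) = - (f ∘ ofComplex) τ := by
  have h0 : 0 < (-conj τ).im := by simpa using hτ
  simp only [Function.comp_apply]
  rw [← hf]
  congr 1
  apply UpperHalfPlane.ext
  rw [coe_J_smul, ofComplex_apply_of_im_pos h0, ofComplex_apply_of_im_pos hτ]

lemma T_odd {f : ℍ → ℂ} (hi : ∀ γ : SL(2, ℤ), ∀ z, f (γ • z) = f z) (hf : ∀ z, f (J • z) = - f z)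
    (n : ℕ) (z : ℍ) : T n f (J • z) = - T n f z := by
  have hper := Pool.Agent.V8H85.OMH.per_of (per_of_inv hi)
  rw [Pool.Agent.V8H85.OMH.T_eq, Pool.Agent.V8H85.OMH.T_eq]
  unfold Pool.Agent.V8H85.OMH.TT
  rw [← Finset.sum_neg_distrib]
  refine Finset.sum_congr rfl fun d hd => ?_
  obtain ⟨ha, hd0⟩ := dvd_pos hd
  have : NeZero d := ⟨hd0.ne'⟩
  set a : ℕ := n / d with ha'
  have hz := z.im_pos
  have hτ : 0 < ((a : ℂ) * (z : ℂ)).im := Pool.Agent.V8H85.OMH.im_mul_nat hz ha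
  have hdC : (d : ℂ) ≠ 0 := by exact_mod_cast hd0.ne'
  have e1 : (a : ℂ) * ((J • z : ℍ) : ℂ) = -conj ((a : ℂ) * (z : ℂ)) := by
    rw [coe_J_smul]
    simp
  rw [e1]
  have h2 : Pool.Agent.V8H85.OMH.S (f ∘ ofComplex) d (-conj ((a : ℂ) * (z : ℂ))) =
      - ∑ i : Fin d, (f ∘ ofComplex) (((a : ℂ) * (z : ℂ) + ((d - (i : ℕ) : ℕ) : ℂ)) / (d : ℂ)) := by
    unfold Pool.Agent.V8H85.OMH.S
    rw [Finset.sum_range, ← Finset.sum_neg_distrib]
    refine Finset.sum_congr rfl fun i _ => ?_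
    have h3 : (-conj ((a : ℂ) * (z : ℂ)) + ((i : ℕ) : ℂ)) / (d : ℂ) =
        -conj (((a : ℂ) * (z : ℂ) + ((-(i : ℕ) : ℝ) : ℂ)) / (d : ℂ)) := by
      simp only [map_div₀, map_add, map_mul, Complex.conj_natCast, Complex.conj_ofReal]
      push_cast
      ring
    have h4 : 0 < (((a : ℂ) * (z : ℂ) + ((-(i : ℕ) : ℝ) : ℂ)) / (d : ℂ)).im :=
      Pool.Agent.V8H85.OMH.im_div_nat hτ hd0 _ (by simp)
    rw [h3, odd_ofC hf h4, ← hper _ h4]
    congr 2
    have h5 : ((d - (i : ℕ) : ℕ) : ℂ) = (d : ℂ) - ((i : ℕ) : ℂ) := by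
      rw [Nat.cast_sub i.2.le]
    rw [h5]
    push_cast
    field_simp
    ring
  rw [h2, Pool.Agent.V8H85.OMH.S_eq hper (fun i : Fin d => d - (i : ℕ)) ?_ hτ]
  rw [Fintype.bijective_iff_injective_and_card]
  refine ⟨?_, by simp [ZMod.card]⟩
  intro i j hij
  simp only [Nat.cast_sub i.2.le, Nat.cast_sub j.2.le, CharP.cast_eq_zero, zero_sub, neg_inj] at hij
  rw [ZMod.natCast_eq_natCast_iff'] at hij
  rw [Nat.mod_eq_of_lt i.2, Nat.mod_eq_of_lt j.2] at hij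
  exact Fin.ext hij

lemma OI.T {f : ℍ → ℂ} (hf : OI f) {p : ℕ} (hp : p.Prime) : OI (T p f) :=
  ⟨hf.1.T p, Pool.Agent.V8H85.OMH.inv hf.2.1 hp, T_odd hf.2.1 hf.2.2 p⟩

lemma OI.opA {φ : ℝ → ℝ} (hφ : Prof φ) {f : ℍ → ℂ} (hf : OI f) : OI (opA φ f) := by
  refine ⟨hf.1.opA hφ, fun γ z => ?_, fun z => ?_⟩
  · rw [← toG_smul, opA_gl]
    congr 1
    ext w
    exact hf.2.1 γ w
  · rw [opA_gl]
    have : (fun w => f (J • w)) = (-1 : ℂ) • f := by
      ext w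
      rw [hf.2.2]
      simp
    rw [this, opA_smul]
    simp

/-- the family of operators -/
def FF : Option {p : ℕ // p.Prime} → (ℍ → ℂ) → (ℍ → ℂ)
  | none => fun f => Pool.Agent.V8H27.OM.opA (lap ph) f
  | some p => fun f => Pool.Agent.V8H85.OMH.T p f

theorem exists_form : ∃ (f : ℍ → ℂ) (m k : ℂ) (c : ℕ → ℂ), OI f ∧ f ≠ 0 ∧ m ≠ 0 ∧ opA ph f = m • f ∧
    opA (lap ph) f = k • f ∧ ∀ n : ℕ, 0 < n → ∀ z, T n f z = c n * f z := by
  obtain ⟨m, hm, hV⟩ := exists_VV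
  have hl : Prof (lap ph) := (lap_profS ph_profS).prof
  have hfd := finite_VV ph_profS hm
  obtain ⟨f, hf, hf0, hc⟩ := common_eig (VV ph ph_profS.prof m) hV FF
    (by
      rintro (_ | p) f ⟨h1, h2⟩
      · refine ⟨h1.opA hl, ?_⟩
        simp only [FF]
        rw [opA_comm ph_profS.prof hl h1.1, h2, opA_smul]
      · refine ⟨h1.T p.2, ?_⟩
        simp only [FF]
        rw [opA_T ph_profS.prof h1.1, h2, T_smul])
    (by
      rintro (_ | p) f ⟨h1, h2⟩ g ⟨h3, h4⟩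
      · exact opA_add hl h1.1.lb h3.1.lb
      · exact T_add _ _ _)
    (by
      rintro (_ | p) c f ⟨h1, h2⟩
      · exact opA_smul _ _ _
      · exact T_smul _ _ _)
    (by
      rintro (_ | p) (_ | q) f ⟨h1, h2⟩
      · rfl
      · exact opA_T hl h1.1 _
      · exact (opA_T hl h1.1 _).symm
      · exact Pool.Agent.V8H85.OMH.comm (per_of_inv h1.2.1) p.2 q.2)
  obtain ⟨k, hk⟩ := hc none
  have hT : ∀ p : ℕ, p.Prime → ∃ c : ℂ, ∀ z, T p f z = c * f z := by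
    intro p hp
    obtain ⟨c, hcp⟩ := hc (some ⟨p, hp⟩)
    exact ⟨c, fun z => congrFun hcp z⟩
  have h3 := Pool.Agent.V8H85.OMH.eig (per_of_inv hf.1.2.1) hT
  choose! c hc using h3
  exact ⟨f, m, k, c, hf.1, hf0, hm, hf.2, hk, hc⟩

end

end Pool.Agent.V8H27.OM
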