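import Pool.Agent.V8H27.OM.Geo

/-!
# Invariant integral operators on the upper half plane
-/

set_option autoImplicit false

open UpperHalfPlane MeasureTheory ModularGroup
open Matrix hiding J
open scoped MatrixGroups ENNReal Modular Topology ComplexConjugate

namespace Pool.Agent.V8H27.OM

noncomputable section

/-- the cut-off for the hyperbolic cosine -/
def c0 : ℝ := 101 / 100

/-- continuous profiles which vanish on `[c0, ∞)` -/
def Prof (φ : ℝ → ℝ) : Prop := Continuous φ ∧ ∀ t, c0 ≤ t → φ t = 0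

/-- the integral operator with the kernel `φ (rho z w)` -/
def opA (φ : ℝ → ℝ) (f : ℍ → ℂ) (z : ℍ) : ℂ := ∫ w, (φ (rho z w) : ℂ) * f w

/-- measurable functions which are bounded on compact sets -/
def LB (h : ℍ → ℂ) : Prop := Measurable h ∧ ∀ K : Set ℍ, IsCompact K → ∃ C : ℝ, ∀ w ∈ K, ‖h w‖ ≤ C

/-- bounded measurable functions -/
def BM (h : ℍ → ℂ) : Prop := Measurable h ∧ ∃ C : ℝ, ∀ w, ‖h w‖ ≤ C

lemma BM.lb {h : ℍ → ℂ} (hh : BM h) : LB h :=
  ⟨hh.1, fun _ _ => ⟨hh.2.choose, fun w _ => hh.2.choose_spec w⟩⟩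

lemma LB.mul {h k : ℍ → ℂ} (hh : LB h) (hk : LB k) : LB (fun w => h w * k w) := by
  refine ⟨hh.1.mul hk.1, fun K hK => ?_⟩
  obtain ⟨C, hC⟩ := hh.2 K hK
  obtain ⟨D, hD⟩ := hk.2 K hK
  refine ⟨|C| * |D|, fun w hw => ?_⟩
  rw [norm_mul]
  exact mul_le_mul ((hC w hw).trans (le_abs_self _)) ((hD w hw).trans (le_abs_self _))
    (norm_nonneg _) (abs_nonneg _)

lemma LB.of_continuous {h : ℍ → ℂ} (hh : Continuous h) : LB h := by
  refine ⟨hh.measurable, fun K hK => ?_⟩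
  obtain ⟨C, hC⟩ := hK.exists_bound_of_continuousOn hh.continuousOn
  exact ⟨C, hC⟩

/-- the ball of points `w` with `rho z w ≤ c` -/
def Bl (c : ℝ) (z : ℍ) : Set ℍ := {w | rho z w ≤ c}

lemma Bl_subset (c : ℝ) (z : ℍ) : Bl c z ⊆ Metric.closedBall z (2 * c) := by
  intro w hw
  rw [Metric.mem_closedBall, dist_comm]
  have h1 : Real.cosh (dist z w) ≤ c := by rw [← rho_eq]; exact hw
  rw [Real.cosh_eq] at h1
  have h2 := Real.add_one_le_exp (dist z w)
  have h3 := Real.exp_pos (-dist z w)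
  linarith

lemma isClosed_Bl (c : ℝ) (z : ℍ) : IsClosed (Bl c z) :=
  isClosed_le (continuous_rho_right z) continuous_const

lemma isCompact_Bl (c : ℝ) (z : ℍ) : IsCompact (Bl c z) :=
  (isCompact_closedBall z (2 * c)).of_isClosed_subset (isClosed_Bl c z) (Bl_subset c z)

lemma measurableSet_Bl (c : ℝ) (z : ℍ) : MeasurableSet (Bl c z) := (isClosed_Bl c z).measurableSet

lemma Prof.bdd {φ : ℝ → ℝ} (hφ : Prof φ) : ∃ M : ℝ, 0 ≤ M ∧ ∀ z w, |φ (rho z w)| ≤ M := by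
  obtain ⟨M, hM⟩ := (isCompact_Icc (a := (1 : ℝ)) (b := c0)).exists_bound_of_continuousOn
    hφ.1.continuousOn
  refine ⟨max M 0, le_max_right _ _, fun z w => ?_⟩
  by_cases h : rho z w ≤ c0
  · exact (hM _ ⟨one_le_rho z w, h⟩).trans (le_max_left _ _)
  · rw [hφ.2 _ (not_le.mp h).le, abs_zero]; exact le_max_right _ _

lemma Prof.zero {φ : ℝ → ℝ} (hφ : Prof φ) {z w : ℍ} (h : w ∉ Bl c0 z) : φ (rho z w) = 0 :=
  hφ.2 _ (not_le.mp h).le

lemma Prof.cont {φ : ℝ → ℝ} (hφ : Prof φ) (z : ℍ) : Continuous (fun w => φ (rho z w)) :=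
  hφ.1.comp (continuous_rho_right z)

lemma Prof.cont2 {φ : ℝ → ℝ} (hφ : Prof φ) : Continuous (fun p : ℍ × ℍ => φ (rho p.1 p.2)) :=
  hφ.1.comp continuous_rho

lemma integrable_of_LB {h : ℍ → ℂ} (hh : LB h) {K : Set ℍ} (hK : IsCompact K)
    (h0 : ∀ w, w ∉ K → h w = 0) : Integrable h := by
  rw [← integrableOn_iff_integrable_of_support_subset (s := K)]
  · obtain ⟨C, hC⟩ := hh.2 K hK
    refine Measure.integrableOn_of_bounded (M := C) hK.measure_lt_top.ne hh.1.aestronglyMeasurable ?_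
    filter_upwards [ae_restrict_mem hK.measurableSet] with w hw using hC w hw
  · intro w hw
    by_contra h
    exact hw (h0 w h)

lemma integrable_ker {φ : ℝ → ℝ} (hφ : Prof φ) {f : ℍ → ℂ} (hf : LB f) (z : ℍ) :
    Integrable (fun w => (φ (rho z w) : ℂ) * f w) := by
  refine integrable_of_LB ((LB.of_continuous (Complex.continuous_ofReal.comp (hφ.cont z))).mul hf)
    (isCompact_Bl c0 z) fun w hw => ?_
  rw [hφ.zero hw]; simp

lemma opA_gl (φ : ℝ → ℝ) (f : ℍ → ℂ) (g : GL (Fin 2) ℝ) (z : ℍ) :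
    opA φ f (g • z) = opA φ (fun w => f (g • w)) z := by
  unfold opA
  rw [← integral_gl g]
  simp only [rho_smul]

lemma BM.comp_gl {f : ℍ → ℂ} (hf : BM f) (g : GL (Fin 2) ℝ) : BM (fun w => f (g • w)) :=
  ⟨hf.1.comp (continuous_gl g).measurable, hf.2.choose, fun w => hf.2.choose_spec _⟩

lemma opA_measurable {φ : ℝ → ℝ} (hφ : Prof φ) {f : ℍ → ℂ} (hf : Measurable f) :
    Measurable (opA φ f) := by
  have h : Measurable (fun p : ℍ × ℍ => (φ (rho p.1 p.2) : ℂ) * f p.2) :=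
    (Complex.measurable_ofReal.comp hφ.cont2.measurable).mul (hf.comp measurable_snd)
  exact (h.stronglyMeasurable.integral_prod_right' (ν := (volume : Measure ℍ))).measurable

lemma volume_Bl (c : ℝ) (z w : ℍ) : (volume : Measure ℍ) (Bl c z) = volume (Bl c w) := by
  obtain ⟨g, rfl⟩ := MulAction.exists_smul_eq (GL (Fin 2) ℝ) z w
  rw [← (mp_gl g).measure_preimage (measurableSet_Bl c (g • z)).nullMeasurableSet]
  congr 1
  ext v
  simp only [Bl, Set.mem_ofPred_eq, Set.mem_preimage, rho_smul]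

lemma opA_bound {φ : ℝ → ℝ} (hφ : Prof φ) : ∃ M : ℝ, 0 ≤ M ∧ ∀ f : ℍ → ℂ, ∀ C : ℝ,
    (∀ w, ‖f w‖ ≤ C) → ∀ z, ‖opA φ f z‖ ≤ M * C := by
  obtain ⟨M, hM0, hM⟩ := hφ.bdd
  set V : ℝ := (volume : Measure ℍ).real (Bl c0 I) with hV
  refine ⟨M * V, mul_nonneg hM0 measureReal_nonneg, fun f C hC z => ?_⟩
  have hC0 : 0 ≤ C := (norm_nonneg _).trans (hC I)
  have h1 : opA φ f z = ∫ w in Bl c0 z, (φ (rho z w) : ℂ) * f w := by
    unfold opA
    rw [setIntegral_eq_integral_of_forall_compl_eq_zero]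
    intro w hw
    rw [hφ.zero hw]; simp
  rw [h1]
  have h2 := norm_setIntegral_le_of_norm_le_const (μ := (volume : Measure ℍ)) (s := Bl c0 z)
    (f := fun w => (φ (rho z w) : ℂ) * f w) (C := M * C) (isCompact_Bl c0 z).measure_lt_top
    (fun w _ => by
      rw [norm_mul, Complex.norm_real, Real.norm_eq_abs]
      exact mul_le_mul (hM z w) (hC w) (norm_nonneg _) hM0)
  refine h2.trans (le_of_eq ?_)
  rw [hV, Measure.real, Measure.real, volume_Bl c0 z I]
  ring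

lemma BM.opA {φ : ℝ → ℝ} (hφ : Prof φ) {f : ℍ → ℂ} (hf : BM f) : BM (opA φ f) := by
  refine ⟨opA_measurable hφ hf.1, ?_⟩
  obtain ⟨M, -, hM⟩ := opA_bound hφ
  exact ⟨M * hf.2.choose, fun z => hM f _ hf.2.choose_spec z⟩

lemma rho_tri {z w v : ℍ} (h1 : rho z w ≤ c0) (h2 : rho w v ≤ c0) : v ∈ Metric.closedBall z (4 * c0) := by
  have h3 := Bl_subset c0 z (show w ∈ Bl c0 z from h1)
  have h4 := Bl_subset c0 w (show v ∈ Bl c0 w from h2)
  rw [Metric.mem_closedBall] at *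
  linarith [dist_triangle v w z]

lemma opA_opA {φ ψ : ℝ → ℝ} (hφ : Prof φ) (hψ : Prof ψ) {f : ℍ → ℂ} (hf : BM f) (z : ℍ) :
    opA φ (opA ψ f) z = ∫ v, (∫ w, ((φ (rho z w) * ψ (rho w v) : ℝ) : ℂ)) * f v := by
  unfold opA
  have h1 : ∀ w, (φ (rho z w) : ℂ) * ∫ v, (ψ (rho w v) : ℂ) * f v =
      ∫ v, (φ (rho z w) : ℂ) * ((ψ (rho w v) : ℂ) * f v) := fun w => (integral_const_mul _ _).symm
  simp only [h1]
  rw [integral_integral_swap]
  · congr 1
    ext v
    rw [← integral_mul_const]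
    congr 1
    ext w
    push_cast
    ring
  · have hm : Measurable (fun p : ℍ × ℍ => (φ (rho z p.1) : ℂ) * ((ψ (rho p.1 p.2) : ℂ) * f p.2)) := by
      refine (Complex.measurable_ofReal.comp ((hφ.cont z).measurable.comp measurable_fst)).mul ?_
      exact (Complex.measurable_ofReal.comp hψ.cont2.measurable).mul (hf.1.comp measurable_snd)
    obtain ⟨M, hM0, hM⟩ := hφ.bdd
    obtain ⟨N, hN0, hN⟩ := hψ.bdd
    obtain ⟨C, hC⟩ := hf.2
    set K : Set (ℍ × ℍ) := Bl c0 z ×ˢ Metric.closedBall z (4 * c0) with hK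
    have hKc : IsCompact K := (isCompact_Bl c0 z).prod (isCompact_closedBall z _)
    rw [← integrableOn_iff_integrable_of_support_subset (s := K)]
    · refine Measure.integrableOn_of_bounded (M := M * (N * C)) hKc.measure_lt_top.ne
        hm.aestronglyMeasurable ?_
      refine .of_forall fun p => ?_
      simp only [Function.uncurry]
      rw [norm_mul, norm_mul, Complex.norm_real, Complex.norm_real, Real.norm_eq_abs,
        Real.norm_eq_abs]
      exact mul_le_mul (hM _ _) (mul_le_mul (hN _ _) (hC _) (norm_nonneg _) hN0)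
        (mul_nonneg (abs_nonneg _) (norm_nonneg _)) hM0
    · intro p hp
      by_contra h
      apply hp
      simp only [Function.uncurry]
      by_cases h1 : p.1 ∈ Bl c0 z
      · by_cases h2 : p.2 ∈ Bl c0 p.1
        · exact absurd ⟨h1, rho_tri h1 h2⟩ h
        · rw [hψ.zero h2]; simp
      · rw [hφ.zero h1]; simp

lemma kernel_comm (φ ψ : ℝ → ℝ) (z v : ℍ) :
    ∫ w, ((φ (rho z w) * ψ (rho w v) : ℝ) : ℂ) = ∫ w, ((ψ (rho z w) * φ (rho w v) : ℝ) : ℂ) := by
  obtain ⟨g, h1, h2⟩ := exists_swap z v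
  rw [← integral_gl g]
  congr 1
  ext w
  have e1 : rho z (g • w) = rho w v := by
    conv_lhs => rw [← h2]
    rw [rho_smul, rho_symm]
  have e2 : rho (g • w) v = rho z w := by
    conv_lhs => rw [← h1]
    rw [rho_smul, rho_symm]
  rw [e1, e2, mul_comm]

lemma opA_comm {φ ψ : ℝ → ℝ} (hφ : Prof φ) (hψ : Prof ψ) {f : ℍ → ℂ} (hf : BM f) :
    opA φ (opA ψ f) = opA ψ (opA φ f) := by
  ext z
  rw [opA_opA hφ hψ hf, opA_opA hψ hφ hf]
  congr 1
  ext v
  rw [kernel_comm]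

end

end Pool.Agent.V8H27.OM
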