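import Pool.Agent.V8H27.OM.Spc

/-!
# Smoothness of invariant integral operators
-/

set_option autoImplicit false

open UpperHalfPlane MeasureTheory ModularGroup
open Matrix hiding J
open scoped MatrixGroups ENNReal Modular Topology ComplexConjugate ContDiff

namespace Pool.Agent.V8H27.OM

noncomputable section

/-- the invariant `rho` as a function of a complex number -/
def P (z : ℂ) (w : ℍ) : ℝ := ((z.re - w.re) ^ 2 + z.im ^ 2 + w.im ^ 2) / (2 * z.im * w.im)

lemma P_coe (z w : ℍ) : P z w = rho z w := by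
  have h1 := z.im_pos.ne'
  have h2 := w.im_pos.ne'
  rw [P, rho, coe_re, coe_im]
  field_simp
  ring

/-- the integral operator as a function of a complex number -/
def S (ψ : ℝ → ℝ) (h : ℍ → ℂ) (z : ℂ) : ℂ := ∫ w, (ψ (P z w) : ℂ) * h w

lemma S_coe (ψ : ℝ → ℝ) (h : ℍ → ℂ) (z : ℍ) : S ψ h z = opA ψ h z := by
  unfold S opA
  simp only [P_coe]

/-- first component of the gradient of `P` -/
def Pa (z : ℂ) (w : ℍ) : ℝ := (z.re - w.re) / (z.im * w.im)

/-- second component of the gradient of `P` -/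
def Pb (z : ℂ) (w : ℍ) : ℝ := 1 / w.im - P z w / z.im

lemma hasFDerivAt_P {z : ℂ} (hz : 0 < z.im) (w : ℍ) :
    HasFDerivAt (fun z => P z w) (Pa z w • Complex.reCLM + Pb z w • Complex.imCLM) z := by
  have hw := w.im_pos
  have h1 : HasFDerivAt (fun z : ℂ => z.re) Complex.reCLM z := Complex.reCLM.hasFDerivAt
  have h2 : HasFDerivAt (fun z : ℂ => z.im) Complex.imCLM z := Complex.imCLM.hasFDerivAt
  have h3 : HasFDerivAt (fun z : ℂ => (z.re - w.re) ^ 2 + z.im ^ 2 + w.im ^ 2)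
      ((2 * (z.re - w.re)) • Complex.reCLM + (2 * z.im) • Complex.imCLM) z := by
    have := (((h1.sub_const w.re).pow 2).add (h2.pow 2)).add_const (w.im ^ 2)
    refine this.congr_fderiv ?_
    ext x
    simp
  have h4 : HasFDerivAt (fun z : ℂ => 2 * z.im * w.im) ((2 * w.im) • Complex.imCLM) z := by
    have := (h2.const_mul 2).mul_const w.im
    refine this.congr_fderiv ?_
    ext x
    simp
    ring
  have h5 : HasFDerivAt (fun z : ℂ => (2 * z.im * w.im)⁻¹) (-((2 * z.im * w.im) ^ 2)⁻¹ • (2 * w.im) • Complex.imCLM) z := by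
    have h6 := (hasDerivAt_inv (show 2 * z.im * w.im ≠ 0 by positivity)).comp_hasFDerivAt z h4
    refine h6.congr_fderiv ?_
    ext x
    simp
  have h7 := h3.mul h5
  refine (h7.congr_fderiv ?_).congr_of_eventuallyEq (Filter.Eventually.of_forall fun z => ?_)
  · ext x
    simp [Pa, Pb, P]
    field_simp
    ring
  · simp [P, div_eq_mul_inv]

lemma exists_compact_near {z0 : ℂ} (hz0 : 0 < z0.im) : ∃ K : Set ℍ, IsCompact K ∧
    ∀ z ∈ Metric.closedBall z0 (z0.im / 2), 0 < z.im ∧ ∀ w, P z w ≤ c0 → w ∈ K := by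
  have hpos : ∀ z ∈ Metric.closedBall z0 (z0.im / 2), 0 < z.im := by
    intro z hz
    rw [Metric.mem_closedBall, dist_eq_norm] at hz
    have h1 := (Complex.abs_im_le_norm (z - z0)).trans hz
    rw [Complex.sub_im, abs_le] at h1
    linarith
  set N : Set ℍ := UpperHalfPlane.coe ⁻¹' (Metric.closedBall z0 (z0.im / 2)) with hN
  have hNc : IsCompact N := by
    rw [hN, isOpenEmbedding_coe.isInducing.isCompact_preimage_iff]
    · exact isCompact_closedBall _ _
    · intro z hz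
      exact ⟨⟨z, hpos z hz⟩, rfl⟩
  obtain ⟨R, hR⟩ := hNc.isBounded.subset_closedBall (⟨z0, hz0⟩ : ℍ)
  refine ⟨Metric.closedBall (⟨z0, hz0⟩ : ℍ) (R + 2 * c0), isCompact_closedBall _ _, fun z hz => ⟨hpos z hz, fun w hw => ?_⟩⟩
  have h1 : (⟨z, hpos z hz⟩ : ℍ) ∈ N := hz
  have h2 := hR h1
  have h3 : w ∈ Bl c0 (⟨z, hpos z hz⟩ : ℍ) := by
    show rho (⟨z, hpos z hz⟩ : ℍ) w ≤ c0
    rw [← P_coe]
    exact hw
  have h4 := Bl_subset _ _ h3
  rw [Metric.mem_closedBall] at *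
  linarith [dist_triangle w (⟨z, hpos z hz⟩ : ℍ) (⟨z0, hz0⟩ : ℍ)]

lemma cont_P {z : ℂ} (hz : 0 < z.im) : Continuous (P z) := by
  have h := continuous_rho_right (⟨z, hz⟩ : ℍ)
  have e : P z = rho (⟨z, hz⟩ : ℍ) := by
    ext w
    exact P_coe (⟨z, hz⟩ : ℍ) w
  rw [e]; exact h

lemma integrable_S {ψ : ℝ → ℝ} (hψ : Prof ψ) {h : ℍ → ℂ} (hh : LB h) {z : ℂ} (hz : 0 < z.im) :
    Integrable (fun w => (ψ (P z w) : ℂ) * h w) := by
  have h1 := integrable_ker hψ hh (⟨z, hz⟩ : ℍ)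
  simp only [← P_coe] at h1
  exact h1

/-- first component of the gradient -/
def Sx (ψ : ℝ → ℝ) (h : ℍ → ℂ) (z : ℂ) : ℂ :=
  ((z.re / z.im : ℝ) : ℂ) * S (deriv ψ) (fun w => ((1 / w.im : ℝ) : ℂ) * h w) z -
    ((1 / z.im : ℝ) : ℂ) * S (deriv ψ) (fun w => ((w.re / w.im : ℝ) : ℂ) * h w) z

/-- second component of the gradient -/
def Sy (ψ : ℝ → ℝ) (h : ℍ → ℂ) (z : ℂ) : ℂ :=
  S (deriv ψ) (fun w => ((1 / w.im : ℝ) : ℂ) * h w) z -
    ((1 / z.im : ℝ) : ℂ) * S (fun t => t * deriv ψ t) h z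

lemma ProfS.mul {ψ g : ℝ → ℝ} (hψ : ProfS ψ) (hg : ContDiff ℝ ∞ g) : ProfS (fun t => g t * ψ t) :=
  ⟨hg.mul hψ.1, fun t ht => by simp only [hψ.2 t ht, mul_zero]⟩

lemma LB.cont_mul {h : ℍ → ℂ} (hh : LB h) {k : ℍ → ℝ} (hk : Continuous k) :
    LB (fun w => (k w : ℂ) * h w) :=
  (LB.of_continuous (Complex.continuous_ofReal.comp hk)).mul hh

lemma cont_inv_im : Continuous (fun w : ℍ => 1 / w.im) :=
  continuous_const.div continuous_im fun w => w.im_pos.ne'

lemma cont_re_im : Continuous (fun w : ℍ => w.re / w.im) :=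
  continuous_re.div continuous_im fun w => w.im_pos.ne'

lemma Sx_eq {ψ : ℝ → ℝ} (hψ : ProfS ψ) {h : ℍ → ℂ} (hh : LB h) {z : ℂ} (hz : 0 < z.im) :
    ∫ w, ((deriv ψ (P z w) : ℝ) : ℂ) * h w * (Pa z w : ℂ) = Sx ψ h z := by
  unfold Sx S
  rw [← integral_const_mul, ← integral_const_mul, ← integral_sub]
  · congr 1
    ext w
    have hw := w.im_pos.ne'
    have hz' := hz.ne'
    simp only [Pa]
    push_cast
    have e1 : (w.im : ℂ) ≠ 0 := by exact_mod_cast hw
    have e2 : (z.im : ℂ) ≠ 0 := by exact_mod_cast hz'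
    field_simp
  · exact (integrable_S hψ.der.prof (hh.cont_mul cont_inv_im) hz).const_mul _
  · exact (integrable_S hψ.der.prof (hh.cont_mul cont_re_im) hz).const_mul _

lemma Sy_eq {ψ : ℝ → ℝ} (hψ : ProfS ψ) {h : ℍ → ℂ} (hh : LB h) {z : ℂ} (hz : 0 < z.im) :
    ∫ w, ((deriv ψ (P z w) : ℝ) : ℂ) * h w * (Pb z w : ℂ) = Sy ψ h z := by
  unfold Sy S
  rw [← integral_const_mul, ← integral_sub]
  · congr 1
    ext w
    have hw := w.im_pos.ne'
    have hz' := hz.ne'
    simp only [Pb]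
    push_cast
    have e1 : (w.im : ℂ) ≠ 0 := by exact_mod_cast hw
    have e2 : (z.im : ℂ) ≠ 0 := by exact_mod_cast hz'
    field_simp
  · exact (integrable_S hψ.der.prof (hh.cont_mul cont_inv_im) hz)
  · exact (integrable_S (hψ.der.mul contDiff_id).prof hh hz).const_mul _

theorem hasFDerivAt_S {ψ : ℝ → ℝ} (hψ : ProfS ψ) {h : ℍ → ℂ} (hh : LB h) {z0 : ℂ} (hz0 : 0 < z0.im) :
    HasFDerivAt (S ψ h) (Complex.reCLM.smulRight (Sx ψ h z0) + Complex.imCLM.smulRight (Sy ψ h z0)) z0 := by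
  obtain ⟨K, hK, hK2⟩ := exists_compact_near hz0
  obtain ⟨M, hM0, hM⟩ := hψ.der.prof.bdd
  obtain ⟨C, hC⟩ := hh.2 K hK
  set B := Metric.closedBall z0 (z0.im / 2) with hB
  have hBc : IsCompact B := isCompact_closedBall _ _
  have hcont : ContinuousOn (fun p : ℂ × ℍ => |Pa p.1 p.2| + |Pb p.1 p.2|) (B ×ˢ K) := by
    have h1 : ∀ p ∈ B ×ˢ K, p.1.im * p.2.im ≠ 0 := fun p hp =>
      mul_ne_zero (hK2 p.1 hp.1).1.ne' p.2.im_pos.ne'
    have h2 : ∀ p ∈ B ×ˢ K, 2 * p.1.im * p.2.im ≠ 0 := fun p hp =>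
      mul_ne_zero (mul_ne_zero two_ne_zero (hK2 p.1 hp.1).1.ne') p.2.im_pos.ne'
    have c1 : Continuous (fun p : ℂ × ℍ => p.1.re) := Complex.continuous_re.comp continuous_fst
    have c2 : Continuous (fun p : ℂ × ℍ => p.1.im) := Complex.continuous_im.comp continuous_fst
    have c3 : Continuous (fun p : ℂ × ℍ => p.2.re) := continuous_re.comp continuous_snd
    have c4 : Continuous (fun p : ℂ × ℍ => p.2.im) := continuous_im.comp continuous_snd
    have c5 : ContinuousOn (fun p : ℂ × ℍ => Pa p.1 p.2) (B ×ˢ K) :=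
      (c1.sub c3).continuousOn.div (c2.mul c4).continuousOn h1
    have c6 : ContinuousOn (fun p : ℂ × ℍ => P p.1 p.2) (B ×ˢ K) :=
      ((((c1.sub c3).pow 2).add (c2.pow 2)).add (c4.pow 2)).continuousOn.div
        ((continuous_const.mul c2).mul c4).continuousOn h2
    have c7 : ContinuousOn (fun p : ℂ × ℍ => Pb p.1 p.2) (B ×ˢ K) :=
      (continuousOn_const.div c4.continuousOn fun p _ => p.2.im_pos.ne').sub
        (c6.div c2.continuousOn fun p hp => (hK2 p.1 hp.1).1.ne')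
    exact c5.abs.add c7.abs
  obtain ⟨D, hD⟩ := (hBc.prod hK).exists_bound_of_continuousOn hcont
  set F' : ℂ → ℍ → (ℂ →L[ℝ] ℂ) := fun z w =>
    Complex.reCLM.smulRight (((deriv ψ (P z w) : ℝ) : ℂ) * h w * (Pa z w : ℂ)) +
      Complex.imCLM.smulRight (((deriv ψ (P z w) : ℝ) : ℂ) * h w * (Pb z w : ℂ)) with hF'
  have hI1 : Integrable (fun w => ((deriv ψ (P z0 w) : ℝ) : ℂ) * h w * (Pa z0 w : ℂ)) := by
    have h1 : LB (fun w => (Pa z0 w : ℂ) * h w) := by
      refine hh.cont_mul ?_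
      exact (continuous_const.sub continuous_re).div (continuous_const.mul continuous_im)
        fun w => mul_ne_zero hz0.ne' w.im_pos.ne'
    refine (integrable_S hψ.der.prof h1 hz0).congr (ae_of_all _ fun w => ?_)
    simp only
    ring
  have hI2 : Integrable (fun w => ((deriv ψ (P z0 w) : ℝ) : ℂ) * h w * (Pb z0 w : ℂ)) := by
    have h1 : LB (fun w => (Pb z0 w : ℂ) * h w) := by
      refine hh.cont_mul ?_
      exact cont_inv_im.sub ((cont_P hz0).div_const _)
    refine (integrable_S hψ.der.prof h1 hz0).congr (ae_of_all _ fun w => ?_)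
    simp only
    ring
  have hJ1 : Integrable (fun w => Complex.reCLM.smulRight (((deriv ψ (P z0 w) : ℝ) : ℂ) * h w * (Pa z0 w : ℂ))) :=
    (ContinuousLinearMap.smulRightL ℝ ℂ ℂ Complex.reCLM).integrable_comp hI1
  have hJ2 : Integrable (fun w => Complex.imCLM.smulRight (((deriv ψ (P z0 w) : ℝ) : ℂ) * h w * (Pb z0 w : ℂ))) :=
    (ContinuousLinearMap.smulRightL ℝ ℂ ℂ Complex.imCLM).integrable_comp hI2
  have key : HasFDerivAt (fun z => ∫ w, (ψ (P z w) : ℂ) * h w) (∫ w, F' z0 w) z0 := by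
    refine hasFDerivAt_integral_of_dominated_of_fderiv_le (F := fun z w => (ψ (P z w) : ℂ) * h w)
      (bound := K.indicator fun _ => M * |C| * D) (s := B)
      (Metric.closedBall_mem_nhds _ (by positivity)) ?_ ?_ ?_ ?_ ?_ ?_
    · filter_upwards [Metric.closedBall_mem_nhds z0 (show 0 < z0.im / 2 by positivity)] with z hz
      exact (integrable_S hψ.prof hh (hK2 z hz).1).aestronglyMeasurable
    · exact integrable_S hψ.prof hh hz0
    · exact hJ1.aestronglyMeasurable.add hJ2.aestronglyMeasurable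
    · refine ae_of_all _ fun w z hz => ?_
      have hzp := (hK2 z hz).1
      by_cases hw : w ∈ K
      · rw [Set.indicator_of_mem hw, hF']
        have h1 : |deriv ψ (P z w)| ≤ M := by
          have := hM (⟨z, hzp⟩ : ℍ) w
          rwa [← P_coe] at this
        have h2 : |Pa z w| + |Pb z w| ≤ D := by
          have := hD (z, w) ⟨hz, hw⟩
          exact (le_abs_self _).trans this
        have h3 : ‖h w‖ ≤ |C| := (hC w hw).trans (le_abs_self _)
        have h4 : ∀ (L : ℂ →L[ℝ] ℝ) (_ : ‖L‖ ≤ 1) (c : ℂ), ‖L.smulRight c‖ ≤ ‖c‖ := by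
          intro L hL c
          rw [ContinuousLinearMap.norm_smulRight_apply]
          exact mul_le_of_le_one_left (norm_nonneg _) hL
        have h5 : ‖Complex.reCLM‖ ≤ 1 := by rw [Complex.reCLM_norm]
        have h6 : ‖Complex.imCLM‖ ≤ 1 := by rw [Complex.imCLM_norm]
        refine (norm_add_le _ _).trans ?_
        refine (add_le_add (h4 _ h5 _) (h4 _ h6 _)).trans ?_
        simp only [norm_mul, Complex.norm_real, Real.norm_eq_abs]
        rw [← mul_add]
        exact mul_le_mul (mul_le_mul h1 h3 (norm_nonneg _) hM0) h2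
          (add_nonneg (abs_nonneg _) (abs_nonneg _)) (mul_nonneg hM0 (abs_nonneg _))
      · rw [Set.indicator_of_notMem hw]
        have h1 : deriv ψ (P z w) = 0 := by
          refine hψ.der.2 _ ?_
          by_contra hlt
          rw [not_le] at hlt
          exact hw ((hK2 z hz).2 w hlt.le)
        rw [hF']
        simp [h1]
    · rw [integrable_indicator_iff hK.measurableSet]
      exact integrableOn_const hK.measure_lt_top.ne
    · refine ae_of_all _ fun w z hz => ?_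
      have hzp := (hK2 z hz).1
      have h1 : HasDerivAt ψ (deriv ψ (P z w)) (P z w) :=
        ((hψ.1.differentiable (by simp)).differentiableAt).hasDerivAt
      have h2 := h1.comp_hasFDerivAt z (hasFDerivAt_P hzp w)
      have h3 := (Complex.ofRealCLM.hasFDerivAt.comp z h2).mul_const (h w)
      refine h3.congr_fderiv ?_
      rw [hF']
      ext v
      simp
      ring
  have e : ∫ w, F' z0 w = Complex.reCLM.smulRight (Sx ψ h z0) + Complex.imCLM.smulRight (Sy ψ h z0) := by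
    rw [hF']
    simp only
    rw [integral_add hJ1 hJ2, ← Sx_eq hψ hh hz0, ← Sy_eq hψ hh hz0]
    congr 1
    · exact (ContinuousLinearMap.smulRightL ℝ ℂ ℂ Complex.reCLM).integral_comp_comm hI1
    · exact (ContinuousLinearMap.smulRightL ℝ ℂ ℂ Complex.imCLM).integral_comp_comm hI2
  rw [e] at key
  exact key

lemma isOpen_HH : IsOpen {z : ℂ | 0 < z.im} := isOpen_lt continuous_const Complex.continuous_im

theorem contDiffOn_S (n : ℕ) : ∀ {ψ : ℝ → ℝ} (_ : ProfS ψ) {h : ℍ → ℂ} (_ : LB h),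
    ContDiffOn ℝ n (S ψ h) {z | 0 < z.im} := by
  induction n with
  | zero =>
    intro ψ hψ h hh
    have : ContinuousOn (S ψ h) {z | 0 < z.im} := fun z hz =>
      (hasFDerivAt_S hψ hh hz).continuousAt.continuousWithinAt
    exact_mod_cast contDiffOn_zero.mpr this
  | succ n ih =>
    intro ψ hψ h hh
    have h1 : ContDiffOn ℝ n (Sx ψ h) {z | 0 < z.im} := by
      unfold Sx
      refine ContDiffOn.sub (ContDiffOn.mul ?_ (ih hψ.der (hh.cont_mul cont_inv_im)))
        (ContDiffOn.mul ?_ (ih hψ.der (hh.cont_mul cont_re_im)))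
      · refine Complex.ofRealCLM.contDiff.comp_contDiffOn ?_
        exact (Complex.reCLM.contDiff.contDiffOn).div (Complex.imCLM.contDiff.contDiffOn)
          fun z hz => (ne_of_gt hz : z.im ≠ 0)
      · refine Complex.ofRealCLM.contDiff.comp_contDiffOn ?_
        exact (contDiffOn_const).div (Complex.imCLM.contDiff.contDiffOn)
          fun z hz => (ne_of_gt hz : z.im ≠ 0)
    have h2 : ContDiffOn ℝ n (Sy ψ h) {z | 0 < z.im} := by
      unfold Sy
      refine ContDiffOn.sub (ih hψ.der (hh.cont_mul cont_inv_im))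
        (ContDiffOn.mul ?_ (ih (hψ.der.mul contDiff_id) hh))
      refine Complex.ofRealCLM.contDiff.comp_contDiffOn ?_
      exact (contDiffOn_const).div (Complex.imCLM.contDiff.contDiffOn)
        fun z hz => (ne_of_gt hz : z.im ≠ 0)
    have h3 : ContDiffOn ℝ ((n : ℕ∞) + 1 : ℕ∞) (S ψ h) {z | 0 < z.im} := by
      have h4 : ContDiffOn ℝ ((n : WithTop ℕ∞) + 1) (S ψ h) {z | 0 < z.im} := by
        rw [contDiffOn_succ_iff_hasFDerivWithinAt_of_uniqueDiffOn isOpen_HH.uniqueDiffOn]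
        refine ⟨by simp, fun z => Complex.reCLM.smulRight (Sx ψ h z) + Complex.imCLM.smulRight (Sy ψ h z),
          ?_, fun z hz => (hasFDerivAt_S hψ hh hz).hasFDerivWithinAt⟩
        refine ContDiffOn.add ?_ ?_
        · exact (ContinuousLinearMap.smulRightL ℝ ℂ ℂ Complex.reCLM).contDiff.comp_contDiffOn h1
        · exact (ContinuousLinearMap.smulRightL ℝ ℂ ℂ Complex.imCLM).contDiff.comp_contDiffOn h2
      exact_mod_cast h4
    exact_mod_cast h3

lemma hasDerivAt_Sh {ψ : ℝ → ℝ} (hψ : ProfS ψ) {h : ℍ → ℂ} (hh : LB h) {z : ℂ} (hz : 0 < z.im) (t : ℝ) :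
    HasDerivAt (fun t : ℝ => S ψ h (z + t)) (Sx ψ h (z + t)) t := by
  have h0 : 0 < (z + t).im := by simpa using hz
  have h1 : HasDerivAt (fun t : ℝ => z + (t : ℂ)) 1 t :=
    (Complex.ofRealCLM.hasDerivAt (x := t)).const_add z
  have h2 := (hasFDerivAt_S hψ hh h0).comp_hasDerivAt t h1
  refine h2.congr_deriv ?_
  simp

lemma hasDerivAt_Sv {ψ : ℝ → ℝ} (hψ : ProfS ψ) {h : ℍ → ℂ} (hh : LB h) {z : ℂ} {t : ℝ} (hz : 0 < z.im + t) :
    HasDerivAt (fun t : ℝ => S ψ h (z + t * Complex.I)) (Sy ψ h (z + t * Complex.I)) t := by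
  have h0 : 0 < (z + t * Complex.I).im := by simpa using hz
  have h1 : HasDerivAt (fun t : ℝ => z + (t : ℂ) * Complex.I) (1 * Complex.I) t :=
    ((Complex.ofRealCLM.hasDerivAt (x := t)).mul_const Complex.I).const_add z
  have h2 := (hasFDerivAt_S hψ hh h0).comp_hasDerivAt t h1
  refine h2.congr_deriv ?_
  simp

/-- the profile of the Laplacian -/
def lap (ψ : ℝ → ℝ) (t : ℝ) : ℝ := (t ^ 2 - 1) * deriv (deriv ψ) t + 2 * t * deriv ψ t

lemma lap_profS {ψ : ℝ → ℝ} (hψ : ProfS ψ) : ProfS (lap ψ) := by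
  refine ⟨?_, fun t ht => ?_⟩
  · refine ContDiff.add (ContDiff.mul ?_ hψ.der.der.1) (ContDiff.mul ?_ hψ.der.1)
    · fun_prop
    · fun_prop
  · rw [lap, hψ.der.der.2 t ht, hψ.der.2 t ht]
    ring

lemma int6 {f1 f2 f3 f4 f5 f6 : ℍ → ℂ} (i1 : Integrable f1) (i2 : Integrable f2) (i3 : Integrable f3)
    (i4 : Integrable f4) (i5 : Integrable f5) (i6 : Integrable f6) :
    (∫ w, f1 w) + (∫ w, f2 w) - (∫ w, f3 w) + ((∫ w, f4 w) + (∫ w, f5 w) - ∫ w, f6 w) =
      ∫ w, (f1 w + f2 w - f3 w + (f4 w + f5 w - f6 w)) := by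
  have a1 : Integrable (fun w => f1 w + f2 w) := i1.add i2
  have a2 : Integrable (fun w => f1 w + f2 w - f3 w) := a1.sub i3
  have a3 : Integrable (fun w => f4 w + f5 w) := i4.add i5
  have a4 : Integrable (fun w => f4 w + f5 w - f6 w) := a3.sub i6
  rw [integral_add a2 a4, integral_sub a1 i3, integral_sub a3 i6, integral_add i1 i2,
    integral_add i4 i5]

theorem laplace_S {ψ : ℝ → ℝ} (hψ : ProfS ψ) {h : ℍ → ℂ} (hh : LB h) {z : ℂ} (hz : 0 < z.im) :
    ((z.im : ℂ)) ^ 2 * (deriv (deriv (fun t : ℝ => S ψ h (z + (t : ℂ)))) 0 +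
      deriv (deriv (fun t : ℝ => S ψ h (z + (t : ℂ) * Complex.I))) 0) = S (lap ψ) h z := by
  have hzc : (z.im : ℂ) ≠ 0 := by exact_mod_cast hz.ne'
  have hhi := hh.cont_mul cont_inv_im
  have hhr := hh.cont_mul cont_re_im
  have hP1 := hψ.der
  have hP2 : ProfS (fun t => t * deriv ψ t) := hψ.der.mul contDiff_id
  -- the horizontal second derivative
  have e1 : deriv (fun t : ℝ => S ψ h (z + (t : ℂ))) = fun t : ℝ => Sx ψ h (z + t) := by
    ext t
    exact (hasDerivAt_Sh hψ hh hz t).deriv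
  have e2 : deriv (fun t : ℝ => Sx ψ h (z + t)) 0 =
      ((1 / z.im : ℝ) : ℂ) * S (deriv ψ) (fun w => ((1 / w.im : ℝ) : ℂ) * h w) z +
      ((z.re / z.im : ℝ) : ℂ) * Sx (deriv ψ) (fun w => ((1 / w.im : ℝ) : ℂ) * h w) z -
      ((1 / z.im : ℝ) : ℂ) * Sx (deriv ψ) (fun w => ((w.re / w.im : ℝ) : ℂ) * h w) z := by
    have h1 : (fun t : ℝ => Sx ψ h (z + t)) = fun t : ℝ =>
        (((z.re + t) / z.im : ℝ) : ℂ) * S (deriv ψ) (fun w => ((1 / w.im : ℝ) : ℂ) * h w) (z + t) -
        ((1 / z.im : ℝ) : ℂ) * S (deriv ψ) (fun w => ((w.re / w.im : ℝ) : ℂ) * h w) (z + t) := by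
      ext t
      unfold Sx
      simp
    rw [h1]
    have h2 : HasDerivAt (fun t : ℝ => (((z.re + t) / z.im : ℝ) : ℂ)) ((1 / z.im : ℝ) : ℂ) 0 := by
      have h3 : HasDerivAt (fun t : ℝ => (z.re + t) / z.im) (1 / z.im) 0 :=
        ((hasDerivAt_id (0 : ℝ)).const_add z.re).div_const z.im
      exact h3.ofReal_comp
    have h4 := (h2.mul (hasDerivAt_Sh hP1 hhi hz 0)).sub ((hasDerivAt_Sh hP1 hhr hz 0).const_mul ((1 / z.im : ℝ) : ℂ))
    have h5 := h4.deriv
    rw [show ((0 : ℝ) : ℂ) = 0 from rfl, add_zero, add_zero] at h5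
    exact h5
  -- the vertical second derivative
  have e3 : deriv (deriv (fun t : ℝ => S ψ h (z + (t : ℂ) * Complex.I))) 0 =
      deriv (fun t : ℝ => Sy ψ h (z + (t : ℂ) * Complex.I)) 0 := by
    refine Filter.EventuallyEq.deriv_eq ?_
    filter_upwards [lt_mem_nhds (show -z.im < 0 by linarith)] with t ht
    exact (hasDerivAt_Sv hψ hh (by linarith)).deriv
  have e4 : deriv (fun t : ℝ => Sy ψ h (z + (t : ℂ) * Complex.I)) 0 =
      Sy (deriv ψ) (fun w => ((1 / w.im : ℝ) : ℂ) * h w) z +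
      ((1 / z.im ^ 2 : ℝ) : ℂ) * S (fun t => t * deriv ψ t) h z -
      ((1 / z.im : ℝ) : ℂ) * Sy (fun t => t * deriv ψ t) h z := by
    have h1 : (fun t : ℝ => Sy ψ h (z + (t : ℂ) * Complex.I)) = fun t : ℝ =>
        S (deriv ψ) (fun w => ((1 / w.im : ℝ) : ℂ) * h w) (z + (t : ℂ) * Complex.I) -
        ((1 / (z.im + t) : ℝ) : ℂ) * S (fun t => t * deriv ψ t) h (z + (t : ℂ) * Complex.I) := by
      ext t
      unfold Sy
      simp
    rw [h1]
    have h2 : HasDerivAt (fun t : ℝ => ((1 / (z.im + t) : ℝ) : ℂ)) ((-(1 / z.im ^ 2) : ℝ) : ℂ) 0 := by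
      have h3 : HasDerivAt (fun t : ℝ => 1 / (z.im + t)) (-(1 / z.im ^ 2)) 0 := by
        have h4 : HasDerivAt (fun t : ℝ => z.im + t) 1 0 := (hasDerivAt_id (0 : ℝ)).const_add z.im
        have h5 := h4.inv (by simpa using hz.ne')
        simp only [one_div]
        refine h5.congr_deriv ?_
        simp [neg_div]
      exact h3.ofReal_comp
    have h6 := (hasDerivAt_Sv (t := 0) hP1 hhi (by simpa using hz)).sub
      (h2.mul (hasDerivAt_Sv (t := 0) hP2 hh (by simpa using hz)))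
    have h7 := h6.deriv
    rw [show ((0 : ℝ) : ℂ) = 0 from rfl, zero_mul, add_zero, add_zero] at h7
    refine Eq.trans h7 ?_
    push_cast
    ring
  rw [e1, e2, e3, e4, ← Sx_eq hP1 hhi hz, ← Sx_eq hP1 hhr hz, ← Sy_eq hP1 hhi hz, ← Sy_eq hP2 hh hz]
  have hPac : Continuous (Pa z) := (continuous_const.sub continuous_re).div
    (continuous_const.mul continuous_im) fun w => mul_ne_zero hz.ne' w.im_pos.ne'
  have hPbc : Continuous (Pb z) := cont_inv_im.sub ((cont_P hz).div_const _)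
  have gen : ∀ {χ : ℝ → ℝ} (_ : ProfS χ) {k : ℍ → ℂ} (_ : LB k) {g : ℍ → ℝ} (_ : Continuous g),
      Integrable (fun w => ((χ (P z w) : ℝ) : ℂ) * k w * (g w : ℂ)) := by
    intro χ hχ k hk g hg
    refine (integrable_S hχ.prof (hk.cont_mul hg) hz).congr (ae_of_all _ fun w => ?_)
    simp only
    ring
  have hd : ∀ t, deriv (fun t => t * deriv ψ t) t = deriv ψ t + t * deriv (deriv ψ) t := by
    intro t
    have h1 : HasDerivAt (deriv ψ) (deriv (deriv ψ) t) t :=
      ((hP1.1.differentiable (by simp)).differentiableAt).hasDerivAt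
    have h2 := (hasDerivAt_id t).mul h1
    have h3 := h2.deriv
    simp only [id, one_mul] at h3
    exact h3
  have i1 := (integrable_S hP1.prof hhi hz).const_mul ((1 / z.im : ℝ) : ℂ)
  have i2 := (gen hP1.der hhi hPac).const_mul ((z.re / z.im : ℝ) : ℂ)
  have i3 := (gen hP1.der hhr hPac).const_mul ((1 / z.im : ℝ) : ℂ)
  have i4 := gen hP1.der hhi hPbc
  have i5 := (integrable_S hP2.prof hh hz).const_mul ((1 / z.im ^ 2 : ℝ) : ℂ)
  have i6 := (gen hP2.der hh hPbc).const_mul ((1 / z.im : ℝ) : ℂ)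
  unfold S
  rw [← integral_const_mul, ← integral_const_mul, ← integral_const_mul, ← integral_const_mul,
    ← integral_const_mul, int6 i1 i2 i3 i4 i5 i6, ← integral_const_mul]
  congr 1
  ext w
  have hw := w.im_pos.ne'
  have e5 : (w.im : ℂ) ≠ 0 := by exact_mod_cast hw
  simp only [hd, lap]
  have key : ∀ A B : ℝ, z.im ^ 2 * (((1 / z.im) * (A * (1 / w.im)) + (z.re / z.im) * (B * (1 / w.im) * Pa z w) -
      (1 / z.im) * (B * (w.re / w.im) * Pa z w)) + (B * (1 / w.im) * Pb z w + (1 / z.im ^ 2) * (P z w * A) -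
      (1 / z.im) * ((A + P z w * B) * Pb z w))) = ((P z w) ^ 2 - 1) * B + 2 * P z w * A := by
    intro A B
    unfold Pb Pa P
    field_simp
    ring
  have key2 := key (deriv ψ (P z w)) (deriv (deriv ψ) (P z w))
  rw [← key2]
  push_cast
  ring

end

end Pool.Agent.V8H27.OM
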