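import Pool.Agent.V8H27.OM.Sum

/-!
# Unfolding
-/

set_option autoImplicit false

open UpperHalfPlane MeasureTheory ModularGroup
open Matrix hiding J
open scoped MatrixGroups ENNReal Modular Topology ComplexConjugate

namespace Pool.Agent.V8H27.OM

noncomputable section

lemma me_sl (γ : SL(2, ℤ)) : MeasurableEmbedding (fun z : ℍ => γ • z) := me_gl (toG γ)

lemma mp_sl (γ : SL(2, ℤ)) : MeasurePreserving (fun z : ℍ => γ • z) volume volume := mp_gl (toG γ)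

instance : Countable SL(2, ℤ) := Pool.Agent.H369R2.S3a.countable_SL

/-- the hyperbolic plane is covered twice by the translates of the fundamental domain -/
lemma measure_sum_eq : Measure.sum (fun γ : SL(2, ℤ) => (volume.restrict 𝒟ᵒ).map (fun z : ℍ => γ • z)) =
    (2 : ℝ≥0∞) • (volume : Measure ℍ) := by
  ext s hs
  rw [Measure.sum_apply _ hs]
  have h := Pool.Agent.H369R2.unfold_fd (s.indicator 1) (measurable_one.indicator hs)
  rw [lintegral_indicator_one hs] at h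
  rw [Measure.smul_apply, smul_eq_mul, ← h]
  congr 1
  ext γ
  rw [Measure.map_apply (continuous_sl γ).measurable hs]
  have h2 : (fun z : ℍ => s.indicator (1 : ℍ → ℝ≥0∞) (γ • z)) =
      ((fun z : ℍ => γ • z) ⁻¹' s).indicator 1 := by
    ext z; rfl
  rw [h2, lintegral_indicator_one ((continuous_sl γ).measurable hs)]

variable {E : Type*} [NormedAddCommGroup E] [NormedSpace ℝ E]

theorem unfold_int {F : ℍ → E} (hF : Integrable F) :
    HasSum (fun γ : SL(2, ℤ) => ∫ z in 𝒟ᵒ, F (γ • z)) ((2 : ℝ) • ∫ z, F z) := by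
  have h1 : Integrable F (Measure.sum (fun γ : SL(2, ℤ) =>
      (volume.restrict 𝒟ᵒ).map (fun z : ℍ => γ • z))) := by
    rw [measure_sum_eq]
    exact hF.smul_measure (by norm_num)
  have h2 := hasSum_integral_measure h1
  rw [measure_sum_eq, integral_smul_measure] at h2
  have h3 : ∀ γ : SL(2, ℤ), ∫ z, F z ∂((volume.restrict 𝒟ᵒ).map (fun z : ℍ => γ • z)) =
      ∫ z in 𝒟ᵒ, F (γ • z) := fun γ => (me_sl γ).integral_map F
  simp only [h3] at h2
  simpa using h2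

/-- bounded measurable odd functions which are invariant under the modular group -/
def OI (f : ℍ → ℂ) : Prop := BM f ∧ (∀ γ : SL(2, ℤ), ∀ z, f (γ • z) = f z) ∧ ∀ z, f (J • z) = - f z

lemma fdo_J {w : ℍ} : J • w ∈ 𝒟ᵒ ↔ w ∈ 𝒟ᵒ := by
  have h : ∀ w : ℍ, w ∈ 𝒟ᵒ → J • w ∈ 𝒟ᵒ := by
    intro w hw
    refine ⟨?_, ?_⟩
    · rw [coe_J_smul, Complex.normSq_neg, Complex.normSq_conj]; exact hw.1
    · rw [J_re, abs_neg]; exact hw.2
  refine ⟨fun hw => ?_, h w⟩
  have := h _ hw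
  rwa [J_J] at this

lemma finite_close (z w : ℍ) : {γ : SL(2, ℤ) | rho z (γ • w) < c0}.Finite := by
  obtain ⟨g, hg⟩ := exists_smul_mem_fd z
  obtain ⟨h, hh⟩ := exists_smul_mem_fd w
  have h1 := (finite_SN (⌈√((g • z).im * (h • w).im)⌉ + 2)).preimage
    (f := fun γ : SL(2, ℤ) => g * γ * h⁻¹) (by
      intro a _ b _ hab
      have := mul_right_cancel hab
      exact mul_left_cancel this)
  refine h1.subset fun γ hγ => ?_
  refine mem_SN_of_close hg hh ?_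
  have e : (g * γ * h⁻¹) • h • w = g • γ • w := by
    rw [mul_smul, inv_smul_smul, mul_smul]
  rw [e, rho_sl]
  exact hγ

lemma summable_K0 {φ : ℝ → ℝ} (hφ : Prof φ) (z w : ℍ) :
    Summable (fun γ : SL(2, ℤ) => φ (rho z (γ • w))) := by
  refine summable_of_ne_finset_zero (s := (finite_close z w).toFinset) fun γ hγ => ?_
  rw [Set.Finite.mem_toFinset] at hγ
  exact hφ.2 _ (not_lt.mp hγ)

theorem int_Kk {φ : ℝ → ℝ} (hφ : Prof φ) {f : ℍ → ℂ} (hf : OI f) (z : ℍ) :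
    ∫ w in 𝒟ᵒ, (Kk φ z w : ℂ) * f w = 4 * opA φ f z := by
  obtain ⟨hb, hi, hodd⟩ := hf
  have hI := integrable_ker hφ hb.lb z
  have h1 := unfold_int hI
  have h2 := unfold_int hI.norm
  have e1 : ∀ γ : SL(2, ℤ), ∀ w : ℍ, (φ (rho z (γ • w)) : ℂ) * f (γ • w) =
      (φ (rho z (γ • w)) : ℂ) * f w := fun γ w => by rw [hi]
  simp only [e1] at h1 h2
  have h3 : ∀ γ : SL(2, ℤ), Integrable (fun w => (φ (rho z (γ • w)) : ℂ) * f w)
      (volume.restrict 𝒟ᵒ) := by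
    intro γ
    have h := ((mp_sl γ).integrable_comp_of_integrable hI).restrict (s := 𝒟ᵒ)
    have e2 : (fun w => (φ (rho z w) : ℂ) * f w) ∘ (fun w : ℍ => γ • w) =
        (fun w => (φ (rho z (γ • w)) : ℂ) * f w) := by
      ext w; exact e1 γ w
    rwa [e2] at h
  -- the reflected terms
  have hmpJ : MeasurePreserving (fun w : ℍ => J • w) (volume.restrict 𝒟ᵒ) (volume.restrict 𝒟ᵒ) := by
    have h := (mp_gl J).restrict_preimage_emb (me_gl J) (𝒟ᵒ : Set ℍ)
    have e : (fun z : ℍ => J • z) ⁻¹' 𝒟ᵒ = 𝒟ᵒ := by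
      ext w; exact fdo_J
    rwa [e] at h
  have e3 : ∀ γ : SL(2, ℤ), (fun w => (φ (rho z (γ • J • w)) : ℂ) * f w) =
      (fun w => -((φ (rho z (γ • w)) : ℂ) * f w)) ∘ (fun w : ℍ => J • w) := by
    intro γ
    ext w
    simp only [Function.comp, hodd]
    ring
  have h4 : ∀ γ : SL(2, ℤ), Integrable (fun w => (φ (rho z (γ • J • w)) : ℂ) * f w)
      (volume.restrict 𝒟ᵒ) := by
    intro γ
    rw [e3]
    exact hmpJ.integrable_comp_of_integrable (h3 γ).neg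
  have h5 : ∀ γ : SL(2, ℤ), ∫ w in 𝒟ᵒ, (φ (rho z (γ • J • w)) : ℂ) * f w =
      -∫ w in 𝒟ᵒ, (φ (rho z (γ • w)) : ℂ) * f w := by
    intro γ
    rw [e3, ← integral_neg]
    exact hmpJ.integral_comp (me_gl J) (fun w => -((φ (rho z (γ • w)) : ℂ) * f w))
  have h6 : ∀ γ : SL(2, ℤ), ∫ w in 𝒟ᵒ, ‖(φ (rho z (γ • J • w)) : ℂ) * f w‖ =
      ∫ w in 𝒟ᵒ, ‖(φ (rho z (γ • w)) : ℂ) * f w‖ := by
    intro γ
    have e4 : (fun w => ‖(φ (rho z (γ • J • w)) : ℂ) * f w‖) =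
        (fun w => ‖(φ (rho z (γ • w)) : ℂ) * f w‖) ∘ (fun w : ℍ => J • w) := by
      ext w
      simp only [Function.comp, hodd, norm_mul, norm_neg]
    rw [e4]
    exact hmpJ.integral_comp (me_gl J) (fun w => ‖(φ (rho z (γ • w)) : ℂ) * f w‖)
  have h7 : ∀ γ : SL(2, ℤ), Integrable (fun w => (φ (rho z (γ • w)) : ℂ) * f w -
      (φ (rho z (γ • J • w)) : ℂ) * f w) (volume.restrict 𝒟ᵒ) := fun γ => (h3 γ).sub (h4 γ)
  have h8 : Summable (fun γ : SL(2, ℤ) => ∫ w in 𝒟ᵒ, ‖(φ (rho z (γ • w)) : ℂ) * f w -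
      (φ (rho z (γ • J • w)) : ℂ) * f w‖) := by
    refine Summable.of_nonneg_of_le (fun γ => integral_nonneg fun w => norm_nonneg _) (fun γ => ?_)
      (h2.summable.add h2.summable)
    calc ∫ w in 𝒟ᵒ, ‖(φ (rho z (γ • w)) : ℂ) * f w - (φ (rho z (γ • J • w)) : ℂ) * f w‖
        ≤ ∫ w in 𝒟ᵒ, (‖(φ (rho z (γ • w)) : ℂ) * f w‖ + ‖(φ (rho z (γ • J • w)) : ℂ) * f w‖) :=
          integral_mono (h7 γ).norm ((h3 γ).norm.add (h4 γ).norm) fun w => norm_sub_le _ _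
      _ = _ := by rw [integral_add (h3 γ).norm (h4 γ).norm, h6]
  have h9 := hasSum_integral_of_summable_integral_norm h7 h8
  have h10 : ∀ w, ∑' γ : SL(2, ℤ), ((φ (rho z (γ • w)) : ℂ) * f w -
      (φ (rho z (γ • J • w)) : ℂ) * f w) = (Kk φ z w : ℂ) * f w := by
    intro w
    have s1 : Summable (fun γ : SL(2, ℤ) => (φ (rho z (γ • w)) : ℂ) * f w) :=
      (Complex.hasSum_ofReal.mpr (summable_K0 hφ z w).hasSum).summable.mul_right _
    have s2 : Summable (fun γ : SL(2, ℤ) => (φ (rho z (γ • J • w)) : ℂ) * f w) :=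
      (Complex.hasSum_ofReal.mpr (summable_K0 hφ z (J • w)).hasSum).summable.mul_right _
    rw [s1.tsum_sub s2, tsum_mul_right, tsum_mul_right, Kk, K0, K0]
    push_cast
    ring
  simp only [h10] at h9
  have h11 : ∀ γ : SL(2, ℤ), ∫ w in 𝒟ᵒ, ((φ (rho z (γ • w)) : ℂ) * f w -
      (φ (rho z (γ • J • w)) : ℂ) * f w) = 2 * ∫ w in 𝒟ᵒ, (φ (rho z (γ • w)) : ℂ) * f w := by
    intro γ
    rw [integral_sub (h3 γ) (h4 γ), h5]
    ring
  simp only [h11] at h9
  have h12 := h9.unique (h1.mul_left 2)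
  rw [h12, Complex.real_smul]
  unfold opA
  push_cast
  ring

/-- a small box in the right half of the fundamental domain -/
def Bx : Set ℍ := {z | |z.re - 1 / 4| < 1 / 20 ∧ |z.im - 2| < 1 / 20}

lemma Bx_fdo : Bx ⊆ 𝒟ᵒ := by
  intro z hz
  obtain ⟨h1, h2⟩ := hz
  rw [abs_lt] at h1 h2
  refine ⟨?_, ?_⟩
  · rw [Complex.normSq_apply]
    simp only [coe_re, coe_im]
    nlinarith
  · rw [abs_lt]
    constructor <;> linarith

lemma Bx_open : IsOpen Bx := by
  refine IsOpen.inter ?_ ?_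
  · exact isOpen_lt ((continuous_re.sub continuous_const).abs) continuous_const
  · exact isOpen_lt ((continuous_im.sub continuous_const).abs) continuous_const

lemma Bx_nonempty : Bx.Nonempty := by
  refine ⟨⟨⟨1 / 4, 2⟩, by norm_num⟩, ?_, ?_⟩
  · show |(1 / 4 : ℝ) - 1 / 4| < 1 / 20
    norm_num
  · show |(2 : ℝ) - 2| < 1 / 20
    norm_num

lemma Bx_far {z w : ℍ} (hz : z ∈ Bx) (hw : w ∈ Bx) (γ : SL(2, ℤ)) : c0 ≤ rho z (γ • J • w) := by
  by_contra hlt
  rw [not_le] at hlt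
  have h1 := close_ineq hlt
  have h2 := (close_im hlt).1
  obtain ⟨hz1, hz2⟩ := hz
  obtain ⟨hw1, hw2⟩ := hw
  rw [abs_lt] at hz1 hz2 hw1 hw2
  by_cases hc : γ 1 0 = 0
  · obtain ⟨e1, e2⟩ := par_smul hc (J • w)
    rw [J_re] at e1
    rw [J_im] at e2
    rw [e1, e2] at h1
    set n : ℤ := γ 0 1 * γ 1 1 with hn
    have h3 : (4 / 10) ^ 2 ≤ (z.re - (-w.re + (n : ℝ))) ^ 2 := by
      rcases le_or_gt n 0 with hn0 | hn0
      · have : (n : ℝ) ≤ 0 := by exact_mod_cast hn0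
        apply pow_le_pow_left₀ (by norm_num)
        linarith
      · have : (1 : ℝ) ≤ n := by exact_mod_cast hn0
        have h5 : (4 / 10) ^ 2 ≤ (-(z.re - (-w.re + (n : ℝ)))) ^ 2 :=
          pow_le_pow_left₀ (by norm_num) (by linarith) 2
        rwa [neg_sq] at h5
    have h4 : z.im * w.im < (205 / 100) ^ 2 := by nlinarith
    have h5 : 0 ≤ (z.im - w.im) ^ 2 := sq_nonneg _
    nlinarith
  · have h3 := im_sl γ (J • w)
    rw [J_im, J_re] at h3
    have hc1 : (1 : ℝ) ≤ (γ 1 0 : ℝ) ^ 2 := by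
      have : (1 : ℤ) ≤ (γ 1 0) ^ 2 := by
        have := sq_pos_of_ne_zero hc
        omega
      exact_mod_cast this
    have hV := (γ • J • w).im_pos
    have hw0 := w.im_pos
    have h6 : (γ • J • w).im * (γ 1 0 * w.im) ^ 2 ≤ w.im := by
      have : 0 ≤ (γ • J • w).im * (γ 1 0 * -w.re + γ 1 1) ^ 2 := by positivity
      rw [mul_add] at h3
      linarith
    have h7 : (γ • J • w).im * w.im ≤ 1 := by
      have h8 : (γ • J • w).im * w.im * w.im ≤ 1 * w.im := by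
        have : (γ • J • w).im * (w.im ^ 2) ≤ (γ • J • w).im * (γ 1 0 * w.im) ^ 2 := by
          refine mul_le_mul_of_nonneg_left ?_ hV.le
          rw [mul_pow]
          nlinarith [sq_nonneg w.im]
        nlinarith
      exact le_of_mul_le_mul_right h8 hw0
    nlinarith

theorem Kk_pos {φ : ℝ → ℝ} (hφ : Prof φ) (h0 : ∀ t, 0 ≤ φ t) (h1 : ∀ t, t < c0 → 0 < φ t)
    {z w : ℍ} (hz : z ∈ Bx) (hw : w ∈ Bx) : 0 < Kk φ z w := by
  have e1 : K0 φ z (J • w) = 0 := by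
    unfold K0
    have : ∀ γ : SL(2, ℤ), φ (rho z (γ • J • w)) = 0 := fun γ => hφ.2 _ (Bx_far hz hw γ)
    simp only [this, tsum_zero]
  have e2 : φ (rho z w) ≤ K0 φ z w := by
    have := (summable_K0 hφ z w).le_tsum 1 (fun γ _ => h0 _)
    rwa [one_smul] at this
  have e3 : 0 < φ (rho z w) := by
    apply h1
    obtain ⟨hz1, hz2⟩ := hz
    obtain ⟨hw1, hw2⟩ := hw
    rw [abs_lt] at hz1 hz2 hw1 hw2
    have hz0 := z.im_pos
    have hw0 := w.im_pos
    unfold rho c0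
    have : ((z.re - w.re) ^ 2 + (z.im - w.im) ^ 2) / (2 * z.im * w.im) < 1 / 100 := by
      rw [div_lt_iff₀ (by positivity)]
      have h5 : (z.re - w.re) ^ 2 ≤ (1 / 10) ^ 2 := sq_le_sq' (by linarith) (by linarith)
      have h6 : (z.im - w.im) ^ 2 ≤ (1 / 10) ^ 2 := sq_le_sq' (by linarith) (by linarith)
      nlinarith
    linarith
  unfold Kk
  linarith

end

end Pool.Agent.V8H27.OM
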