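import Pool.Agent.V8H27.OM.HS
import Pool.Agent.V8H27.OM.Unf
import Pool.Agent.H369R2.S3b

/-!
# Spectral theory of the odd automorphic kernel
-/

set_option autoImplicit false

open UpperHalfPlane MeasureTheory ModularGroup
open Matrix hiding J
open scoped MatrixGroups ENNReal Modular Topology ComplexConjugate ContDiff

namespace Pool.Agent.V8H27.OM

noncomputable section

lemma volume_pos_of_open {s : Set ℍ} (hs : IsOpen s) (hne : s.Nonempty) : 0 < volume s := by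
  rw [volume_eq_lintegral, setLIntegral_pos_iff]
  · have : (Function.support fun z : ℂ => (((1 / ‖z.im‖₊) ^ 2 : NNReal) : ℝ≥0∞)) ∩ ((↑) '' s) =
        ((↑) '' s) := by
      rw [Set.inter_eq_right]
      rintro _ ⟨z, hz, rfl⟩
      have him : z.im ≠ 0 := z.im_pos.ne'
      simp [him]
    rw [this]
    apply IsOpen.measure_pos
    · exact isOpenEmbedding_coe.isOpenMap _ hs
    · obtain ⟨z, hz⟩ := hne
      exact ⟨z, z, hz, rfl⟩
  · fun_prop

/-! ### Smooth profiles -/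

/-- smooth profiles which vanish on `[c0, ∞)` -/
def ProfS (φ : ℝ → ℝ) : Prop := ContDiff ℝ ∞ φ ∧ ∀ t, c0 ≤ t → φ t = 0

lemma ProfS.prof {φ : ℝ → ℝ} (h : ProfS φ) : Prof φ := ⟨h.1.continuous, h.2⟩

lemma ProfS.der {φ : ℝ → ℝ} (h : ProfS φ) : ProfS (deriv φ) := by
  refine ⟨(contDiff_infty_iff_deriv.mp h.1).2, ?_⟩
  have h1 : ∀ t, c0 < t → deriv φ t = 0 := by
    intro t ht
    have h2 : φ =ᶠ[𝓝 t] fun _ => 0 := by
      filter_upwards [lt_mem_nhds ht] with s hs using h.2 s hs.le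
    rw [h2.deriv_eq, deriv_const]
  intro t ht
  rcases ht.lt_or_eq with h2 | h2
  · exact h1 t h2
  · subst h2
    have hc : Continuous (deriv φ) := (contDiff_infty_iff_deriv.mp h.1).2.continuous
    have h3 : Filter.Tendsto (deriv φ) (𝓝[>] c0) (𝓝 (deriv φ c0)) :=
      (hc.tendsto c0).mono_left nhdsWithin_le_nhds
    have h4 : Filter.Tendsto (deriv φ) (𝓝[>] c0) (𝓝 0) := by
      refine tendsto_const_nhds.congr' ?_
      filter_upwards [self_mem_nhdsWithin] with s hs using (h1 s hs).symm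
    exact tendsto_nhds_unique h3 h4

lemma ProfS.lip {φ : ℝ → ℝ} (h : ProfS φ) : ∃ L : ℝ, 0 ≤ L ∧
    ∀ s t, 1 ≤ s → 1 ≤ t → |φ s - φ t| ≤ L * |s - t| := by
  obtain ⟨M, hM⟩ := (isCompact_Icc (a := (1 : ℝ)) (b := c0)).exists_bound_of_continuousOn
    h.der.1.continuous.continuousOn
  refine ⟨max M 0, le_max_right _ _, fun s t hs ht => ?_⟩
  have h1 : ∀ x ∈ Set.Ici (1 : ℝ), ‖deriv φ x‖ ≤ max M 0 := by
    intro x hx
    by_cases hc : x ≤ c0
    · exact (hM x ⟨hx, hc⟩).trans (le_max_left _ _)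
    · rw [h.der.2 x (not_le.mp hc).le, norm_zero]; exact le_max_right _ _
  have h2 := (convex_Ici (1 : ℝ)).norm_image_sub_le_of_norm_deriv_le
    (fun x _ => (h.1.differentiable (by simp)).differentiableAt) h1 ht hs
  exact h2

/-- the profile -/
def ph (t : ℝ) : ℝ := expNegInvGlue (c0 - t)

lemma ph_profS : ProfS ph := by
  refine ⟨expNegInvGlue.contDiff.comp (contDiff_const.sub contDiff_id), fun t ht => ?_⟩
  exact expNegInvGlue.zero_of_nonpos (by linarith)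

lemma ph_nonneg (t : ℝ) : 0 ≤ ph t := expNegInvGlue.nonneg _

lemma ph_pos (t : ℝ) (ht : t < c0) : 0 < ph t := expNegInvGlue.pos_of_pos (by linarith)

/-! ### The operator on the fundamental domain -/

/-- the invariant measure on the fundamental domain -/
def nu : Measure ℍ := (volume : Measure ℍ).restrict 𝒟ᵒ

instance : IsFiniteMeasure nu := ⟨by
  rw [nu, Measure.restrict_apply_univ]
  exact lt_top_iff_ne_top.mpr Pool.Agent.H369R2.volume_fdo.1⟩

lemma measurableSet_fdo' : MeasurableSet (𝒟ᵒ : Set ℍ) := isOpen_fdo.measurableSet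

lemma fdo_sub_fd {z : ℍ} (hz : z ∈ 𝒟ᵒ) : z ∈ 𝒟 := ⟨hz.1.le, hz.2.le⟩

open Classical in
/-- the kernel cut off outside the fundamental domain -/
def kc (φ : ℝ → ℝ) (z w : ℍ) : ℂ := if z ∈ (𝒟ᵒ : Set ℍ) ∧ w ∈ (𝒟ᵒ : Set ℍ) then (Kk φ z w : ℂ) else 0

lemma kc_meas {φ : ℝ → ℝ} (hφ : Prof φ) : Measurable (Function.uncurry (kc φ)) := by
  classical
  have h1 : MeasurableSet {p : ℍ × ℍ | p.1 ∈ (𝒟ᵒ : Set ℍ) ∧ p.2 ∈ (𝒟ᵒ : Set ℍ)} :=
    (measurable_fst measurableSet_fdo').inter (measurable_snd measurableSet_fdo')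
  exact Measurable.ite h1 (Complex.measurable_ofReal.comp (measurable_Kk hφ)) measurable_const

lemma exists_op {φ : ℝ → ℝ} (hφ : ProfS φ) : ∃ C : ℝ, 0 ≤ C ∧ (∀ z w, ‖kc φ z w‖ ≤ C) ∧
    ∃ A : Lp ℂ 2 nu →L[ℂ] Lp ℂ 2 nu, Pool.Agent.H269.IsKer nu (kc φ) A ∧
      IsCompactOperator A ∧ A.IsSymmetric := by
  classical
  obtain ⟨L, hL0, hL⟩ := hφ.lip
  obtain ⟨C, hC0, hC⟩ := Kk_bound hφ.prof hL0 hL
  have hb : ∀ z w, ‖kc φ z w‖ ≤ C := by
    intro z w
    unfold kc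
    split_ifs with h
    · rw [Complex.norm_real]; exact hC z (fdo_sub_fd h.1) w (fdo_sub_fd h.2)
    · rw [norm_zero]; exact hC0
  refine ⟨C, hC0, hb, hs_op nu (kc φ) (kc_meas hφ.prof) C hC0 hb fun z w => ?_⟩
  unfold kc
  rw [Kk_symm]
  by_cases h1 : z ∈ (𝒟ᵒ : Set ℍ) <;> by_cases h2 : w ∈ (𝒟ᵒ : Set ℍ) <;> simp [h1, h2]

lemma kc_ae {φ : ℝ → ℝ} (z : ℍ) (hz : z ∈ (𝒟ᵒ : Set ℍ)) (g : ℍ → ℂ) :
    ∫ w, kc φ z w * g w ∂nu = ∫ w in 𝒟ᵒ, (Kk φ z w : ℂ) * g w := by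
  unfold nu
  refine setIntegral_congr_fun measurableSet_fdo' fun w hw => ?_
  simp only [kc, hz, hw, and_self, if_true]

lemma OI.add {f g : ℍ → ℂ} (hf : OI f) (hg : OI g) : OI (f + g) := by
  obtain ⟨⟨h1, C, hC⟩, h2, h3⟩ := hf
  obtain ⟨⟨k1, D, hD⟩, k2, k3⟩ := hg
  refine ⟨⟨h1.add k1, C + D, fun w => (norm_add_le _ _).trans (add_le_add (hC w) (hD w))⟩,
    fun γ z => ?_, fun z => ?_⟩
  · simp only [Pi.add_apply, h2, k2]
  · simp only [Pi.add_apply, h3, k3]; ring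

lemma OI.smul {f : ℍ → ℂ} (hf : OI f) (c : ℂ) : OI (c • f) := by
  obtain ⟨⟨h1, C, hC⟩, h2, h3⟩ := hf
  refine ⟨⟨h1.const_smul c, ‖c‖ * C, fun w => ?_⟩, fun γ z => ?_, fun z => ?_⟩
  · rw [Pi.smul_apply, smul_eq_mul, norm_mul]
    exact mul_le_mul_of_nonneg_left (hC w) (norm_nonneg _)
  · simp only [Pi.smul_apply, h2]
  · simp only [Pi.smul_apply, h3, smul_eq_mul]; ring

lemma OI.zero : OI 0 := ⟨⟨measurable_zero, 0, fun w => by simp⟩, fun γ z => rfl, fun z => by simp⟩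

lemma opA_add {φ : ℝ → ℝ} (hφ : Prof φ) {f g : ℍ → ℂ} (hf : LB f) (hg : LB g) :
    opA φ (f + g) = opA φ f + opA φ g := by
  ext z
  rw [Pi.add_apply, opA, opA, opA, ← integral_add (integrable_ker hφ hf z) (integrable_ker hφ hg z)]
  congr 1
  ext w
  simp only [Pi.add_apply]
  ring

lemma opA_smul (φ : ℝ → ℝ) (c : ℂ) (f : ℍ → ℂ) : opA φ (c • f) = c • opA φ f := by
  ext z
  rw [Pi.smul_apply, opA, opA, smul_eq_mul, ← integral_const_mul]
  congr 1
  ext w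
  simp only [Pi.smul_apply, smul_eq_mul]
  ring

lemma opA_zero (φ : ℝ → ℝ) : opA φ 0 = 0 := by
  have := opA_smul φ 0 0
  simpa using this

/-- the eigenspaces among odd invariant bounded functions -/
def VV (φ : ℝ → ℝ) (hφ : Prof φ) (m : ℂ) : Submodule ℂ (ℍ → ℂ) where
  carrier := {f | OI f ∧ opA φ f = m • f}
  add_mem' := by
    rintro f g ⟨h1, h2⟩ ⟨k1, k2⟩
    refine ⟨h1.add k1, ?_⟩
    rw [opA_add hφ h1.1.lb k1.1.lb, h2, k2, smul_add]
  zero_mem' := by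
    refine ⟨OI.zero, ?_⟩
    rw [opA_zero, smul_zero]
  smul_mem' := by
    rintro c f ⟨h1, h2⟩
    refine ⟨h1.smul c, ?_⟩
    rw [opA_smul, h2, smul_comm]

lemma mem_VV {φ : ℝ → ℝ} {hφ : Prof φ} {m : ℂ} {f : ℍ → ℂ} :
    f ∈ VV φ hφ m ↔ OI f ∧ opA φ f = m • f := Iff.rfl

lemma OI.memLp {f : ℍ → ℂ} (hf : OI f) : MemLp f 2 nu :=
  MemLp.of_bound hf.1.1.aestronglyMeasurable hf.1.2.choose (ae_of_all _ hf.1.2.choose_spec)

lemma ae_nu {P : ℍ → Prop} (h : ∀ z ∈ (𝒟ᵒ : Set ℍ), P z) : ∀ᵐ z ∂nu, P z :=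
  (ae_restrict_mem measurableSet_fdo').mono h

/-- an odd invariant function is an eigenfunction as soon as it is one almost everywhere on the domain -/
lemma opA_eq_of_op {φ : ℝ → ℝ} (hφ : Prof φ) {A : Lp ℂ 2 nu →L[ℂ] Lp ℂ 2 nu}
    (hA : Pool.Agent.H269.IsKer nu (kc φ) A) {f : ℍ → ℂ} (hf : OI f) :
    (A (hf.memLp.toLp f) : ℍ → ℂ) =ᵐ[nu] fun z => 4 * opA φ f z := by
  refine (hA (hf.memLp.toLp f)).2.trans ?_
  refine ae_nu fun z hz => ?_
  show ∫ w, kc φ z w * ((hf.memLp.toLp f : Lp ℂ 2 nu) : ℍ → ℂ) w ∂nu = 4 * opA φ f z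
  rw [← int_Kk hφ hf z, ← kc_ae z hz f]
  refine integral_congr_ae ?_
  filter_upwards [hf.memLp.coeFn_toLp] with w hw
  rw [hw]

theorem finite_VV {φ : ℝ → ℝ} (hφ : ProfS φ) {m : ℂ} (hm : m ≠ 0) :
    FiniteDimensional ℂ (VV φ hφ.prof m) := by
  obtain ⟨C, hC0, hC, A, hA, hAc, hAs⟩ := exists_op hφ
  have hfd := ContinuousLinearMap.finite_dimensional_eigenspace hAc (4 * m) (by simpa using hm)
  let Φ : VV φ hφ.prof m →ₗ[ℂ] Module.End.eigenspace (A : Lp ℂ 2 nu →ₗ[ℂ] Lp ℂ 2 nu) (4 * m) :=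
    { toFun := fun f => ⟨f.2.1.memLp.toLp f, by
        rw [Module.End.mem_eigenspace_iff]
        refine Lp.ext ?_
        refine (opA_eq_of_op hφ.prof hA f.2.1).trans ?_
        refine Filter.EventuallyEq.trans ?_ (Lp.coeFn_smul _ _).symm
        filter_upwards [f.2.1.memLp.coeFn_toLp] with z hz
        rw [Pi.smul_apply, hz, f.2.2, Pi.smul_apply, smul_eq_mul, smul_eq_mul]
        ring⟩
      map_add' := fun f g => Subtype.ext (MemLp.toLp_add f.2.1.memLp g.2.1.memLp)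
      map_smul' := fun c f => Subtype.ext (MemLp.toLp_const_smul c f.2.1.memLp) }
  refine FiniteDimensional.of_injective Φ ?_
  rw [← LinearMap.ker_eq_bot, LinearMap.ker_eq_bot']
  intro f hf
  have h1 : (f.2.1.memLp.toLp (f : ℍ → ℂ) : Lp ℂ 2 nu) = 0 := by
    have := congrArg Subtype.val hf
    exact this
  have h2 : (f : ℍ → ℂ) =ᵐ[nu] 0 := by
    have h := f.2.1.memLp.coeFn_toLp
    rw [h1] at h
    exact h.symm.trans (Lp.coeFn_zero ℂ 2 nu)
  apply Subtype.ext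
  ext z
  have h3 := int_Kk hφ.prof f.2.1 z
  rw [f.2.2] at h3
  have h4 : ∫ w in 𝒟ᵒ, (Kk φ z w : ℂ) * (f : ℍ → ℂ) w = 0 := by
    have : (fun w => (Kk φ z w : ℂ) * (f : ℍ → ℂ) w) =ᵐ[nu] 0 := by
      filter_upwards [h2] with w hw
      rw [hw]; simp
    rw [← nu, integral_congr_ae this]
    simp
  rw [h4, Pi.smul_apply, smul_eq_mul] at h3
  have h5 := mul_eq_zero.mp h3.symm
  rcases h5 with h5 | h5
  · norm_num at h5
  · rcases mul_eq_zero.mp h5 with h6 | h6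
    · exact absurd h6 hm
    · exact h6

lemma nu_Bx : 0 < nu Bx := by
  rw [nu, Measure.restrict_apply Bx_open.measurableSet, Set.inter_eq_left.mpr Bx_fdo]
  exact volume_pos_of_open Bx_open Bx_nonempty

lemma int_pos {φ : ℝ → ℝ} (hφ : Prof φ) (h0 : ∀ t, 0 ≤ φ t) (h1 : ∀ t, t < c0 → 0 < φ t)
    {C : ℝ} (hC : ∀ z w, ‖kc φ z w‖ ≤ C) {z : ℍ} (hz : z ∈ Bx) : 0 < ∫ w in Bx, Kk φ z w ∂nu := by
  have hmk : Measurable (fun w => Kk φ z w) := by
    have h2 : Measurable (fun w : ℍ => ((z, w) : ℍ × ℍ)) := measurable_const.prodMk measurable_id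
    have h3 := (measurable_Kk hφ).comp h2
    exact h3
  have hi : IntegrableOn (fun w => Kk φ z w) Bx nu := by
    refine Measure.integrableOn_of_bounded (M := C) (measure_lt_top nu Bx).ne
      hmk.aestronglyMeasurable ?_
    filter_upwards [ae_restrict_mem Bx_open.measurableSet] with w hw
    have h9 := hC z w
    rw [kc, if_pos ⟨Bx_fdo hz, Bx_fdo hw⟩, Complex.norm_real] at h9
    exact h9
  have hn : 0 ≤ᵐ[nu.restrict Bx] (fun w => Kk φ z w) := by
    filter_upwards [ae_restrict_mem Bx_open.measurableSet] with w hw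
    exact (Kk_pos hφ h0 h1 hz hw).le
  rw [setIntegral_pos_iff_support_of_nonneg_ae hn hi]
  have : Function.support (fun w => Kk φ z w) ∩ Bx = Bx := by
    rw [Set.inter_eq_right]
    intro w hw
    rw [Function.mem_support]
    exact (Kk_pos hφ h0 h1 hz hw).ne'
  rw [this]
  exact nu_Bx

/-- the operator is not zero -/
lemma op_ne_zero {φ : ℝ → ℝ} (hφ : Prof φ) (h0 : ∀ t, 0 ≤ φ t) (h1 : ∀ t, t < c0 → 0 < φ t)
    {C : ℝ} (hC : ∀ z w, ‖kc φ z w‖ ≤ C)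
    {A : Lp ℂ 2 nu →L[ℂ] Lp ℂ 2 nu} (hA : Pool.Agent.H269.IsKer nu (kc φ) A) : A ≠ 0 := by
  classical
  intro hA0
  set g : ℍ → ℂ := Bx.indicator 1 with hg
  have hBm : MeasurableSet Bx := Bx_open.measurableSet
  have hgm : MemLp g 2 nu :=
    MemLp.of_bound ((measurable_one.indicator hBm).aestronglyMeasurable) 1 (ae_of_all _ fun z => by
      rw [hg]
      by_cases h : z ∈ Bx <;> simp [h])
  have h2 := (hA (hgm.toLp g)).2
  rw [hA0, _root_.zero_apply] at h2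
  have h3 : ∀ᵐ z ∂nu, ∫ w, kc φ z w * g w ∂nu = 0 := by
    have h4 := Lp.coeFn_zero ℂ 2 nu
    filter_upwards [h2, h4] with z hz hz'
    rw [hz'] at hz
    rw [Pi.zero_apply] at hz
    rw [hz]
    refine integral_congr_ae ?_
    filter_upwards [hgm.coeFn_toLp] with w hw
    rw [hw]
  have h5 : ∃ z ∈ Bx, ∫ w, kc φ z w * g w ∂nu = 0 := by
    by_contra hcon
    push Not at hcon
    have h6 : nu Bx = 0 := by
      refine measure_mono_null ?_ (ae_iff.mp h3)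
      intro z hz
      exact hcon z hz
    exact nu_Bx.ne' h6
  obtain ⟨z, hz, hz0⟩ := h5
  have h6 : ∫ w, kc φ z w * g w ∂nu = ((∫ w in Bx, Kk φ z w ∂nu : ℝ) : ℂ) := by
    rw [← integral_complex_ofReal, ← integral_indicator hBm]
    refine integral_congr_ae (ae_of_all _ fun w => ?_)
    by_cases hw : w ∈ Bx
    · simp [hg, hw, kc, Bx_fdo hz, Bx_fdo hw]
    · simp [hg, hw]
  rw [h6, Complex.ofReal_eq_zero] at hz0
  exact (int_pos hφ h0 h1 hC hz).ne' hz0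

theorem exists_VV : ∃ m : ℂ, m ≠ 0 ∧ VV ph ph_profS.prof m ≠ ⊥ := by
  obtain ⟨C, hC0, hC, A, hA, hAc, hAs⟩ := exists_op ph_profS
  have hne := op_ne_zero ph_profS.prof ph_nonneg ph_pos hC hA
  have h1 := (ContinuousLinearMap.eq_zero_of_forall_hasEigenvalue_eq_zero hAc hAs).not.mpr hne
  push Not at h1
  obtain ⟨m, hm, hm0⟩ := h1
  obtain ⟨u, hu⟩ := hm.exists_hasEigenvector
  have hu1 : A u = m • u := hu.apply_eq_smul
  have hu2 : u ≠ 0 := hu.2
  have hum : Measurable (u : ℍ → ℂ) := (Lp.stronglyMeasurable u).measurable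
  have hui : Integrable (u : ℍ → ℂ) nu := (Lp.memLp u).integrable (by norm_num)
  set f : ℍ → ℂ := fun z => m⁻¹ * ∫ w in 𝒟ᵒ, (Kk ph z w : ℂ) * (u : ℍ → ℂ) w with hf
  obtain ⟨L, hL0, hL⟩ := ph_profS.lip
  obtain ⟨D, hD0, hD⟩ := Kk_bound ph_profS.prof hL0 hL
  have hK : Measurable (fun p : ℍ × ℍ => (Kk ph p.1 p.2 : ℂ)) :=
    Complex.measurable_ofReal.comp (measurable_Kk ph_profS.prof)
  have hOI : OI f := by
    refine ⟨⟨?_, ‖m⁻¹‖ * (D * ∫ w in 𝒟ᵒ, ‖(u : ℍ → ℂ) w‖), ?_⟩, ?_, ?_⟩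
    · refine Measurable.const_mul ?_ _
      have h : Measurable (fun p : ℍ × ℍ => (Kk ph p.1 p.2 : ℂ) * (u : ℍ → ℂ) p.2) :=
        hK.mul (hum.comp measurable_snd)
      exact (h.stronglyMeasurable.integral_prod_right' (ν := nu)).measurable
    · intro z
      rw [hf]
      simp only [norm_mul]
      refine mul_le_mul_of_nonneg_left ?_ (norm_nonneg _)
      obtain ⟨g, hg⟩ := exists_smul_mem_fd z
      have h2 : ∀ w, Kk ph z w = Kk ph (g • z) w := fun w => (Kk_left ph g z w).symm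
      simp only [h2]
      rw [← integral_const_mul]
      refine norm_integral_le_of_norm_le (hui.norm.const_mul D) ?_
      refine (ae_restrict_mem measurableSet_fdo').mono fun w hw => ?_
      rw [norm_mul, Complex.norm_real]
      exact mul_le_mul_of_nonneg_right (hD _ hg w (fdo_sub_fd hw)) (norm_nonneg _)
    · intro γ z
      simp only [hf, Kk_left]
    · intro z
      simp only [hf, Kk_J_left]
      rw [← mul_neg, ← integral_neg]
      congr 2
      ext w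
      push_cast
      ring
  have hfu : f =ᵐ[nu] (u : ℍ → ℂ) := by
    have h3 : (A u : ℍ → ℂ) =ᵐ[nu] fun z => m * (u : ℍ → ℂ) z := by
      rw [hu1]
      refine (Lp.coeFn_smul _ _).trans (ae_of_all _ fun z => ?_)
      rfl
    filter_upwards [h3, (hA u).2, ae_nu (P := fun z => z ∈ (𝒟ᵒ : Set ℍ)) fun z hz => hz] with z h4 h5 hz
    rw [h4] at h5
    rw [kc_ae z hz] at h5
    rw [hf]
    simp only
    rw [← h5, ← mul_assoc, inv_mul_cancel₀ hm0, one_mul]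
  refine ⟨m / 4, by simpa using hm0, ?_⟩
  intro hbot
  have hmem : f ∈ VV ph ph_profS.prof (m / 4) := by
    refine ⟨hOI, ?_⟩
    ext z
    have h6 := int_Kk ph_profS.prof hOI z
    have h7 : ∫ w in 𝒟ᵒ, (Kk ph z w : ℂ) * f w = ∫ w in 𝒟ᵒ, (Kk ph z w : ℂ) * (u : ℍ → ℂ) w := by
      refine integral_congr_ae ?_
      filter_upwards [hfu] with w hw
      rw [hw]
    have h8 : ∫ w in 𝒟ᵒ, (Kk ph z w : ℂ) * (u : ℍ → ℂ) w = m * f z := by
      rw [hf]
      simp only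
      rw [← mul_assoc, mul_inv_cancel₀ hm0, one_mul]
    rw [h7, h8] at h6
    rw [Pi.smul_apply, smul_eq_mul]
    linear_combination -h6 / 4
  rw [hbot, Submodule.mem_bot] at hmem
  apply hu2
  refine Lp.ext ?_
  rw [hmem] at hfu
  exact hfu.symm.trans (Lp.coeFn_zero _ _ _).symm

end

end Pool.Agent.V8H27.OM
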