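import Pool.Agent.V8H27.OM.Ker

/-!
# Automorphic kernels for the modular group
-/

set_option autoImplicit false

open UpperHalfPlane MeasureTheory ModularGroup
open Matrix hiding J
open scoped MatrixGroups ENNReal Modular Topology ComplexConjugate

namespace Pool.Agent.V8H27.OM

noncomputable section

/-- the automorphic kernel -/
def K0 (φ : ℝ → ℝ) (z w : ℍ) : ℝ := ∑' γ : SL(2, ℤ), φ (rho z (γ • w))

/-- the odd automorphic kernel -/
def Kk (φ : ℝ → ℝ) (z w : ℍ) : ℝ := K0 φ z w - K0 φ z (J • w)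

/-- the group element of `GL(2, ℝ)` -/
def toG (γ : SL(2, ℤ)) : GL (Fin 2) ℝ := (γ : GL (Fin 2) ℝ)

lemma toG_smul (γ : SL(2, ℤ)) (z : ℍ) : toG γ • z = γ • z := rfl

lemma rho_sl (γ : SL(2, ℤ)) (z w : ℍ) : rho (γ • z) (γ • w) = rho z w := rho_smul (toG γ) z w

lemma rho_sl_left (γ : SL(2, ℤ)) (z w : ℍ) : rho (γ • z) w = rho z (γ⁻¹ • w) := by
  conv_lhs => rw [← smul_inv_smul γ w]
  rw [rho_sl]

lemma K0_symm (φ : ℝ → ℝ) (z w : ℍ) : K0 φ z w = K0 φ w z := by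
  unfold K0
  rw [← (Equiv.inv SL(2, ℤ)).tsum_eq]
  congr 1
  ext γ
  simp only [Equiv.inv_apply]
  rw [← rho_sl_left, rho_symm]

lemma K0_right (φ : ℝ → ℝ) (δ : SL(2, ℤ)) (z w : ℍ) : K0 φ z (δ • w) = K0 φ z w := by
  unfold K0
  rw [← (Equiv.mulRight δ).tsum_eq (fun γ => φ (rho z (γ • w)))]
  congr 1
  ext γ
  simp only [Equiv.coe_mulRight, mul_smul]

lemma K0_left (φ : ℝ → ℝ) (δ : SL(2, ℤ)) (z w : ℍ) : K0 φ (δ • z) w = K0 φ z w := by
  rw [K0_symm, K0_right, K0_symm]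

lemma K0_J (φ : ℝ → ℝ) (z w : ℍ) : K0 φ (J • z) (J • w) = K0 φ z w := by
  unfold K0
  rw [← cjE.tsum_eq]
  congr 1
  ext γ
  have : cjE γ • J • w = J • γ • w := (J_smul γ w).symm
  rw [this, rho_smul]

lemma K0_J' (φ : ℝ → ℝ) (z w : ℍ) : K0 φ (J • z) w = K0 φ z (J • w) := by
  conv_lhs => rw [← J_J w]
  rw [K0_J]

lemma Kk_symm (φ : ℝ → ℝ) (z w : ℍ) : Kk φ z w = Kk φ w z := by
  unfold Kk
  rw [K0_symm φ z w, K0_symm φ z (J • w), K0_J']

lemma Kk_left (φ : ℝ → ℝ) (δ : SL(2, ℤ)) (z w : ℍ) : Kk φ (δ • z) w = Kk φ z w := by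
  unfold Kk
  rw [K0_left, K0_left]

lemma Kk_J_left (φ : ℝ → ℝ) (z w : ℍ) : Kk φ (J • z) w = - Kk φ z w := by
  unfold Kk
  rw [K0_J, K0_J']
  ring

lemma continuous_sl (γ : SL(2, ℤ)) : Continuous (fun z : ℍ => γ • z) := continuous_gl (toG γ)

lemma measurable_K0 {φ : ℝ → ℝ} (hφ : Prof φ) : Measurable (fun p : ℍ × ℍ => K0 φ p.1 p.2) := by
  unfold K0
  refine Measurable.tsum fun γ => ?_
  have h2 : Measurable (fun p : ℍ × ℍ => ((p.1, γ • p.2) : ℍ × ℍ)) :=
    measurable_fst.prodMk ((continuous_sl γ).measurable.comp measurable_snd)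
  have h3 := hφ.cont2.measurable.comp h2
  exact h3

lemma measurable_Kk {φ : ℝ → ℝ} (hφ : Prof φ) : Measurable (fun p : ℍ × ℍ => Kk φ p.1 p.2) := by
  have h2 : Measurable (fun p : ℍ × ℍ => ((p.1, J • p.2) : ℍ × ℍ)) :=
    measurable_fst.prodMk ((continuous_gl J).measurable.comp measurable_snd)
  have h3 := (measurable_K0 hφ).comp h2
  have h4 := (measurable_K0 hφ).sub h3
  exact h4

/-! ### Finiteness and bounds on the fundamental domain -/

/-- elements with entries bounded by `N` -/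
def SN (N : ℤ) : Set SL(2, ℤ) := {γ | ∀ i j, |γ i j| ≤ N}

lemma finite_SN (N : ℤ) : (SN N).Finite := by
  have h1 : (Set.Icc (fun _ _ => -N : Fin 2 → Fin 2 → ℤ) (fun _ _ => N)).Finite := Set.finite_Icc _ _
  have h2 : Set.InjOn (fun γ : SL(2, ℤ) => (fun i j => γ i j : Fin 2 → Fin 2 → ℤ)) (SN N) := by
    intro γ _ δ _ h
    ext i j
    exact congrFun (congrFun h i) j
  refine Set.Finite.of_finite_image (h1.subset ?_) h2
  rintro _ ⟨γ, hγ, rfl⟩
  exact ⟨fun i j => (abs_le.mp (hγ i j)).1, fun i j => (abs_le.mp (hγ i j)).2⟩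

lemma im_sl (γ : SL(2, ℤ)) (w : ℍ) :
    (γ • w).im * ((γ 1 0 * w.re + γ 1 1) ^ 2 + (γ 1 0 * w.im) ^ 2) = w.im := by
  rw [ModularGroup.im_smul_eq_div_normSq, ModularGroup.denom_apply, Complex.normSq_apply]
  have h : (((γ 1 0 : ℂ) * w + γ 1 1).re * ((γ 1 0 : ℂ) * w + γ 1 1).re +
      ((γ 1 0 : ℂ) * w + γ 1 1).im * ((γ 1 0 : ℂ) * w + γ 1 1).im) =
      (γ 1 0 * w.re + γ 1 1) ^ 2 + (γ 1 0 * w.im) ^ 2 := by
    simp
    ring
  rw [h]
  have hpos : (γ 1 0 * w.re + γ 1 1 : ℝ) ^ 2 + (γ 1 0 * w.im) ^ 2 ≠ 0 := by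
    rw [← h, ← Complex.normSq_apply]
    have := denom_ne_zero (toG γ) w
    rw [ne_eq, Complex.normSq_eq_zero]
    exact this
  rw [div_mul_cancel₀ _ hpos]

/-- consequences of closeness -/
lemma close_ineq {z v : ℍ} (h : rho z v < c0) :
    ((z.re - v.re) ^ 2 + (z.im - v.im) ^ 2) * 50 < z.im * v.im := by
  unfold rho c0 at h
  have h1 := z.im_pos
  have h2 := v.im_pos
  have h3 : ((z.re - v.re) ^ 2 + (z.im - v.im) ^ 2) / (2 * z.im * v.im) < 1 / 100 := by linarith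
  rw [div_lt_iff₀ (by positivity)] at h3
  linarith

lemma fd_im {z : ℍ} (hz : z ∈ 𝒟) : 3 ≤ 4 * z.im ^ 2 := three_le_four_mul_im_sq_of_mem_fd hz

lemma fd_re {z : ℍ} (hz : z ∈ 𝒟) : |z.re| ≤ 1 / 2 := hz.2

lemma close_im {z v : ℍ} (h : rho z v < c0) : 86 / 100 * z.im ≤ v.im ∧ 86 / 100 * v.im ≤ z.im := by
  have h1 := close_ineq h
  have h2 := z.im_pos
  have h3 := v.im_pos
  have h4 : 0 ≤ (z.re - v.re) ^ 2 := sq_nonneg _
  have h5 : (z.im - v.im) ^ 2 * 50 < z.im * v.im := by nlinarith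
  constructor
  · by_contra hlt
    rw [not_le] at hlt
    nlinarith
  · by_contra hlt
    rw [not_le] at hlt
    nlinarith

lemma row_of_close {z w : ℍ} (hz : z ∈ 𝒟) (hw : w ∈ 𝒟) {γ : SL(2, ℤ)}
    (h : rho z (γ • w) < c0) (hc : γ 1 0 ≠ 0) : |γ 1 0| ≤ 1 ∧ |γ 1 1| ≤ 1 := by
  have hZ := fd_im hz
  have hW := fd_im hw
  have hZ0 := z.im_pos
  have hW0 := w.im_pos
  have hV0 := (γ • w).im_pos
  have h1 := (close_im h).1
  have h2 := im_sl γ w
  set V := (γ • w).im with hV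
  set W := w.im with hWd
  set Z := z.im with hZd
  set c : ℝ := (γ 1 0 : ℝ) with hcd
  set d : ℝ := (γ 1 1 : ℝ) with hdd
  have hc1 : 1 ≤ c ^ 2 := by
    have : (1 : ℤ) ≤ (γ 1 0) ^ 2 := by
      have := sq_pos_of_ne_zero hc
      omega
    rw [hcd]
    exact_mod_cast this
  have hV2 : 55 / 100 ≤ V ^ 2 := by
    have : (86 / 100 * Z) ^ 2 ≤ V ^ 2 := pow_le_pow_left₀ (by positivity) h1 2
    nlinarith
  have h3 : V * (c ^ 2 * W) ≤ 1 := by
    have h4 : V * (c * W) ^ 2 ≤ W := by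
      have : 0 ≤ V * (c * w.re + d) ^ 2 := by positivity
      rw [mul_add] at h2
      linarith
    have h5 : V * (c ^ 2 * W) * W ≤ 1 * W := by nlinarith
    exact le_of_mul_le_mul_right h5 hW0
  have hVW : 64 / 100 ≤ V * W := by
    have h6 : (64 / 100) ^ 2 ≤ (V * W) ^ 2 := by
      rw [mul_pow]
      nlinarith
    exact le_of_sq_le_sq h6 (by positivity)
  have hcle : |γ 1 0| ≤ 1 := by
    have h7 : c ^ 2 < 4 := by nlinarith
    have h8 : (γ 1 0) ^ 2 < 4 := by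
      rw [hcd] at h7
      exact_mod_cast h7
    rw [abs_le]
    constructor <;> nlinarith
  refine ⟨hcle, ?_⟩
  have hW1 : W * V ≤ 1 := by nlinarith
  have h8 : (c * w.re + d) ^ 2 * V ≤ W := by
    have : 0 ≤ V * (c * W) ^ 2 := by positivity
    rw [mul_add] at h2
    linarith
  have h9 : (c * w.re + d) ^ 2 * V ^ 2 ≤ 1 := by nlinarith
  have h10 : (c * w.re + d) ^ 2 < (145 / 100) ^ 2 := by
    have := sq_nonneg (c * w.re + d)
    nlinarith
  have h11 : |c * w.re + d| < 145 / 100 := abs_lt_of_sq_lt_sq h10 (by norm_num)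
  have h12 : |c * w.re| ≤ 1 / 2 := by
    rw [abs_mul]
    have h13 : |c| ≤ 1 := by
      rw [hcd]
      exact_mod_cast hcle
    have h14 := fd_re hw
    calc |c| * |w.re| ≤ 1 * (1 / 2) := mul_le_mul h13 h14 (abs_nonneg _) zero_le_one
      _ = 1 / 2 := by norm_num
  have h15 : |d| < 2 := by
    have : |d| ≤ |c * w.re + d| + |c * w.re| := by
      have := abs_sub (c * w.re + d) (c * w.re)
      simpa using this
    linarith
  have h16 : |γ 1 1| < 2 := by
    rw [hdd] at h15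
    exact_mod_cast h15
  omega

lemma entries_of_close {z w : ℍ} (hz : z ∈ 𝒟) (hw : w ∈ 𝒟) {γ : SL(2, ℤ)}
    (h : rho z (γ • w) < c0) (hc : γ 1 0 ≠ 0) : γ ∈ SN 2 := by
  obtain ⟨h1, h2⟩ := row_of_close hz hw h hc
  have hinv : ((γ⁻¹ : SL(2, ℤ)) : Matrix (Fin 2) (Fin 2) ℤ) = !![γ 1 1, -γ 0 1; -γ 1 0, γ 0 0] := by
    rw [Matrix.SpecialLinearGroup.coe_inv, Matrix.adjugate_fin_two]
  have h10 : (γ⁻¹) 1 0 = -γ 1 0 := by
    have := congrFun (congrFun hinv 1) 0
    simpa using this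
  have h11 : (γ⁻¹) 1 1 = γ 0 0 := by
    have := congrFun (congrFun hinv 1) 1
    simpa using this
  have h' : rho w (γ⁻¹ • z) < c0 := by
    rw [← rho_sl_left, rho_symm]; exact h
  obtain ⟨-, h3⟩ := row_of_close hw hz h' (by rw [h10]; exact neg_ne_zero.mpr hc)
  rw [h11] at h3
  have hdet := γ.det_coe
  rw [Matrix.det_fin_two] at hdet
  have hc1 : γ 1 0 = 1 ∨ γ 1 0 = -1 := by
    rw [abs_le] at h1
    omega
  rw [abs_le] at h1 h2 h3
  have hb : |γ 0 1| ≤ 2 := by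
    rw [abs_le]
    rcases hc1 with hc1 | hc1
    · rw [hc1] at hdet
      constructor <;> nlinarith
    · rw [hc1] at hdet
      constructor <;> nlinarith
  intro i j
  fin_cases i <;> fin_cases j
  · show |γ 0 0| ≤ 2
    rw [abs_le]; omega
  · exact hb
  · show |γ 1 0| ≤ 2
    rw [abs_le]; omega
  · show |γ 1 1| ≤ 2
    rw [abs_le]; omega

lemma par {γ : SL(2, ℤ)} (hc : γ 1 0 = 0) :
    (γ 0 0 = 1 ∧ γ 1 1 = 1) ∨ (γ 0 0 = -1 ∧ γ 1 1 = -1) := by
  have hdet := γ.det_coe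
  rw [Matrix.det_fin_two, hc, mul_zero, sub_zero] at hdet
  exact Int.mul_eq_one_iff_eq_one_or_neg_one.mp hdet

lemma par_smul {γ : SL(2, ℤ)} (hc : γ 1 0 = 0) (w : ℍ) :
    (γ • w).re = w.re + (γ 0 1 * γ 1 1 : ℤ) ∧ (γ • w).im = w.im := by
  have h : ((γ • w : ℍ) : ℂ) = w + (γ 0 1 * γ 1 1 : ℤ) := by
    rw [sl_coe, hc]
    rcases par hc with ⟨h1, h2⟩ | ⟨h1, h2⟩
    · rw [h1, h2]; simp
    · rw [h1, h2]; push_cast; ring
  constructor
  · have := congrArg Complex.re h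
    simpa using this
  · have := congrArg Complex.im h
    simpa using this

lemma fd_J {w : ℍ} (hw : w ∈ 𝒟) : J • w ∈ 𝒟 := by
  refine ⟨?_, ?_⟩
  · rw [coe_J_smul, Complex.normSq_neg, Complex.normSq_conj]; exact hw.1
  · rw [J_re, abs_neg]; exact hw.2

/-- size of the translations which matter -/
lemma par_close {z w : ℍ} (hz : z ∈ 𝒟) (hw : w ∈ 𝒟) {γ : SL(2, ℤ)} (hc : γ 1 0 = 0)
    (h : rho z (γ • w) < c0) : |z.re - (γ 0 1 * γ 1 1 : ℤ)| ≤ √(z.im * w.im) := by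
  obtain ⟨h1, h2⟩ := par_smul hc w
  have h3 := close_ineq h
  rw [h1, h2] at h3
  set n : ℝ := ((γ 0 1 * γ 1 1 : ℤ) : ℝ) with hn
  set Y : ℝ := √(z.im * w.im) with hY
  have hz0 := z.im_pos
  have hw0 := w.im_pos
  have hY2 : Y ^ 2 = z.im * w.im := Real.sq_sqrt (by positivity)
  have hY0 : 0 < Y := Real.sqrt_pos.mpr (by positivity)
  have hZ := fd_im hz
  have hW := fd_im hw
  have h4 : 86 / 100 ≤ z.im := by nlinarith
  have h5 : 86 / 100 ≤ w.im := by nlinarith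
  have hY3 : 86 / 100 ≤ Y := by
    have : (86 / 100) ^ 2 ≤ Y ^ 2 := by rw [hY2]; nlinarith
    exact le_of_sq_le_sq this hY0.le
  have h6 : (z.re - (w.re + n)) ^ 2 < (Y / 7) ^ 2 := by
    have : 0 ≤ (z.im - w.im) ^ 2 := sq_nonneg _
    rw [div_pow, hY2]
    nlinarith
  have h7 : |z.re - (w.re + n)| < Y / 7 := abs_lt_of_sq_lt_sq h6 (by positivity)
  have h8 := fd_re hw
  have h9 : |z.re - n| ≤ |z.re - (w.re + n)| + |w.re| := by
    have := abs_add_le (z.re - (w.re + n)) w.re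
    refine le_trans (le_of_eq ?_) this
    congr 1
    ring
  linarith

lemma mem_SN_of_close {z w : ℍ} (hz : z ∈ 𝒟) (hw : w ∈ 𝒟) {γ : SL(2, ℤ)}
    (h : rho z (γ • w) < c0) : γ ∈ SN (⌈√(z.im * w.im)⌉ + 2) := by
  have hY : 0 ≤ √(z.im * w.im) := Real.sqrt_nonneg _
  have hY' : 0 ≤ ⌈√(z.im * w.im)⌉ := Int.ceil_nonneg hY
  by_cases hc : γ 1 0 = 0
  · have h1 := par_close hz hw hc h
    have h2 := fd_re hz
    have h3 : |((γ 0 1 * γ 1 1 : ℤ) : ℝ)| ≤ √(z.im * w.im) + 1 / 2 := by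
      have := abs_sub z.re (z.re - (γ 0 1 * γ 1 1 : ℤ))
      rw [sub_sub_cancel] at this
      linarith
    have h4 : |γ 0 1 * γ 1 1| ≤ ⌈√(z.im * w.im)⌉ + 1 := by
      have h5 : ((|γ 0 1 * γ 1 1| : ℤ) : ℝ) ≤ ((⌈√(z.im * w.im)⌉ + 1 : ℤ) : ℝ) := by
        have := Int.le_ceil (√(z.im * w.im))
        push_cast at h3 ⊢
        linarith
      exact_mod_cast h5
    have h6 : |γ 0 1| ≤ ⌈√(z.im * w.im)⌉ + 1 := by
      rcases par hc with ⟨-, h7⟩ | ⟨-, h7⟩
      · rwa [h7, mul_one] at h4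
      · rwa [h7, mul_neg, mul_one, abs_neg] at h4
    intro i j
    fin_cases i <;> fin_cases j
    · show |γ 0 0| ≤ _
      rcases par hc with ⟨h7, -⟩ | ⟨h7, -⟩ <;> rw [h7] <;> norm_num <;> omega
    · show |γ 0 1| ≤ _
      omega
    · show |γ 1 0| ≤ _
      rw [hc, abs_zero]; omega
    · show |γ 1 1| ≤ _
      rcases par hc with ⟨-, h7⟩ | ⟨-, h7⟩ <;> rw [h7] <;> norm_num <;> omega
  · intro i j
    have := entries_of_close hz hw h hc i j
    omega

/-- the number of integers close to a real number -/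
lemma card_near (x Y : ℝ) (hY : 0 ≤ Y) :
    ((Finset.Icc ⌈x - Y⌉ ⌊x + Y⌋).card : ℝ) ≤ 2 * Y + 1 := by
  rw [Int.card_Icc]
  by_cases h : 0 ≤ ⌊x + Y⌋ + 1 - ⌈x - Y⌉
  · have h1 : (((⌊x + Y⌋ + 1 - ⌈x - Y⌉).toNat : ℕ) : ℝ) = ((⌊x + Y⌋ + 1 - ⌈x - Y⌉ : ℤ) : ℝ) := by
      exact_mod_cast congrArg (fun k : ℤ => (k : ℝ)) (Int.toNat_of_nonneg h)
    rw [h1]
    push_cast
    have h2 := Int.floor_le (x + Y)
    have h3 := Int.le_ceil (x - Y)
    linarith
  · rw [Int.toNat_of_nonpos (by omega)]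
    push_cast
    linarith

lemma sum_le_of_ne {ι : Type*} {f : ι → ℝ} (h0 : ∀ i, 0 ≤ f i) {s t : Finset ι}
    (h : ∀ i ∈ s, f i ≠ 0 → i ∈ t) : ∑ i ∈ s, f i ≤ ∑ i ∈ t, f i := by
  classical
  rw [← Finset.sum_filter_ne_zero]
  refine Finset.sum_le_sum_of_subset_of_nonneg ?_ (fun i _ _ => h0 i)
  intro i hi
  exact h i (Finset.mem_filter.mp hi).1 (Finset.mem_filter.mp hi).2

theorem Kk_bound {φ : ℝ → ℝ} (hφ : Prof φ) {L : ℝ} (hL0 : 0 ≤ L)
    (hL : ∀ s t, 1 ≤ s → 1 ≤ t → |φ s - φ t| ≤ L * |s - t|) :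
    ∃ C : ℝ, 0 ≤ C ∧ ∀ z ∈ 𝒟, ∀ w ∈ 𝒟, |Kk φ z w| ≤ C := by
  obtain ⟨M, hM0, hM⟩ := hφ.bdd
  set N0 : ℝ := ((finite_SN 2).toFinset.card : ℝ) with hN0
  refine ⟨N0 * (2 * M) + 7 * L, by positivity, fun z hz w hw => ?_⟩
  set F := (finite_SN (⌈√(z.im * w.im)⌉ + 2)).toFinset with hF
  have hzero : ∀ w' ∈ 𝒟, w'.im = w.im → ∀ γ ∉ F, φ (rho z (γ • w')) = 0 := by
    intro w' hw' him γ hγ
    refine hφ.2 _ ?_
    by_contra hlt
    rw [not_le] at hlt
    apply hγ
    rw [hF, Set.Finite.mem_toFinset]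
    have := mem_SN_of_close hz hw' hlt
    rwa [him] at this
  have h1 : K0 φ z w = ∑ γ ∈ F, φ (rho z (γ • w)) := tsum_eq_sum (hzero w hw rfl)
  have h2 : K0 φ z (J • w) = ∑ γ ∈ F, φ (rho z (γ • J • w)) :=
    tsum_eq_sum (hzero (J • w) (fd_J hw) (J_im w))
  rw [Kk, h1, h2, ← Finset.sum_sub_distrib]
  refine (Finset.abs_sum_le_sum_abs _ _).trans ?_
  rw [← Finset.sum_filter_add_sum_filter_not F (fun γ => γ 1 0 ≠ 0)]
  apply add_le_add
  · -- elements with c ≠ 0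
    have h3 : ∀ γ ∈ F.filter (fun γ => γ 1 0 ≠ 0), γ ∉ (finite_SN 2).toFinset →
        |φ (rho z (γ • w)) - φ (rho z (γ • J • w))| = 0 := by
      intro γ hγ hγ2
      have hc := (Finset.mem_filter.mp hγ).2
      rw [Set.Finite.mem_toFinset] at hγ2
      have h4 : φ (rho z (γ • w)) = 0 := by
        refine hφ.2 _ ?_
        by_contra hlt
        exact hγ2 (entries_of_close hz hw (not_le.mp hlt) hc)
      have h5 : φ (rho z (γ • J • w)) = 0 := by
        refine hφ.2 _ ?_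
        by_contra hlt
        exact hγ2 (entries_of_close hz (fd_J hw) (not_le.mp hlt) hc)
      rw [h4, h5, sub_zero, abs_zero]
    calc ∑ γ ∈ F.filter (fun γ => γ 1 0 ≠ 0), |φ (rho z (γ • w)) - φ (rho z (γ • J • w))|
        ≤ ∑ γ ∈ (finite_SN 2).toFinset, |φ (rho z (γ • w)) - φ (rho z (γ • J • w))| := by
          refine sum_le_of_ne (fun γ => abs_nonneg _) fun γ hγ hne => ?_
          by_contra hcon
          exact hne (h3 γ hγ hcon)
      _ ≤ ∑ γ ∈ (finite_SN 2).toFinset, 2 * M := by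
          refine Finset.sum_le_sum fun γ _ => ?_
          have := abs_sub (φ (rho z (γ • w))) (φ (rho z (γ • J • w)))
          have := hM z (γ • w)
          have := hM z (γ • J • w)
          linarith
      _ = N0 * (2 * M) := by rw [Finset.sum_const, nsmul_eq_mul]
  · -- translations
    set Y : ℝ := √(z.im * w.im) with hY
    have hz0 := z.im_pos
    have hw0 := w.im_pos
    have hY2 : Y ^ 2 = z.im * w.im := Real.sq_sqrt (by positivity)
    have hY0 : 0 < Y := Real.sqrt_pos.mpr (by positivity)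
    have hZ := fd_im hz
    have hW := fd_im hw
    have hY3 : 86 / 100 ≤ Y := by
      have h4 : 86 / 100 ≤ z.im := by nlinarith
      have h5 : 86 / 100 ≤ w.im := by nlinarith
      have : (86 / 100) ^ 2 ≤ Y ^ 2 := by rw [hY2]; nlinarith
      exact le_of_sq_le_sq this hY0.le
    set T : Finset SL(2, ℤ) := (F.filter (fun γ => ¬ γ 1 0 ≠ 0)).filter
      (fun γ => |z.re - (γ 0 1 * γ 1 1 : ℤ)| ≤ Y) with hT
    have hterm : ∀ γ : SL(2, ℤ), γ 1 0 = 0 → |z.re - (γ 0 1 * γ 1 1 : ℤ)| ≤ Y →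
        |φ (rho z (γ • w)) - φ (rho z (γ • J • w))| ≤ L / Y := by
      intro γ hc hn
      refine (hL _ _ (one_le_rho _ _) (one_le_rho _ _)).trans ?_
      rw [div_eq_mul_one_div]
      refine mul_le_mul_of_nonneg_left ?_ hL0
      obtain ⟨e1, e2⟩ := par_smul hc w
      obtain ⟨e3, e4⟩ := par_smul hc (J • w)
      rw [J_re] at e3
      rw [J_im] at e4
      have e5 : rho z (γ • w) - rho z (γ • J • w) =
          -(2 * (z.re - (γ 0 1 * γ 1 1 : ℤ)) * w.re) / Y ^ 2 := by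
        rw [rho, rho, e1, e2, e3, e4, hY2]
        field_simp
        ring
      rw [e5, abs_div, abs_neg, abs_mul, abs_mul, abs_of_pos (two_pos), abs_of_pos (pow_pos hY0 2),
        div_le_div_iff₀ (by positivity) hY0]
      have e6 := fd_re hw
      have e7 : 2 * |z.re - (γ 0 1 * γ 1 1 : ℤ)| * |w.re| ≤ Y := by
        have : |z.re - (γ 0 1 * γ 1 1 : ℤ)| * |w.re| ≤ Y * (1 / 2) :=
          mul_le_mul hn e6 (abs_nonneg _) hY0.le
        linarith
      nlinarith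
    have hTsum : ∑ γ ∈ F.filter (fun γ => ¬ γ 1 0 ≠ 0), |φ (rho z (γ • w)) - φ (rho z (γ • J • w))|
        ≤ ∑ γ ∈ T, (L / Y) := by
      calc ∑ γ ∈ F.filter (fun γ => ¬ γ 1 0 ≠ 0), |φ (rho z (γ • w)) - φ (rho z (γ • J • w))|
          ≤ ∑ γ ∈ T, |φ (rho z (γ • w)) - φ (rho z (γ • J • w))| := by
            refine sum_le_of_ne (fun γ => abs_nonneg _) fun γ hγ hne => ?_
            rw [hT, Finset.mem_filter]
            refine ⟨hγ, ?_⟩
            have hc : γ 1 0 = 0 := not_not.mp (Finset.mem_filter.mp hγ).2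
            by_contra hcon
            apply hne
            have h4 : φ (rho z (γ • w)) = 0 := by
              refine hφ.2 _ ?_
              by_contra hlt
              exact hcon (par_close hz hw hc (not_le.mp hlt))
            have h5 : φ (rho z (γ • J • w)) = 0 := by
              refine hφ.2 _ ?_
              by_contra hlt
              have := par_close hz (fd_J hw) hc (not_le.mp hlt)
              rw [J_im] at this
              exact hcon this
            rw [h4, h5, sub_zero, abs_zero]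
        _ ≤ ∑ γ ∈ T, (L / Y) := by
            refine Finset.sum_le_sum fun γ hγ => ?_
            rw [hT, Finset.mem_filter, Finset.mem_filter] at hγ
            exact hterm γ (not_not.mp hγ.1.2) hγ.2
    refine hTsum.trans ?_
    rw [Finset.sum_const, nsmul_eq_mul]
    have hcard : (T.card : ℝ) ≤ 2 * (2 * Y + 1) := by
      have h6 : T.card ≤ (({1, -1} : Finset ℤ) ×ˢ (Finset.Icc ⌈z.re - Y⌉ ⌊z.re + Y⌋)).card := by
        refine Finset.card_le_card_of_injOn (fun γ => (γ 1 1, γ 0 1 * γ 1 1)) ?_ ?_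
        · intro γ hγ
          rw [Finset.mem_coe, hT, Finset.mem_filter, Finset.mem_filter] at hγ
          have hc : γ 1 0 = 0 := not_not.mp hγ.1.2
          have h7 := abs_le.mp hγ.2
          rw [Finset.mem_coe, Finset.mem_product]
          refine ⟨?_, ?_⟩
          · rcases par hc with ⟨-, h8⟩ | ⟨-, h8⟩ <;> simp [h8]
          · rw [Finset.mem_Icc, Int.ceil_le, Int.le_floor]
            constructor <;> linarith [h7.1, h7.2]
        · intro γ hγ δ hδ hE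
          rw [Finset.mem_coe, hT, Finset.mem_filter, Finset.mem_filter] at hγ hδ
          have hc : γ 1 0 = 0 := not_not.mp hγ.1.2
          have hc' : δ 1 0 = 0 := not_not.mp hδ.1.2
          simp only [Prod.mk.injEq] at hE
          obtain ⟨hE1, hE2⟩ := hE
          have h00 : γ 0 0 = δ 0 0 := by
            rcases par hc with ⟨h8, h9⟩ | ⟨h8, h9⟩ <;> rcases par hc' with ⟨h10, h11⟩ | ⟨h10, h11⟩ <;>
              omega
          have h01 : γ 0 1 = δ 0 1 := by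
            rw [hE1] at hE2
            refine mul_right_cancel₀ ?_ hE2
            rcases par hc' with ⟨h10, h11⟩ | ⟨h10, h11⟩ <;> omega
          ext i j
          fin_cases i <;> fin_cases j
          · exact h00
          · exact h01
          · show γ 1 0 = δ 1 0
            rw [hc, hc']
          · exact hE1
      have h7 : ((({1, -1} : Finset ℤ) ×ˢ (Finset.Icc ⌈z.re - Y⌉ ⌊z.re + Y⌋)).card : ℝ) ≤
          2 * (2 * Y + 1) := by
        rw [Finset.card_product]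
        push_cast
        have h8 : ((({1, -1} : Finset ℤ).card : ℕ) : ℝ) = 2 := by
          rw [Finset.card_pair (by norm_num)]; norm_num
        rw [h8]
        exact mul_le_mul_of_nonneg_left (card_near _ _ hY0.le) (by norm_num)
      exact le_trans (by exact_mod_cast h6) h7
    calc (T.card : ℝ) * (L / Y) ≤ (2 * (2 * Y + 1)) * (L / Y) :=
          mul_le_mul_of_nonneg_right hcard (by positivity)
      _ = L * ((4 * Y + 2) / Y) := by ring
      _ ≤ L * 7 := by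
          refine mul_le_mul_of_nonneg_left ?_ hL0
          rw [div_le_iff₀ hY0]
          linarith
      _ = 7 * L := by ring

end

end Pool.Agent.V8H27.OM
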